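import Pool.Agent.IDP.Targets

/-!
# The universal balanced map (BAL)
-/

set_option autoImplicit false

universe u

namespace Pool.Agent.IDP

open CKS TensorProduct Polynomial

section Gen

variable {k : Type u} [Field k] {A : Type u} [CommRing A] [Algebra k A]
  {N N1 C W : Type u} [AddCommGroup N] [Module k N]
  [Module A N] [IsScalarTower k A N] [AddCommGroup N1] [Module k N1] [AddCommGroup C]
  [Module k C] [Module A C] [IsScalarTower k A C] [AddCommGroup W] [Module A W]

/-- Composition with an endomorphism from the right. -/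
def BAL_X (y : Module.End A W) : Module.End k (W →ₗ[A] C) where
  toFun f := f ∘ₗ y
  map_add' f g := LinearMap.add_comp _ _ _
  map_smul' c f := LinearMap.smul_comp _ _ _

/-- Composition with a linear endomorphism of `N1` from the right. -/
def BAL_Y (y : Module.End k N1) : Module.End A (N1 →ₗ[k] C) where
  toFun f := f ∘ₗ y
  map_add' f g := LinearMap.add_comp _ _ _
  map_smul' c f := LinearMap.smul_comp _ _ _

/-- The action by composition from the right. -/
def BAL_sig {L : Type u} [Ring L] [Algebra k L] (R : L →ₐ[k] (Module.End k N1)ᵐᵒᵖ) :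
    L →ₐ[k] Module.End A (N1 →ₗ[k] C) :=
  AlgHom.ofLinearMap
    { toFun := fun a => BAL_Y (R a).unop
      map_add' := fun a b => by
        refine LinearMap.ext fun f => LinearMap.ext fun n => ?_
        simp [BAL_Y]
      map_smul' := fun c a => by
        refine LinearMap.ext fun f => LinearMap.ext fun n => ?_
        simp [BAL_Y] }
    (by
      refine LinearMap.ext fun f => LinearMap.ext fun n => ?_
      simp [BAL_Y])
    (fun a b => by
      refine LinearMap.ext fun f => LinearMap.ext fun n => ?_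
      simp [BAL_Y])

theorem BAL_sig_apply {L : Type u} [Ring L] [Algebra k L]
    (R : L →ₐ[k] (Module.End k N1)ᵐᵒᵖ) (a : L) (f : N1 →ₗ[k] C) (n : N1) :
    BAL_sig (A := A) R a f n = f ((R a).unop n) := rfl

/-- The transposed map. -/
def BAL_tr (g : N1 →ₗ[k] (W →ₗ[A] C)) : W →ₗ[A] (N1 →ₗ[k] C) where
  toFun w :=
    { toFun := fun n => g n w
      map_add' := fun n n' => by rw [map_add, LinearMap.add_apply]
      map_smul' := fun c n => by rw [map_smul, LinearMap.smul_apply, RingHom.id_apply] }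
  map_add' w w' := by
    refine LinearMap.ext fun n => ?_
    simp
  map_smul' a w := by
    refine LinearMap.ext fun n => ?_
    simp

end Gen

theorem BAL_gen (h1 : T_GL.{u}) (h2 : T_UP.{u}) (k : Type u) [Field k] {V E : Type} [Fintype V]
    [Fintype E] (G : CKS.Graph V E) {A : Type u} [CommRing A] [Algebra k A]
    {N N1 C : Type u} [AddCommGroup N] [Module k N] [Module A N] [IsScalarTower k A N]
    [AddCommGroup N1] [Module k N1] [AddCommGroup C] [Module k C] [Module A C]
    [IsScalarTower k A C]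
    (ρ : LPA k G →ₐ[k] Module.End A N) (R : LPA k G →ₐ[k] (Module.End k N1)ᵐᵒᵖ)
    (W : Submodule A N) (X : Submodule k N1) (hW : ∀ e, ∀ n ∈ W, yl ρ e n ∈ W)
    (hW2 : ∀ n, ∃ m, ∀ w : List E, m ≤ w.length → wd (yl ρ) w n ∈ W)
    (hX : ∀ e, ∀ n ∈ X, xr R e n ∈ X)
    (hX2 : ∀ n, ∃ m, ∀ w : List E, m ≤ w.length → wd (xr R) w n ∈ X)
    (b : X →ₗ[k] (W →ₗ[A] C))
    (hb : ∀ x w, b x w = ∑ e, b (rs (xr R) hX e x) (rs (yl ρ) hW e w)) :
    ∃ β : N →ₗ[A] (N1 →ₗ[k] C), (∀ a n' n, β (ρ a n') n = β n' ((R a).unop n)) ∧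
      ∀ (w : W) (x : X), β w x = b x w := by
  obtain ⟨g1, hg1, hg2⟩ := h1 (A := k) (xr R)
    (fun e => BAL_X (k := k) (C := C) (rs (yl ρ) hW e)) X hX hX2 b (by
      intro x
      refine LinearMap.ext fun w => ?_
      rw [hb x w, LinearMap.sum_apply]
      rfl)
  obtain ⟨β, hβ1, hβ2⟩ := h2 k G ρ (BAL_sig (A := A) (C := C) R) W hW hW2 (BAL_tr g1) (by
    intro w
    refine LinearMap.ext fun n => ?_
    rw [LinearMap.sum_apply]
    have h3 : g1 n w = ∑ e, g1 (xr R e n) (rs (yl ρ) hW e w) := by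
      conv_lhs => rw [hg2 n]
      rw [LinearMap.sum_apply]
      rfl
    exact h3)
  refine ⟨β, ?_, ?_⟩
  · intro a n' n
    rw [hβ2 a n', BAL_sig_apply]
  · intro w x
    rw [hβ1 w]
    show g1 x w = b x w
    rw [hg1 x]

/-- The universal bilinear map. -/
def BAL_b {k : Type u} [Field k] {A : Type u} [CommRing A] [Algebra k A] {W X : Type u}
    [AddCommGroup W] [Module k W] [Module A W] [IsScalarTower k A W] [AddCommGroup X]
    [Module k X] (D : Submodule A (W ⊗[k] X)) : X →ₗ[k] (W →ₗ[A] ((W ⊗[k] X) ⧸ D)) where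
  toFun x :=
    { toFun := fun w => Submodule.Quotient.mk (w ⊗ₜ x)
      map_add' := fun w w' => by rw [TensorProduct.add_tmul, Submodule.Quotient.mk_add]
      map_smul' := fun a w => by
        rw [RingHom.id_apply, ← TensorProduct.smul_tmul', Submodule.Quotient.mk_smul] }
  map_add' x x' := by
    refine LinearMap.ext fun w => ?_
    show Submodule.Quotient.mk (w ⊗ₜ (x + x')) = _
    rw [TensorProduct.tmul_add, Submodule.Quotient.mk_add]
    rfl
  map_smul' c x := by
    refine LinearMap.ext fun w => ?_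
    show Submodule.Quotient.mk (w ⊗ₜ (c • x)) = _
    rw [TensorProduct.tmul_smul]
    rfl

theorem p_BAL (h1 : T_GL.{u}) (h2 : T_UP.{u}) : T_BAL.{u} := by
  intro k _ V E _ _ G _ A _ _ N N1 _ _ _ _ _ _ ρ R W X hW hW2 hX hX2
  obtain ⟨β, hβ1, hβ2⟩ := BAL_gen h1 h2 k G ρ R W X hW hW2 hX hX2
    (BAL_b (LinearMap.range (1 - mT (rs (yl ρ) hW) (rs (xr R) hX)))) (by
      intro x w
      have h3 : (Submodule.Quotient.mk (w ⊗ₜ[k] x) : (W ⊗[k] X) ⧸
          LinearMap.range (1 - mT (rs (yl ρ) hW) (rs (xr R) hX))) =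
          Submodule.Quotient.mk (∑ e, (rs (yl ρ) hW e w) ⊗ₜ[k] (rs (xr R) hX e x)) := by
        rw [Submodule.Quotient.eq]
        refine ⟨w ⊗ₜ x, ?_⟩
        rw [LinearMap.sub_apply, Module.End.one_apply]
        congr 1
        unfold mT
        rw [LinearMap.sum_apply]
        rfl
      show (Submodule.Quotient.mk (w ⊗ₜ[k] x) : (W ⊗[k] X) ⧸
          LinearMap.range (1 - mT (rs (yl ρ) hW) (rs (xr R) hX))) = _
      rw [h3, ← Submodule.mkQ_apply, map_sum]
      rfl)
  exact ⟨β, hβ1, hβ2⟩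

end Pool.Agent.IDP
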