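import Pool.Agent.IDP.Targets

/-!
# IDP, target CNT: the counting argument over a principal ideal domain
-/

set_option autoImplicit false

universe u

namespace Pool.Agent.IDP

open CKS

namespace CNT_

section Basic

variable {k : Type u} [Field k] {V E : Type} {G : CKS.Graph V E}

/-- the chain condition -/
abbrev Ch (G : CKS.Graph V E) (w : List E) : Prop := w.IsChain (fun e f => G.r e = G.s f)

theorem yw_zero (w : List E) (h : ¬ Ch G w) : (yw w : LPA k G) = 0 := by
  induction w with
  | nil => exact absurd List.isChain_nil h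
  | cons e l ih =>
    cases l with
    | nil => exact absurd (List.isChain_singleton e) h
    | cons f l =>
      rw [Ch, List.isChain_cons_cons, not_and_or] at h
      rcases h with h | h
      · rw [yw_cons, yw_cons, mul_assoc, gh_gh (fun h' => h h'.symm), mul_zero]
      · rw [yw_cons, ih h, zero_mul]

variable {A : Type u} [CommRing A] [Algebra k A] {N : Type u} [AddCommGroup N] [Module k N]
  [Module A N] [IsScalarTower k A N] (ρ : LPA k G →ₐ[k] Module.End A N) (W : Submodule A N)

theorem ev_apply (c : List E →₀ W) : ev ρ W c = c.sum fun w n => ρ (yw w) (n : N) := by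
  simp only [ev, Finsupp.lsum_apply]
  rfl

theorem mem_UU {i : ℕ} {w : List E} (h1 : Gd G w) (h2 : w.length ≤ i) (n : W) :
    ρ (yw w) (n : N) ∈ UU ρ W i := by
  refine ⟨Finsupp.single w n, ?_, ?_⟩
  · exact Finsupp.single_mem_supported A n ⟨h1, h2⟩
  · rw [ev_apply, Finsupp.sum_single_index (by simp)]

theorem UU_le {i : ℕ} {P : Submodule A N}
    (h : ∀ w : List E, Gd G w → w.length ≤ i → ∀ n : W, ρ (yw w) (n : N) ∈ P) :
    UU ρ W i ≤ P := by
  rintro _ ⟨c, hc, rfl⟩
  rw [ev_apply]
  apply Submodule.sum_mem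
  intro w hw
  obtain ⟨h1, h2⟩ := (Finsupp.mem_supported A c).1 hc hw
  exact h w h1 h2 _

theorem UU_mono {i j : ℕ} (h : i ≤ j) : UU ρ W i ≤ UU ρ W j :=
  UU_le ρ W fun _ h1 h2 n => mem_UU ρ W h1 (h2.trans h) n

theorem mul_UU {i : ℕ} (w : List E) {x : N} (hx : x ∈ UU ρ W i) :
    ρ (yw w) x ∈ UU ρ W (i + w.length) := by
  have : UU ρ W i ≤ (UU ρ W (i + w.length)).comap (ρ (yw w)) := by
    apply UU_le
    intro u h1 h2 n
    rw [Submodule.mem_comap]
    have h3 : ρ (yw w) (ρ (yw u) (n : N)) = ρ (yw (u ++ w)) (n : N) := by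
      rw [yw_append, map_mul]
      rfl
    rw [h3]
    by_cases h : Ch G (u ++ w)
    · refine mem_UU ρ W ⟨?_, h⟩ ?_ n
      · intro h'
        exact h1.1 (List.append_eq_nil_iff.1 h').1
      · rw [List.length_append]
        omega
    · rw [yw_zero _ h, map_zero]
      exact Submodule.zero_mem _
  exact this hx

theorem gen_fix {u : List E} (h : u ≠ []) (n : N) :
    ∃ v : V, ρ (vt v) (ρ (yw u) n) = ρ (yw u) n := by
  refine ⟨G.r (u.getLast h), ?_⟩
  have h0 : (yw u : LPA k G) = gh (u.getLast h) * yw u.dropLast := by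
    conv_lhs => rw [← List.dropLast_append_getLast h]
    rw [yw_append, yw_cons, yw_nil, one_mul]
  have h1 : (vt (G.r (u.getLast h)) * yw u : LPA k G) = yw u := by
    rw [h0, ← mul_assoc, r_gh]
  conv_rhs => rw [← h1, map_mul]
  rfl

theorem UU_fg [Finite E] (hW : W.FG) (i : ℕ) : (UU ρ W i).FG := by
  have h1 : UU ρ W i = ⨆ w ∈ {w : List E | Gd G w ∧ w.length ≤ i}, W.map (ρ (yw w)) := by
    apply le_antisymm
    · apply UU_le
      intro w h1 h2 n
      exact Submodule.mem_iSup_of_mem w (Submodule.mem_iSup_of_mem ⟨h1, h2⟩ ⟨n, n.2, rfl⟩)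
    · refine iSup₂_le fun w hw => ?_
      rintro _ ⟨n, hn, rfl⟩
      exact mem_UU ρ W hw.1 hw.2 ⟨n, hn⟩
  rw [h1]
  have h2 : {w : List E | Gd G w ∧ w.length ≤ i}.Finite :=
    (List.finite_length_le E i).subset fun w hw => hw.2
  rw [← h2.coe_toFinset]
  exact Submodule.fg_biSup _ _ fun w _ => hW.map _

/-- a common multiplier -/
theorem common [IsDomain A] {P Q : Submodule A N} (hP : P.FG)
    (h : ∀ x ∈ P, ∃ a : A, a ≠ 0 ∧ a • x ∈ Q) : ∃ a : A, a ≠ 0 ∧ ∀ x ∈ P, a • x ∈ Q := by
  classical
  obtain ⟨s, hs⟩ := hP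
  have h1 : ∀ x : N, ∃ a : A, a ≠ 0 ∧ (x ∈ s → a • x ∈ Q) := by
    intro x
    by_cases hx : x ∈ s
    · obtain ⟨a, ha, hax⟩ := h x (by rw [← hs]; exact Submodule.subset_span hx)
      exact ⟨a, ha, fun _ => hax⟩
    · exact ⟨1, one_ne_zero, fun h => absurd h hx⟩
  choose a ha hax using h1
  refine ⟨∏ x ∈ s, a x, Finset.prod_ne_zero_iff.2 fun x _ => ha x, ?_⟩
  intro x hx
  rw [← hs] at hx
  induction hx using Submodule.span_induction with
  | mem x hx =>
    rw [← Finset.prod_erase_mul s a hx, mul_smul]
    exact Q.smul_mem _ (hax x hx)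
  | zero => rw [smul_zero]; exact Q.zero_mem
  | add x y _ _ hx hy => rw [smul_add]; exact Q.add_mem hx hy
  | smul b x _ hx => rw [smul_comm]; exact Q.smul_mem _ hx

/-- one step down -/
theorem step {D : ℕ} {a : A} (h : ∀ x ∈ UU ρ W (D + 1), a • x ∈ UU ρ W D) (j : ℕ) :
    ∀ x ∈ UU ρ W (D + (j + 1)), a • x ∈ UU ρ W (D + j) := by
  have : UU ρ W (D + (j + 1)) ≤ (UU ρ W (D + j)).comap (LinearMap.lsmul A N a) := by
    apply UU_le
    intro w h1 h2 n
    rw [Submodule.mem_comap, LinearMap.lsmul_apply]
    by_cases h3 : w.length ≤ D + j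
    · exact Submodule.smul_mem _ _ (mem_UU ρ W h1 h3 n)
    · have h4 : w.length = D + (j + 1) := by omega
      have h5 : (w.take (D + 1)).length = D + 1 := by
        rw [List.length_take]
        omega
      have h6 : Gd G (w.take (D + 1)) := by
        constructor
        · intro h'
          rw [h'] at h5
          simp at h5
        · exact h1.2.take _
      have h7 := h _ (mem_UU ρ W h6 h5.le n)
      have h8 := mul_UU ρ W (w.drop (D + 1)) h7
      have h9 : D + (w.drop (D + 1)).length = D + j := by
        rw [List.length_drop]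
        omega
      rw [h9, map_smul] at h8
      have h10 : ρ (yw w) (n : N) = ρ (yw (w.drop (D + 1))) (ρ (yw (w.take (D + 1))) (n : N)) := by
        conv_lhs => rw [← List.take_append_drop (D + 1) w, yw_append, map_mul]
        rfl
      rw [h10]
      exact h8
  exact fun x hx => this hx

theorem steps {D : ℕ} {a : A} (h : ∀ x ∈ UU ρ W (D + 1), a • x ∈ UU ρ W D) (j : ℕ) :
    ∀ x ∈ UU ρ W (D + j), a ^ j • x ∈ UU ρ W D := by
  induction j with
  | zero => intro x hx; rw [pow_zero, one_smul]; exact hx
  | succ j ih =>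
    intro x hx
    rw [pow_succ, mul_smul]
    exact ih _ (step ρ W h j x hx)

end Basic

end CNT_

open CNT_

theorem p_CNT : T_CNT.{u} := by
  classical
  intro k _ V E _ _ G _ A _ _ _ _ hUF N _ _ _ _ htf ρ W hW D hKp hT
  refine le_antisymm ?_ (UU_mono ρ W (Nat.le_succ D))
  by_contra hle
  -- a generator outside `UU D`
  obtain ⟨u, hu1, hu2, n, hz⟩ : ∃ u : List E, Gd G u ∧ u.length ≤ D + 1 ∧ ∃ n : W,
      ρ (yw u) (n : N) ∉ UU ρ W D := by
    by_contra hno
    push Not at hno
    exact hle (UU_le ρ W hno)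
  obtain ⟨v, hv⟩ := gen_fix ρ hu1.1 (n : N)
  set z : N := ρ (yw u) (n : N) with hzdef
  have hzU : z ∈ UU ρ W (D + 1) := mem_UU ρ W hu1 hu2 n
  -- the ideal
  let I : Ideal A := (UU ρ W D).comap (LinearMap.toSpanSingleton A N z)
  have hI : ∀ a : A, a ∈ I ↔ a • z ∈ UU ρ W D := fun a => Iff.rfl
  obtain ⟨d, hd⟩ : ∃ d, I = Ideal.span {d} := (IsPrincipalIdealRing.principal I).principal
  have hdvd : ∀ a : A, a • z ∈ UU ρ W D → d ∣ a := by
    intro a ha
    rw [← hI, hd, Ideal.mem_span_singleton] at ha
    exact ha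
  have hdu : ¬ IsUnit d := by
    intro h
    have : (1 : A) ∈ I := by
      rw [hd, Ideal.mem_span_singleton]
      exact h.dvd
    rw [hI, one_smul] at this
    exact hz this
  obtain ⟨a0, ha0, ha0z⟩ := hT v z hzU hv
  have hUnb : Unb G := by
    rcases hUF with h | h
    · exact h
    · exfalso
      obtain ⟨b, hb⟩ := h.mul_inv_cancel ha0
      apply hz
      have : z = b • (a0 • z) := by rw [← mul_smul, mul_comm b a0, hb, one_smul]
      rw [this]
      exact Submodule.smul_mem _ _ ha0z
  have hd0 : d ≠ 0 := by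
    rintro rfl
    exact ha0 (zero_dvd_iff.1 (hdvd a0 ha0z))
  -- common multiplier
  have htor : ∀ x ∈ UU ρ W (D + 1), ∃ a : A, a ≠ 0 ∧ a • x ∈ UU ρ W D := by
    let T : Submodule A N :=
      { carrier := {x | ∃ a : A, a ≠ 0 ∧ a • x ∈ UU ρ W D}
        zero_mem' := ⟨1, one_ne_zero, by rw [smul_zero]; exact Submodule.zero_mem _⟩
        add_mem' := by
          rintro x y ⟨a, ha, hx⟩ ⟨b, hb, hy⟩
          refine ⟨a * b, mul_ne_zero ha hb, ?_⟩
          rw [smul_add]
          refine Submodule.add_mem _ ?_ ?_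
          · rw [mul_comm, mul_smul]
            exact Submodule.smul_mem _ _ hx
          · rw [mul_smul]
            exact Submodule.smul_mem _ _ hy
        smul_mem' := by
          rintro b x ⟨a, ha, hx⟩
          refine ⟨a, ha, ?_⟩
          rw [smul_comm]
          exact Submodule.smul_mem _ _ hx }
    have hTle : UU ρ W (D + 1) ≤ T := by
      apply UU_le
      intro w h1 h2 m
      obtain ⟨v', hv'⟩ := gen_fix ρ h1.1 (m : N)
      exact hT v' _ (mem_UU ρ W h1 h2 m) hv'
    exact fun x hx => hTle hx
  obtain ⟨a, ha, haU⟩ := common (UU_fg ρ W hW (D + 1)) htor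
  obtain ⟨S, hS⟩ := UU_fg ρ W hW D
  obtain ⟨j, s, hs1, hs2⟩ := hUnb v (S.card + 1)
  have hmem : ∀ w ∈ s, a ^ (j + 2) • ρ (yw w) z ∈ UU ρ W D := by
    intro w hw
    apply steps ρ W haU (j + 2)
    have h1 := mul_UU ρ W w hzU
    rw [(hs2 w hw).1] at h1
    have h2 : D + 1 + (j + 1) = D + (j + 2) := by omega
    rwa [h2] at h1
  -- linear dependence
  have hdep : ¬ LinearIndependent A (fun w : s => a ^ (j + 2) • ρ (yw (w : List E)) z) := by
    intro hli
    let x : s → UU ρ W D := fun w => ⟨a ^ (j + 2) • ρ (yw (w : List E)) z, hmem w w.2⟩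
    have hx : LinearIndependent A x := by
      apply LinearIndependent.of_comp (UU ρ W D).subtype
      exact hli
    have hfg : Module.Finite A (UU ρ W D) := Module.Finite.iff_fg.2 (UU_fg ρ W hW D)
    have h1 : Fintype.card s ≤ S.card := by
      let S' : Finset (UU ρ W D) := S.attach.image fun y =>
        (⟨y.1, by rw [← hS]; exact Submodule.subset_span y.2⟩ : UU ρ W D)
      have hS' : Submodule.span A (S' : Set (UU ρ W D)) = ⊤ := by
        rw [eq_top_iff]
        rintro ⟨y, hy⟩ -
        have hy' := hy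
        rw [← hS] at hy'
        have key : ∀ y' : N, ∀ h : y' ∈ Submodule.span A (S : Set N),
            (⟨y', by rw [← hS]; exact h⟩ : UU ρ W D) ∈
              Submodule.span A (S' : Set (UU ρ W D)) := by
          intro y' h
          induction h using Submodule.span_induction with
          | mem y' hy' =>
            apply Submodule.subset_span
            exact Finset.mem_coe.2 (Finset.mem_image.2 ⟨⟨y', hy'⟩, Finset.mem_attach _ _, rfl⟩)
          | zero => exact Submodule.zero_mem _
          | add y1 y2 h1 h2 ih1 ih2 => exact Submodule.add_mem _ ih1 ih2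
          | smul b y1 h1 ih1 => exact Submodule.smul_mem _ b ih1
        exact key y hy'
      have h2 := linearIndependent_le_span_finset x hx S' hS'
      rw [Cardinal.mk_fintype, Nat.cast_le] at h2
      refine h2.trans ?_
      refine Finset.card_image_le.trans ?_
      rw [Finset.card_attach]
    rw [Fintype.card_coe] at h1
    omega
  obtain ⟨g, hg, w0, hw0⟩ := Fintype.not_linearIndependent_iff.1 hdep
  have hrel : ∑ w : s, g w • ρ (yw (w : List E)) z = 0 := by
    have h1 : a ^ (j + 2) • ∑ w : s, g w • ρ (yw (w : List E)) z = 0 := by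
      rw [Finset.smul_sum, ← hg]
      exact Finset.sum_congr rfl fun w _ => smul_comm _ _ _
    exact (htf _ _ h1).resolve_left (pow_ne_zero _ ha)
  -- divisibility
  have hdiv : ∀ m : ℕ, ∀ g : s → A, ∑ w : s, g w • ρ (yw (w : List E)) z = 0 →
      ∀ w, d ^ m ∣ g w := by
    intro m
    induction m with
    | zero => intro g _ w; rw [pow_zero]; exact one_dvd _
    | succ m ih =>
      intro g hg
      have h1 : ∀ w, d ∣ g w := by
        let β : List E → A := fun w => if h : w ∈ s then g ⟨w, h⟩ else 0
        let c : List E →₀ N := Finsupp.onFinset s (fun w => β w • z) (by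
          intro w hw
          by_contra h
          apply hw
          simp only [β, dif_neg h, zero_smul])
        have hc1 : ∀ w ∈ c.support, w.length = j + 1 := fun w hw =>
          (hs2 w (Finsupp.support_onFinset_subset hw)).1
        have hc2 : ∀ w, c w ∈ UU ρ W (D + 1) := by
          intro w
          show β w • z ∈ _
          exact Submodule.smul_mem _ _ hzU
        have hc3 : (c.sum fun w n => ρ (yw w) n) = 0 := by
          rw [Finsupp.onFinset_sum _ (fun w => by simp)]
          rw [← Finset.sum_attach, ← Finset.univ_eq_attach]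
          rw [← hg]
          apply Finset.sum_congr rfl
          intro w _
          rw [map_smul]
          have : β w = g w := by simp [β]
          rw [this]
        intro w
        obtain ⟨h1, h2, f, w', h3, h4⟩ := hs2 w w.2
        have h5 := hKp j c hc1 hc2 (by rw [hc3]; exact Submodule.zero_mem _) f w'
          (by rw [← h3]; exact h2) (by rw [h3] at h1; simpa using h1)
        rw [← h3, h4] at h5
        have h6 : c w = g w • z := by
          show β w • z = g w • z
          have : β w = g w := by simp [β]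
          rw [this]
        rw [h6, map_smul, hv] at h5
        exact hdvd _ h5
      choose γ hγ using h1
      have h2 : ∑ w : s, γ w • ρ (yw (w : List E)) z = 0 := by
        have h3 : d • ∑ w : s, γ w • ρ (yw (w : List E)) z = 0 := by
          rw [Finset.smul_sum, ← hg]
          apply Finset.sum_congr rfl
          intro w _
          rw [← mul_smul, ← hγ]
        exact (htf _ _ h3).resolve_left hd0
      intro w
      rw [hγ, pow_succ']
      exact mul_dvd_mul_left d (ih γ h2 w)
  obtain ⟨m, hm⟩ := FiniteMultiplicity.of_not_isUnit hdu hw0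
  exact hm (hdiv (m + 1) g hrel w0)

end Pool.Agent.IDP
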