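import Pool.Agent.IDP.Targets

/-!
# IDP, target COK: isomorphism of the cokernels
-/

set_option autoImplicit false

universe u

namespace Pool.Agent.IDP

open CKS TensorProduct Polynomial

namespace COK_

/-- The unit of the algebra. -/
theorem one_eq {k : Type u} [Field k] {V E : Type} [Fintype V] [Fintype E] (G : CKS.Graph V E)
    (hG : NoSink G) : (1 : LPA k G) = ∑ e : E, ed e * gh e := by
  classical
  rw [← one_rel, ← Finset.sum_fiberwise_of_maps_to
    (s := (Finset.univ : Finset E)) (t := (Finset.univ : Finset V)) (g := G.s)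
    (fun e _ => Finset.mem_univ _)]
  refine Finset.sum_congr rfl fun v _ => ?_
  have hv : G.IsReg v := hG v
  exact (ck_rel hv _ (fun e => by simp)).symm

section

variable {k : Type u} [Field k] {V E : Type} [Fintype V] [Fintype E] {G : CKS.Graph V E}
  {A : Type u} [CommRing A] [Algebra k A] {N N1 Z : Type u} [AddCommGroup N]
  [Module k N] [Module A N] [IsScalarTower k A N] [AddCommGroup N1] [Module k N1]
  [AddCommGroup Z] [Module k Z] [Module A Z] [IsScalarTower k A Z]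
  (ρ : LPA k G →ₐ[k] Module.End A N) (R : LPA k G →ₐ[k] (Module.End k N1)ᵐᵒᵖ)

/-- A balanced map is the sum over the edges. -/
theorem bal_sum (hG : NoSink G) (β : N →ₗ[A] (N1 →ₗ[k] Z))
    (hβ : ∀ a n' n, β (ρ a n') n = β n' ((R a).unop n)) (n' : N) (n : N1) :
    β n' n = ∑ e : E, β (yl ρ e n') (xr R e n) := by
  have h1 : n = (R 1).unop n := by
    rw [map_one]
    rfl
  have h2 : (R 1).unop n = ∑ e : E, (R (gh e)).unop (xr R e n) := by
    rw [one_eq G hG, map_sum, Finset.unop_sum, LinearMap.sum_apply]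
    refine Finset.sum_congr rfl fun e _ => ?_
    rw [map_mul, MulOpposite.unop_mul]
    rfl
  calc β n' n = β n' ((R 1).unop n) := by rw [← h1]
    _ = ∑ e : E, β n' ((R (gh e)).unop (xr R e n)) := by rw [h2, map_sum]
    _ = ∑ e : E, β (yl ρ e n') (xr R e n) := by
        refine Finset.sum_congr rfl fun e _ => ?_
        rw [← hβ]
        rfl

/-- The restriction of a bilinear map. -/
def rst (W : Submodule A N) (X : Submodule k N1) (β : N →ₗ[A] (N1 →ₗ[k] Z)) :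
    W →ₗ[A] (X →ₗ[k] Z) where
  toFun w := (β w) ∘ₗ X.subtype
  map_add' w w' := by
    ext x
    simp
  map_smul' a w := by
    ext x
    simp

/-- A balanced map descends to the cokernel. -/
theorem desc (hG : NoSink G) (W : Submodule A N) (X : Submodule k N1)
    (hW : ∀ e, ∀ n ∈ W, yl ρ e n ∈ W) (hX : ∀ e, ∀ n ∈ X, xr R e n ∈ X)
    (β : N →ₗ[A] (N1 →ₗ[k] Z)) (hβ : ∀ a n' n, β (ρ a n') n = β n' ((R a).unop n)) :
    ∃ Φ : ((W ⊗[k] X) ⧸ LinearMap.range (1 - mT (rs (yl ρ) hW) (rs (xr R) hX))) →ₗ[A] Z,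
      ∀ (w : W) (x : X), Φ (Submodule.Quotient.mk (w ⊗ₜ x)) = β w x := by
  have hF : ∀ (w : W) (x : X),
      TensorProduct.AlgebraTensorModule.lift (rst W X β) (w ⊗ₜ[k] x) = β w x := fun w x => rfl
  refine ⟨Submodule.liftQ _ (TensorProduct.AlgebraTensorModule.lift (rst W X β)) ?_, ?_⟩
  · rintro _ ⟨t, rfl⟩
    rw [LinearMap.mem_ker]
    induction t using TensorProduct.induction_on with
    | zero => simp
    | add a b ha hb => rw [map_add, map_add, ha, hb, add_zero]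
    | tmul w x =>
      rw [LinearMap.sub_apply, map_sub, Module.End.one_apply, hF, mT, LinearMap.sum_apply,
        map_sum, sub_eq_zero, bal_sum ρ R hG β hβ]
      refine Finset.sum_congr rfl fun e _ => ?_
      rfl
  · intro w x
    rfl

omit [Fintype V] [Module k Z] [IsScalarTower k A Z] in
/-- Two maps on the cokernel agree if they agree on the elementary tensors. -/
theorem ext_C (W : Submodule A N) (X : Submodule k N1)
    (hW : ∀ e, ∀ n ∈ W, yl ρ e n ∈ W) (hX : ∀ e, ∀ n ∈ X, xr R e n ∈ X)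
    (f g : ((W ⊗[k] X) ⧸ LinearMap.range (1 - mT (rs (yl ρ) hW) (rs (xr R) hX))) →ₗ[A] Z)
    (h : ∀ (w : W) (x : X), f (Submodule.Quotient.mk (w ⊗ₜ x)) =
      g (Submodule.Quotient.mk (w ⊗ₜ x))) : f = g := by
  refine LinearMap.ext fun c => ?_
  obtain ⟨t, rfl⟩ := Submodule.Quotient.mk_surjective _ c
  induction t using TensorProduct.induction_on with
  | zero => simp
  | add a b ha hb => rw [Submodule.Quotient.mk_add, map_add, map_add, ha, hb]
  | tmul w x => exact h w x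

/-- Composition of a bilinear map with a linear map. -/
def cmp {Z' : Type u} [AddCommGroup Z'] [Module k Z'] [Module A Z'] [IsScalarTower k A Z']
    (Ψ : Z →ₗ[A] Z') (β : N →ₗ[A] (N1 →ₗ[k] Z)) : N →ₗ[A] (N1 →ₗ[k] Z') where
  toFun n' := (Ψ.restrictScalars k) ∘ₗ (β n')
  map_add' w w' := by
    ext x
    simp
  map_smul' a w := by
    ext x
    simp

/-- The comparison of balanced maps. -/
theorem comp_eq (h2 : T_UNIQ.{u}) (hG : NoSink G) (W : Submodule A N) (X : Submodule k N1)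
    (hW : IsLat (yl ρ) W) (hX : IsLat (xr R) X)
    {Z' : Type u} [AddCommGroup Z'] [Module k Z'] [Module A Z'] [IsScalarTower k A Z']
    (Ψ : Z →ₗ[A] Z') (β : N →ₗ[A] (N1 →ₗ[k] Z)) (β' : N →ₗ[A] (N1 →ₗ[k] Z'))
    (hβ : ∀ a n' n, β (ρ a n') n = β n' ((R a).unop n))
    (hβ' : ∀ a n' n, β' (ρ a n') n = β' n' ((R a).unop n))
    (h : ∀ w ∈ W, ∀ x ∈ X, Ψ (β w x) = β' w x) (n' : N) (n : N1) : Ψ (β n' n) = β' n' n := by
  have h3 : cmp Ψ β - β' = 0 := by
    refine h2 k G hG ρ R W X hW.ab hX.ab (cmp Ψ β - β') ?_ ?_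
    · intro a m' m
      have e1 : (cmp Ψ β - β') (ρ a m') m = Ψ (β (ρ a m') m) - β' (ρ a m') m := rfl
      have e2 : (cmp Ψ β - β') m' ((R a).unop m) =
        Ψ (β m' ((R a).unop m)) - β' m' ((R a).unop m) := rfl
      rw [e1, e2, hβ, hβ']
    · intro w hw x hx
      have e1 : (cmp Ψ β - β') w x = Ψ (β w x) - β' w x := rfl
      rw [e1, h w hw x hx, sub_self]
  have h4 : (cmp Ψ β - β') n' n = Ψ (β n' n) - β' n' n := rfl
  rw [h3] at h4
  exact (sub_eq_zero.1 h4.symm)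

end

end COK_

open COK_ in
theorem p_COK (h1 : T_BAL.{u}) (h2 : T_UNIQ.{u}) : T_COK.{u} := by
  intro k _ V E V' E' _ _ _ _ G H hG hH φ A _ _ N N1 _ _ _ _ _ _ ρ R WG WH XG XH hWG hWH hXG hXH
  obtain ⟨βH, hbH, hvH⟩ := h1 k H hH ρ R WH XH hWH.st hWH.ab hXH.st hXH.ab
  obtain ⟨βG, hbG, hvG⟩ := h1 k G hG (ρ.comp (φ : LPA k G →ₐ[k] LPA k H))
    (R.comp (φ : LPA k G →ₐ[k] LPA k H)) WG XG hWG.st hWG.ab hXG.st hXG.ab
  have hbHG : ∀ a n' n, βH ((ρ.comp (φ : LPA k G →ₐ[k] LPA k H)) a n') n =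
      βH n' (((R.comp (φ : LPA k G →ₐ[k] LPA k H)) a).unop n) := fun a n' n => hbH (φ a) n' n
  have hbGH : ∀ a n' n, βG (ρ a n') n = βG n' ((R a).unop n) := by
    intro a n' n
    have h3 := hbG (φ.symm a) n' n
    have h4 : φ (φ.symm a) = a := φ.apply_symm_apply a
    simp only [AlgHom.comp_apply, AlgEquiv.coe_toAlgHom, h4] at h3
    exact h3
  obtain ⟨Φ, hΦ⟩ := desc (ρ.comp (φ : LPA k G →ₐ[k] LPA k H))
    (R.comp (φ : LPA k G →ₐ[k] LPA k H)) hG WG XG hWG.st hXG.st βH hbHG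
  obtain ⟨Ψ, hΨ⟩ := desc ρ R hH WH XH hWH.st hXH.st βG hbGH
  have hc1 : ∀ n' n, Ψ (βH n' n) = βG n' n :=
    comp_eq ρ R h2 hH WH XH hWH hXH Ψ βH βG hbH hbGH (by
      intro w hw x hx
      rw [hvH ⟨w, hw⟩ ⟨x, hx⟩]
      exact hΨ ⟨w, hw⟩ ⟨x, hx⟩)
  have hc2 : ∀ n' n, Φ (βG n' n) = βH n' n :=
    comp_eq (ρ.comp (φ : LPA k G →ₐ[k] LPA k H)) (R.comp (φ : LPA k G →ₐ[k] LPA k H)) h2 hG WG XG
      hWG hXG Φ βG βH hbG hbHG (by
      intro w hw x hx
      rw [hvG ⟨w, hw⟩ ⟨x, hx⟩]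
      exact hΦ ⟨w, hw⟩ ⟨x, hx⟩)
  refine ⟨LinearEquiv.ofLinearMap Φ Ψ ?_ ?_⟩
  · refine ext_C ρ R WH XH hWH.st hXH.st _ _ fun w x => ?_
    rw [LinearMap.comp_apply, hΨ, hc2, hvH]
    rfl
  · refine ext_C (ρ.comp (φ : LPA k G →ₐ[k] LPA k H)) (R.comp (φ : LPA k G →ₐ[k] LPA k H))
      WG XG hWG.st hXG.st _ _ fun w x => ?_
    rw [LinearMap.comp_apply, hΦ, hc1, hvG]
    rfl

end Pool.Agent.IDP
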