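import Pool.Agent.IDP.Targets

/-!
# IDP, DET: determinants and nilpotent pieces
-/

set_option autoImplicit false

universe u

namespace Pool.Agent.IDP

open CKS TensorProduct Polynomial

namespace DET_

section Lin

variable {k : Type u} [Field k]

/-- the determinant of one minus a nilpotent operator -/
theorem nil_det {X : Type u} [AddCommGroup X] [Module k X] [FiniteDimensional k X]
    (S : Module.End k X) (h : ∀ x, ∃ n : ℕ, (S ^ n) x = 0) : LinearMap.det (1 - S) = 1 := by
  have h1 := (LinearMap.charpoly_eq_X_pow_iff S).mpr h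
  have h2 := LinearMap.eval_charpoly S (1 : k)
  rw [h1, map_one] at h2
  rw [← h2]
  simp

theorem gen {X Y : Type u} [AddCommGroup X] [Module k X] [FiniteDimensional k X]
    [AddCommGroup Y] [Module k Y] [FiniteDimensional k Y] (S : Module.End k X)
    (S' : Module.End k Y) (H : X →ₗ[k] Y) (hH : ∀ x, H (S x) = S' (H x))
    (h1 : ∀ x, H x = 0 → ∃ n : ℕ, (S ^ n) x = 0) (h2 : ∀ y, ∃ (n : ℕ) (x : X), (S' ^ n) y = H x) :
    LinearMap.det (1 - S) = LinearMap.det (1 - S') := by
  have hS : ∀ x ∈ LinearMap.ker H, S x ∈ LinearMap.ker H := by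
    intro x hx
    rw [LinearMap.mem_ker] at hx ⊢
    rw [hH, hx, map_zero]
  have hS' : ∀ y ∈ LinearMap.range H, S' y ∈ LinearMap.range H := by
    rintro _ ⟨x, rfl⟩
    exact ⟨S x, hH x⟩
  have he : LinearMap.ker H ≤ (LinearMap.ker H).comap (1 - S) := by
    intro x hx
    rw [Submodule.mem_comap, LinearMap.sub_apply]
    exact Submodule.sub_mem _ hx (hS x hx)
  have he' : LinearMap.range H ≤ (LinearMap.range H).comap (1 - S') := by
    intro x hx
    rw [Submodule.mem_comap, LinearMap.sub_apply]
    exact Submodule.sub_mem _ hx (hS' x hx)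
  rw [LinearMap.det_eq_det_mul_det (LinearMap.ker H) (1 - S) he,
    LinearMap.det_eq_det_mul_det (LinearMap.range H) (1 - S') he']
  -- the kernel
  have e1 : LinearMap.det ((1 - S : Module.End k X).restrict he) = 1 := by
    have : (1 - S : Module.End k X).restrict he = 1 - S.restrict hS := by
      ext x
      rfl
    rw [this]
    refine nil_det _ fun x => ?_
    obtain ⟨n, hn⟩ := h1 x x.2
    refine ⟨n, Subtype.ext ?_⟩
    have key : ∀ (n : ℕ) (x : LinearMap.ker H), (((S.restrict hS) ^ n) x : X) = (S ^ n) x := by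
      intro n
      induction n with
      | zero => intro x; rfl
      | succ n ih =>
        intro x
        rw [pow_succ, pow_succ, Module.End.mul_apply, Module.End.mul_apply, ih]
        rfl
    rw [key, hn]
    rfl
  -- the quotient by the range
  have e2 : LinearMap.det ((LinearMap.range H).mapQ (LinearMap.range H) (1 - S') he') = 1 := by
    have hq : LinearMap.range H ≤ (LinearMap.range H).comap S' := fun y hy => hS' y hy
    have : (LinearMap.range H).mapQ (LinearMap.range H) (1 - S') he' =
        1 - (LinearMap.range H).mapQ (LinearMap.range H) S' hq := by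
      ext x
      rfl
    rw [this]
    refine nil_det _ fun x => ?_
    obtain ⟨y, rfl⟩ := Submodule.Quotient.mk_surjective _ x
    obtain ⟨n, z, hn⟩ := h2 y
    refine ⟨n, ?_⟩
    have key : ∀ (n : ℕ) (y : Y), (((LinearMap.range H).mapQ (LinearMap.range H) S' hq) ^ n)
        (Submodule.Quotient.mk y) = Submodule.Quotient.mk ((S' ^ n) y) := by
      intro n
      induction n with
      | zero => intro y; rfl
      | succ n ih =>
        intro y
        rw [pow_succ, pow_succ, Module.End.mul_apply, Module.End.mul_apply]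
        exact ih (S' y)
    rw [key, hn, Submodule.Quotient.mk_eq_zero]
    exact ⟨z, rfl⟩
  -- the isomorphism
  have e3 : LinearMap.det ((LinearMap.ker H).mapQ (LinearMap.ker H) (1 - S) he) =
      LinearMap.det ((1 - S' : Module.End k Y).restrict he') := by
    rw [← LinearMap.det_conj _ H.quotKerEquivRange]
    congr 1
    ext y
    obtain ⟨y, x, rfl⟩ := y
    have e4 : H.quotKerEquivRange.symm ⟨H x, ⟨x, rfl⟩⟩ = Submodule.Quotient.mk x := by
      rw [LinearEquiv.symm_apply_eq]
      rfl
    show ((H.quotKerEquivRange (((LinearMap.ker H).mapQ (LinearMap.ker H) (1 - S) he)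
      (H.quotKerEquivRange.symm ⟨H x, ⟨x, rfl⟩⟩)) : LinearMap.range H) : Y) = _
    rw [e4]
    show H ((1 - S) x) = (1 - S') (H x)
    rw [LinearMap.sub_apply, LinearMap.sub_apply, map_sub, Module.End.one_apply,
      Module.End.one_apply, hH]
  rw [e1, e2, e3, one_mul, mul_one]

end Lin

section Words

variable {k : Type u} [Field k] {ι : Type} [Fintype ι] {V W : Type u} [AddCommGroup V] [Module k V]
    [AddCommGroup W] [Module k W]

theorem pow_mem (a : ι → Module.End k V) (b : ι → Module.End k W) :
    ∀ (n : ℕ) (x : V) (y : W), ((∑ i, TensorProduct.map (a i) (b i)) ^ n) (x ⊗ₜ[k] y) ∈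
      Submodule.span k {z : V ⊗[k] W | ∃ (w : List ι) (y' : W), w.length = n ∧
        z = (wd a w x) ⊗ₜ[k] y'} := by
  intro n
  induction n with
  | zero =>
    intro x y
    exact Submodule.subset_span ⟨[], y, rfl, rfl⟩
  | succ n ih =>
    intro x y
    have h1 : (∑ i, TensorProduct.map (a i) (b i)) (x ⊗ₜ[k] y) =
        ∑ i, (a i x) ⊗ₜ[k] (b i y) := by
      rw [LinearMap.sum_apply]
      exact Finset.sum_congr rfl fun i _ => TensorProduct.map_tmul _ _ _ _
    rw [pow_succ, Module.End.mul_apply, h1, map_sum]
    refine Submodule.sum_mem _ fun i _ => ?_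
    refine Submodule.span_mono ?_ (ih (a i x) (b i y))
    rintro z ⟨w, y', hw, rfl⟩
    exact ⟨i :: w, y', by rw [List.length_cons, hw], rfl⟩

end Words

end DET_

open DET_ in
theorem p_DET : T_DET.{u} := by
  intro k _ ι _ V V' W _ _ _ _ _ _ _ _ _ a a' b h hc m h1 h2
  refine gen _ _ (h.rTensor W) ?_ ?_ ?_
  · intro t
    induction t using TensorProduct.induction_on with
    | zero => simp
    | tmul x y =>
      rw [LinearMap.rTensor_tmul, LinearMap.sum_apply, LinearMap.sum_apply, map_sum]
      refine Finset.sum_congr rfl fun i _ => ?_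
      rw [TensorProduct.map_tmul, TensorProduct.map_tmul, LinearMap.rTensor_tmul, hc]
    | add s t hs ht => simp only [map_add, hs, ht]
  · intro t ht
    refine ⟨m, ?_⟩
    have hex := Module.Flat.rTensor_exact W (LinearMap.exact_subtype_ker_map h)
    obtain ⟨s, rfl⟩ := (hex t).mp ht
    clear ht
    induction s using TensorProduct.induction_on with
    | zero => simp
    | tmul x y =>
      have h3 := pow_mem a b m (x : V) y
      have h4 : {z : V ⊗[k] W | ∃ (w : List ι) (y' : W), w.length = m ∧
          z = (wd a w (x : V)) ⊗ₜ[k] y'} ⊆ {0} := by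
        rintro z ⟨w, y', hw, rfl⟩
        rw [h1 w hw.ge x x.2, TensorProduct.zero_tmul]
        rfl
      have h5 := Submodule.span_mono (R := k) h4 h3
      rw [Submodule.span_zero_singleton, Submodule.mem_bot] at h5
      exact h5
    | add s t hs ht => rw [map_add, map_add, hs, ht, add_zero]
  · intro t
    refine ⟨m, ?_⟩
    suffices hm : ((∑ i, TensorProduct.map (a' i) (b i)) ^ m) t ∈
        LinearMap.range (h.rTensor W) by
      obtain ⟨x, hx⟩ := hm
      exact ⟨x, hx.symm⟩
    induction t using TensorProduct.induction_on with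
    | zero => simp
    | tmul x y =>
      refine Submodule.span_le.mpr ?_ (pow_mem a' b m x y)
      rintro z ⟨w, y', hw, rfl⟩
      obtain ⟨v, hv⟩ := h2 w hw.ge x
      rw [hv]
      exact ⟨v ⊗ₜ[k] y', LinearMap.rTensor_tmul _ _ _ _⟩
    | add s t hs ht =>
      rw [map_add]
      exact Submodule.add_mem _ hs ht

end Pool.Agent.IDP
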