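import Pool.Agent.IDP.Targets

/-!
# IDP: p_EXT, presentation of a module by a lattice
-/

set_option autoImplicit false

universe u

namespace Pool.Agent.IDP

open CKS TensorProduct

namespace EXT_

variable {k : Type u} [Field k] {V E V' E' : Type} {G : CKS.Graph V E} {H : CKS.Graph V' E'}
variable {A : Type u} [CommRing A] [Algebra k A] {Q : Type u} [AddCommGroup Q] [Module k Q]
  [Module A Q] [IsScalarTower k A Q]

/-- The operator of composition with a right multiplication. -/
noncomputable def so (A : Type u) [CommRing A] [Algebra k A] {Q : Type u} [AddCommGroup Q]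
    [Module k Q] [Module A Q] [IsScalarTower k A Q] (b : LPA k H) :
    Module.End A (LPA k H →ₗ[k] Q) where
  toFun f := f ∘ₗ LinearMap.mulRight k b
  map_add' f g := by
    ext x
    simp
  map_smul' c f := by
    ext x
    simp

lemma so_apply (b : LPA k H) (f : LPA k H →ₗ[k] Q) (x : LPA k H) :
    (so A b f : LPA k H →ₗ[k] Q) x = f (x * b) := rfl

/-- The representation on linear maps. -/
noncomputable def sg (A : Type u) [CommRing A] [Algebra k A] (Q : Type u) [AddCommGroup Q]
    [Module k Q] [Module A Q] [IsScalarTower k A Q] (φ : LPA k G ≃ₐ[k] LPA k H) :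
    LPA k G →ₐ[k] Module.End A (LPA k H →ₗ[k] Q) where
  toFun a := so A (φ a)
  map_one' := by
    apply LinearMap.ext
    intro f
    apply LinearMap.ext
    intro x
    rw [so_apply, map_one, mul_one]
    rfl
  map_mul' a b := by
    apply LinearMap.ext
    intro f
    apply LinearMap.ext
    intro x
    change (so A (φ (a * b)) f : LPA k H →ₗ[k] Q) x = f (x * φ a * φ b)
    rw [so_apply, map_mul φ, mul_assoc]
  map_zero' := by
    apply LinearMap.ext
    intro f
    apply LinearMap.ext
    intro x
    rw [so_apply, map_zero, mul_zero, map_zero]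
    rfl
  map_add' a b := by
    apply LinearMap.ext
    intro f
    apply LinearMap.ext
    intro x
    change (so A (φ (a + b)) f : LPA k H →ₗ[k] Q) x = f (x * φ a) + f (x * φ b)
    rw [so_apply, map_add φ, mul_add, map_add]
  commutes' r := by
    apply LinearMap.ext
    intro f
    apply LinearMap.ext
    intro x
    change (so A (φ (algebraMap k (LPA k G) r)) f : LPA k H →ₗ[k] Q) x = _
    rw [so_apply, AlgEquiv.commutes, ← Algebra.commutes, ← Algebra.smul_def, map_smul]
    rfl

lemma sg_apply (φ : LPA k G ≃ₐ[k] LPA k H) (a : LPA k G) (f : LPA k H →ₗ[k] Q) (x : LPA k H) :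
    (sg A Q φ a f : LPA k H →ₗ[k] Q) x = f (x * φ a) := rfl

end EXT_

theorem p_EXT (h1 : T_UP.{u}) : T_EXT.{u} := by
  intro k _ V E V' E' _ _ _ _ G H φ A _ _ N _ _ _ _ ρ W hst hab Q _ _ _ _ B hB
  let ρ' : LPA k G →ₐ[k] Module.End A N := ρ.comp (φ : LPA k G →ₐ[k] LPA k H)
  let g : W →ₗ[A] (LPA k H →ₗ[k] Q) :=
    { toFun := fun v =>
        { toFun := fun b => B b v
          map_add' := fun x y => by rw [map_add]; rfl
          map_smul' := fun c x => by rw [map_smul]; rfl }
      map_add' := fun v w => by
        apply LinearMap.ext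
        intro b
        exact map_add (B b) v w
      map_smul' := fun c v => by
        apply LinearMap.ext
        intro b
        exact map_smul (B b) c v }
  have hg : ∀ (v : W) (b : LPA k H), (g v : LPA k H →ₗ[k] Q) b = B b v := fun v b => rfl
  obtain ⟨h, hh1, hh2⟩ := h1 k G ρ' (EXT_.sg A Q φ) W hst hab g (by
    intro v
    apply LinearMap.ext
    intro b
    rw [hg, hB, LinearMap.sum_apply]
    rfl)
  let h' : N →ₗ[A] Q :=
    { toFun := fun n => (h n : LPA k H →ₗ[k] Q) 1
      map_add' := fun x y => by rw [map_add]; rfl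
      map_smul' := fun c x => by rw [map_smul]; rfl }
  refine ⟨h', fun a v => ?_⟩
  have e1 := hh2 (φ.symm a) (v : N)
  have e2 : ρ' (φ.symm a) = ρ a := by
    change ρ (φ (φ.symm a)) = ρ a
    rw [AlgEquiv.apply_symm_apply]
  rw [e2] at e1
  change (h (ρ a v) : LPA k H →ₗ[k] Q) 1 = B a v
  rw [e1, EXT_.sg_apply, hh1, hg, AlgEquiv.apply_symm_apply, one_mul]

end Pool.Agent.IDP
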