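import Pool.Agent.IDP.Targets

/-!
# IDP: the target T_FAM
-/

set_option autoImplicit false

universe u

namespace Pool.Agent.IDP

open CKS TensorProduct Polynomial

namespace FAM_

variable {k : Type u} [Field k] {N : Type u} [AddCommGroup N] [Module k N]

/-- Shift by `c` and apply `T`. -/
noncomputable def opk (c : ℤ) (T : Module.End k N) : Module.End k (ℤ →₀ N) :=
  (Finsupp.lmapDomain N k (fun j => j + c)) ∘ₗ (Finsupp.mapRange.linearMap T)

lemma opk_single (c : ℤ) (T : Module.End k N) (j : ℤ) (x : N) :
    opk c T (Finsupp.single j x) = Finsupp.single (j + c) (T x) := by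
  simp [opk, Finsupp.lmapDomain_apply, Finsupp.mapDomain_single]

lemma opk_mul (c d : ℤ) (T S : Module.End k N) :
    opk c T * opk d S = opk (c + d) (T * S) := by
  apply Finsupp.lhom_ext
  intro j x
  rw [Module.End.mul_apply, opk_single, opk_single, opk_single, Module.End.mul_apply]
  congr 1
  ring

lemma opk_add (c : ℤ) (T S : Module.End k N) : opk c (T + S) = opk c T + opk c S := by
  apply Finsupp.lhom_ext
  intro j x
  rw [LinearMap.add_apply, opk_single, opk_single, opk_single, LinearMap.add_apply,
    Finsupp.single_add]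

lemma opk_zero (c : ℤ) : opk c (0 : Module.End k N) = 0 := by
  apply Finsupp.lhom_ext
  intro j x
  rw [opk_single, LinearMap.zero_apply, LinearMap.zero_apply, Finsupp.single_zero]

lemma opk_one : opk 0 (1 : Module.End k N) = 1 := by
  apply Finsupp.lhom_ext
  intro j x
  rw [opk_single, Module.End.one_apply, Module.End.one_apply, add_zero]

variable (k N) in
/-- The shift. -/
noncomputable def sh : Module.End k (ℤ →₀ N) := opk 1 1

lemma sh_pow (n : ℕ) : (sh k N) ^ n = opk (n : ℤ) 1 := by
  induction n with
  | zero => rw [pow_zero, Nat.cast_zero, opk_one]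
  | succ n ih =>
    rw [pow_succ, ih, sh, opk_mul, mul_one]
    push_cast
    rfl

lemma opk_comm (c : ℤ) (T : Module.End k N) (a : k[X]) :
    opk c T * (aeval (sh k N) a) = (aeval (sh k N) a) * opk c T := by
  have h : Commute (opk c T) (sh k N) := by
    unfold Commute SemiconjBy
    rw [sh, opk_mul, opk_mul, mul_one, one_mul, add_comm]
  induction a using Polynomial.induction_on' with
  | add p q hp hq => rw [map_add, mul_add, add_mul, hp, hq]
  | monomial n r =>
    rw [aeval_monomial]
    have h0 : Commute (opk c T) (algebraMap k _ r) := (Algebra.commutes r (opk c T)).symm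
    exact h0.mul_right (h.pow_right n)

/-- The module structure over the polynomials. -/
@[instance_reducible]
noncomputable def md : Module k[X] (ℤ →₀ N) :=
  Module.compHom (ℤ →₀ N) (aeval (sh k N)).toRingHom

attribute [local instance] md

lemma smul_def (a : k[X]) (n : ℤ →₀ N) : a • n = aeval (sh k N) a n := rfl

lemma tower : IsScalarTower k k[X] (ℤ →₀ N) := by
  constructor
  intro c a n
  rw [smul_def, smul_def, map_smul, LinearMap.smul_apply]

attribute [local instance] tower

lemma X_smul (n : ℤ →₀ N) : (X : k[X]) • n = sh k N n := by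
  rw [smul_def, aeval_X]

lemma X_pow_smul (m : ℕ) (n : ℤ →₀ N) :
    (X ^ m : k[X]) • n = opk (m : ℤ) (1 : Module.End k N) n := by
  rw [smul_def, map_pow, aeval_X, sh_pow]

/-- The operator as a linear map over the polynomials. -/
noncomputable def op (c : ℤ) (T : Module.End k N) : Module.End k[X] (ℤ →₀ N) where
  toFun := opk c T
  map_add' := map_add _
  map_smul' a n := by
    rw [RingHom.id_apply, smul_def, smul_def, ← Module.End.mul_apply, opk_comm,
      Module.End.mul_apply]

lemma op_apply (c : ℤ) (T : Module.End k N) (n : ℤ →₀ N) : op c T n = opk c T n := rfl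

lemma op_mul (c d : ℤ) (T S : Module.End k N) : op c T * op d S = op (c + d) (T * S) := by
  apply LinearMap.ext
  intro n
  rw [Module.End.mul_apply, op_apply, op_apply, op_apply, ← opk_mul, Module.End.mul_apply]

lemma op_zero (c : ℤ) : op c (0 : Module.End k N) = 0 := by
  apply LinearMap.ext
  intro n
  rw [op_apply, opk_zero]
  rfl

lemma op_one : op 0 (1 : Module.End k N) = 1 := by
  apply LinearMap.ext
  intro n
  rw [op_apply, opk_one]
  rfl

lemma op_add (c : ℤ) (T S : Module.End k N) : op c (T + S) = op c T + op c S := by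
  apply LinearMap.ext
  intro n
  rw [LinearMap.add_apply, op_apply, op_apply, op_apply, opk_add, LinearMap.add_apply]

lemma op_sum {ι : Type} (s : Finset ι) (c : ℤ) (T : ι → Module.End k N) :
    op c (∑ i ∈ s, T i) = ∑ i ∈ s, op c (T i) := by
  classical
  induction s using Finset.induction_on with
  | empty => rw [Finset.sum_empty, Finset.sum_empty, op_zero]
  | insert i s hi ih => rw [Finset.sum_insert hi, Finset.sum_insert hi, op_add, ih]

section rep

variable {V E : Type} {G : CKS.Graph V E} (ρ : LPA k G →ₐ[k] Module.End k N)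

/-- The family of operators. -/
noncomputable def fam : Fam k G G.IsReg (Module.End k[X] (ℤ →₀ N)) where
  p v := op 0 (ρ (vt v))
  x e := op (-1) (ρ (ed e))
  y e := op 1 (ρ (gh e))
  idem a := by rw [op_mul, ← map_mul, vt_idem, add_zero]
  orth a b h := by rw [op_mul, ← map_mul, vt_orth h, map_zero, op_zero]
  se e := by rw [op_mul, ← map_mul, s_ed, zero_add]
  er e := by rw [op_mul, ← map_mul, ed_r, add_zero]
  rg e := by rw [op_mul, ← map_mul, r_gh, zero_add]
  gs e := by rw [op_mul, ← map_mul, gh_s, add_zero]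
  ge e := by
    rw [op_mul, ← map_mul, gh_ed]
    norm_num
  gf e f h := by rw [op_mul, ← map_mul, gh_ed_ne h, map_zero, op_zero]
  ck a h S hS := by
    have h1 : ∀ e ∈ S, op (-1) (ρ (ed e)) * op 1 (ρ (gh e)) = op 0 (ρ (ed e * gh e)) := by
      intro e _
      rw [op_mul, ← map_mul]
      norm_num
    rw [Finset.sum_congr rfl h1, ← op_sum, ← map_sum, ck_rel h S hS]
  one S hS := by
    have h1 : ∑ a ∈ S, (vt a : LPA k G) = 1 := (taut k G G.IsReg).one S hS
    rw [← op_sum, ← map_sum, h1, map_one, op_one]

/-- The representation on the family. -/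
noncomputable def rr : LPA k G →ₐ[k] Module.End k[X] (ℤ →₀ N) := (fam ρ).lift

/-- The sum of the coefficients. -/
noncomputable def ep : (ℤ →₀ N) →ₗ[k] N := Finsupp.lsum ℕ (fun _ => LinearMap.id)

lemma ep_single (j : ℤ) (x : N) : ep (k := k) (Finsupp.single j x) = x := by
  simp [ep]

lemma ep_opk (c : ℤ) (T : Module.End k N) (n : ℤ →₀ N) :
    ep (k := k) (opk c T n) = T (ep (k := k) n) := by
  have h : (ep (k := k)) ∘ₗ (opk c T) = T ∘ₗ (ep (k := k)) := by
    apply Finsupp.lhom_ext
    intro j x
    rw [LinearMap.comp_apply, LinearMap.comp_apply, opk_single, ep_single, ep_single]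
  exact LinearMap.congr_fun h n

lemma ep_rr (a : LPA k G) (n : ℤ →₀ N) : ep (k := k) (rr ρ a n) = ρ a (ep (k := k) n) := by
  let S : Subalgebra k (LPA k G) :=
    { carrier := {a | ∀ n : ℤ →₀ N, ep (k := k) (rr ρ a n) = ρ a (ep (k := k) n)}
      mul_mem' := by
        intro a b ha hb n
        rw [map_mul, map_mul, Module.End.mul_apply, Module.End.mul_apply, ha, hb]
      add_mem' := by
        intro a b ha hb n
        rw [map_add, map_add, LinearMap.add_apply, LinearMap.add_apply, map_add, ha, hb]
      algebraMap_mem' := by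
        intro c n
        rw [AlgHom.commutes, AlgHom.commutes, Module.algebraMap_end_apply,
          Module.algebraMap_end_apply, map_smul] }
  have h : a ∈ S := by
    apply mem_of_gen k G G.IsReg S
    · intro v n
      rw [rr, lift_vt]
      exact ep_opk _ _ _
    · intro v n
      rw [rr, lift_ed]
      exact ep_opk _ _ _
    · intro v n
      rw [rr, lift_gh]
      exact ep_opk _ _ _
  exact h n

lemma yl_rr (e : E) (n : ℤ →₀ N) : yl (rr ρ) e n = opk 1 (ρ (gh e)) n := by
  rw [yl, rr, lift_gh]
  rfl

lemma wd_rr (w : List E) (j : ℤ) (x : N) : wd (yl (rr ρ)) w (Finsupp.single j x) =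
    Finsupp.single (j + w.length) (wd (yl ρ) w x) := by
  induction w generalizing j x with
  | nil => simp [wd]
  | cons e w ih =>
    rw [wd, wd, Module.End.mul_apply, yl_rr, opk_single, ih, Module.End.mul_apply,
      List.length_cons]
    congr 1
    push_cast
    ring

end rep

lemma shift_ex (j : ℤ) (x : N) :
    ∃ n' : ℤ →₀ N, Finsupp.single j x - Finsupp.single 0 x = (X - 1 : k[X]) • n' := by
  have hX : ∀ (i : ℤ) (y : N), (X - 1 : k[X]) • (Finsupp.single i y : ℤ →₀ N) =
      Finsupp.single (i + 1) y - Finsupp.single i y := by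
    intro i y
    rw [sub_smul, one_smul, X_smul, sh, opk_single, Module.End.one_apply]
  induction j using Int.induction_on with
  | zero => exact ⟨0, by rw [sub_self, smul_zero]⟩
  | succ i ih =>
    obtain ⟨n', hn'⟩ := ih
    refine ⟨n' + Finsupp.single (i : ℤ) x, ?_⟩
    rw [smul_add, hX, ← hn']
    abel
  | pred i ih =>
    obtain ⟨n', hn'⟩ := ih
    refine ⟨n' - Finsupp.single (-(i : ℤ) - 1) x, ?_⟩
    rw [smul_sub, hX, ← hn', sub_add_cancel]
    abel

lemma ker_ex (n : ℤ →₀ N) :
    ∃ n' : ℤ →₀ N, n - Finsupp.single 0 (ep (k := k) n) = (X - 1 : k[X]) • n' := by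
  induction n using Finsupp.induction_linear with
  | zero => exact ⟨0, by simp⟩
  | add f g hf hg =>
    obtain ⟨a, ha⟩ := hf
    obtain ⟨b, hb⟩ := hg
    refine ⟨a + b, ?_⟩
    rw [smul_add, ← ha, ← hb, map_add, Finsupp.single_add]
    abel
  | single j x =>
    rw [ep_single]
    exact shift_ex j x

lemma coef (a : k[X]) (n : ℤ →₀ N) (j : ℤ) :
    (a • n) j = ∑ i ∈ Finset.range (a.natDegree + 1), a.coeff i • n (j - i) := by
  have h1 : ∀ i : ℕ, ((sh k N) ^ i) n j = n (j - i) := by
    intro i
    rw [sh_pow]
    have : opk (i : ℤ) (1 : Module.End k N) n = Finsupp.mapDomain (fun j => j + (i : ℤ)) n := by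
      have h2 : opk (i : ℤ) (1 : Module.End k N) =
          Finsupp.lmapDomain N k (fun j => j + (i : ℤ)) := by
        apply Finsupp.lhom_ext
        intro j x
        rw [opk_single, Finsupp.lmapDomain_apply, Finsupp.mapDomain_single]
        rfl
      rw [h2]
      rfl
    rw [this]
    have h3 : j = (fun j => j + (i : ℤ)) (j - i) := by simp
    conv_lhs => rw [h3]
    exact Finsupp.mapDomain_apply (add_left_injective (i : ℤ)) n (j - i)
  rw [smul_def, aeval_eq_sum_range, LinearMap.sum_apply, Finsupp.finsetSum_apply]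
  apply Finset.sum_congr rfl
  intro i _
  rw [LinearMap.smul_apply, Finsupp.smul_apply, h1]

lemma torsion_free (a : k[X]) (n : ℤ →₀ N) (h : a • n = 0) : a = 0 ∨ n = 0 := by
  by_contra hc
  rw [not_or] at hc
  obtain ⟨ha, hn⟩ := hc
  have hne : n.support.Nonempty := Finsupp.support_nonempty_iff.mpr hn
  set j0 := n.support.max' hne with hj0
  have h1 := coef a n (a.natDegree + j0)
  rw [h, Finset.sum_eq_single a.natDegree] at h1
  · have h2 : ((a.natDegree : ℤ) + j0 - a.natDegree) = j0 := by ring
    rw [h2, coeff_natDegree, Finsupp.zero_apply] at h1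
    have h3 := (smul_eq_zero.mp h1.symm)
    rcases h3 with h3 | h3
    · exact ha (leadingCoeff_eq_zero.mp h3)
    · have := n.support.max'_mem hne
      rw [← hj0, Finsupp.mem_support_iff] at this
      exact this h3
  · intro i hi hne'
    have hi' : i < a.natDegree := by
      have := Finset.mem_range.mp hi
      omega
    have h0 : n ((a.natDegree : ℤ) + j0 - i) = 0 := by
      by_contra h4
      have h5 := n.support.le_max' _ (Finsupp.mem_support_iff.mpr h4)
      rw [← hj0] at h5
      omega
    rw [h0, smul_zero]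
  · intro h6
    exact absurd (Finset.mem_range.mpr (Nat.lt_succ_self _)) h6

/-- The lattice. -/
noncomputable def ww (W : Submodule k N) : Submodule k[X] (ℤ →₀ N) :=
  Submodule.span k[X] ((fun x => (Finsupp.single 0 x : ℤ →₀ N)) '' (W : Set N))

lemma single_mem (W : Submodule k N) (x : N) (hx : x ∈ W) (m : ℕ) :
    (Finsupp.single (m : ℤ) x : ℤ →₀ N) ∈ ww W := by
  have h1 : (Finsupp.single (m : ℤ) x : ℤ →₀ N) = (X ^ m : k[X]) • Finsupp.single 0 x := by
    rw [X_pow_smul, opk_single, zero_add]
    rfl
  rw [h1]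
  exact Submodule.smul_mem _ _ (Submodule.subset_span ⟨x, hx, rfl⟩)

lemma ww_fg (W : Submodule k N) (hW : W.FG) : (ww W).FG := by
  classical
  obtain ⟨S, hS⟩ := hW
  refine ⟨S.image (fun x => (Finsupp.single 0 x : ℤ →₀ N)), ?_⟩
  rw [Finset.coe_image]
  apply le_antisymm
  · apply Submodule.span_mono
    apply Set.image_mono
    rw [← hS]
    exact Submodule.subset_span
  · unfold ww
    rw [Submodule.span_le]
    rintro _ ⟨x, hx, rfl⟩
    rw [SetLike.mem_coe, ← hS] at hx
    have h2 : ∀ x ∈ Submodule.span k (S : Set N), (Finsupp.single 0 x : ℤ →₀ N) ∈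
        Submodule.span k[X] ((fun x => (Finsupp.single 0 x : ℤ →₀ N)) '' (S : Set N)) := by
      intro x hx
      induction hx using Submodule.span_induction with
      | mem x hx => exact Submodule.subset_span ⟨x, hx, rfl⟩
      | zero => rw [Finsupp.single_zero]; exact Submodule.zero_mem _
      | add x y _ _ hx hy => rw [Finsupp.single_add]; exact Submodule.add_mem _ hx hy
      | smul c x _ hx =>
        have h3 : (Finsupp.single 0 (c • x) : ℤ →₀ N) = (C c : k[X]) • Finsupp.single 0 x := by
          rw [smul_def, aeval_C, Module.algebraMap_end_apply, Finsupp.smul_single]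
        rw [h3]
        exact Submodule.smul_mem _ _ hx
    exact h2 x hx

lemma isLat {V E : Type} {G : CKS.Graph V E} (ρ : LPA k G →ₐ[k] Module.End k N)
    (W : Submodule k N) (h : IsLat (yl ρ) W) : IsLat (yl (rr ρ)) (ww W) := by
  refine ⟨ww_fg W h.fg, ?_, ?_⟩
  · intro e n hn
    have h1 : ww W ≤ (ww W).comap (yl (rr ρ) e) := by
      conv_lhs => unfold ww
      rw [Submodule.span_le]
      rintro _ ⟨x, hx, rfl⟩
      rw [SetLike.mem_coe, Submodule.mem_comap, yl_rr, opk_single]
      have := single_mem W (ρ (gh e) x) (h.st e x hx) 1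
      rw [Nat.cast_one] at this
      rw [zero_add]
      exact this
    exact h1 hn
  · intro n
    induction n using Finsupp.induction_linear with
    | zero => exact ⟨0, fun w _ => by rw [map_zero]; exact Submodule.zero_mem _⟩
    | add f g hf hg =>
      obtain ⟨a, ha⟩ := hf
      obtain ⟨b, hb⟩ := hg
      refine ⟨max a b, fun w hw => ?_⟩
      rw [map_add]
      exact Submodule.add_mem _ (ha w (le_trans (le_max_left _ _) hw))
        (hb w (le_trans (le_max_right _ _) hw))
    | single j x =>
      obtain ⟨m, hm⟩ := h.ab x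
      refine ⟨max m j.natAbs, fun w hw => ?_⟩
      rw [wd_rr]
      have h1 := hm w (le_trans (le_max_left _ _) hw)
      have h2 : j.natAbs ≤ w.length := le_trans (le_max_right _ _) hw
      obtain ⟨i, hi⟩ : ∃ i : ℕ, j + (w.length : ℤ) = i := ⟨(j + w.length).toNat, by omega⟩
      rw [hi]
      exact single_mem W _ h1 i

end FAM_

open FAM_ in
theorem p_FAM : T_FAM.{u} := by
  intro k _ V E _ _ G N _ _ ρ W hW
  refine ⟨ℤ →₀ N, inferInstance, inferInstance, md, tower, rr ρ, ep, ww W, torsion_free, ?_, ?_,
    ?_, ?_, ep_rr ρ, isLat ρ W hW⟩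
  · intro n
    refine ⟨opk (-1) (1 : Module.End k N) n, ?_⟩
    rw [X_smul, sh, ← Module.End.mul_apply, opk_mul, mul_one, add_neg_cancel, opk_one]
    rfl
  · intro n
    rw [X_smul, sh, ep_opk]
    rfl
  · intro n hn
    obtain ⟨n', hn'⟩ := ker_ex (k := k) n
    rw [hn, Finsupp.single_zero, sub_zero] at hn'
    exact ⟨n', hn'⟩
  · intro x
    exact ⟨Finsupp.single 0 x, ep_single 0 x⟩

end Pool.Agent.IDP
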