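import Pool.Agent.IDP.Targets

set_option autoImplicit false

universe u

namespace Pool.Agent.IDP

open CKS

namespace GHOST_

variable {k : Type u} [Field k] {V E : Type} (G : CKS.Graph V E)

variable (k) in
/-- the span of the ghost words of length at least `n` -/
noncomputable def Sp (n : ℕ) : Submodule k (LPA k G) :=
  Submodule.span k ((yw : List E → LPA k G) '' {q | n ≤ q.length})

variable {G}

theorem mem (n : ℕ) (q : List E) (h : n ≤ q.length) : (yw q : LPA k G) ∈ Sp k G n :=
  Submodule.subset_span ⟨q, h, rfl⟩

theorem mul_mem {b : LPA k G} {n m : ℕ} (hb : ∀ w : List E, m ≤ w.length → yw w * b ∈ Sp k G n)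
    {c : LPA k G} (hc : c ∈ Sp k G m) : c * b ∈ Sp k G n := by
  unfold Sp at hc
  induction hc using Submodule.span_induction with
  | mem x hx =>
    obtain ⟨v, hv, rfl⟩ := hx
    exact hb v hv
  | zero => rw [zero_mul]; exact Submodule.zero_mem _
  | add x y _ _ hx hy => rw [add_mul]; exact Submodule.add_mem _ hx hy
  | smul c x _ hx => rw [smul_mul_assoc]; exact Submodule.smul_mem _ _ hx

theorem vt_mem (a : V) (n : ℕ) (w : List E) (hw : n + 1 ≤ w.length) :
    yw w * vt a ∈ Sp k G n := by
  rcases w with _ | ⟨e, l⟩
  · simp at hw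
  · rw [yw_cons, mul_assoc]
    by_cases h : G.s e = a
    · subst h
      rw [gh_s, ← yw_cons]
      exact mem n _ (by omega)
    · rw [gh_vt h, mul_zero]
      exact Submodule.zero_mem _

end GHOST_

open GHOST_ in
theorem p_GHOST : T_GHOST.{u} := by
  intro k _ V E _ _ G a n
  let S : Subalgebra k (LPA k G) :=
    { carrier := {a | ∀ n, ∃ m, ∀ w : List E, m ≤ w.length → yw w * a ∈ Sp k G n}
      mul_mem' := by
        intro a b ha hb n
        obtain ⟨m, hm⟩ := hb n
        obtain ⟨m', hm'⟩ := ha m
        refine ⟨m', fun w hw => ?_⟩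
        rw [← mul_assoc]
        exact mul_mem hm (hm' w hw)
      add_mem' := by
        intro a b ha hb n
        obtain ⟨m, hm⟩ := ha n
        obtain ⟨m', hm'⟩ := hb n
        refine ⟨max m m', fun w hw => ?_⟩
        rw [mul_add]
        exact Submodule.add_mem _ (hm w (le_trans (le_max_left _ _) hw))
          (hm' w (le_trans (le_max_right _ _) hw))
      algebraMap_mem' := by
        intro c n
        refine ⟨n, fun w hw => ?_⟩
        rw [Algebra.algebraMap_eq_smul_one, mul_smul_comm, mul_one]
        exact Submodule.smul_mem _ _ (mem n w hw) }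
  refine mem_of_gen k G G.IsReg S (fun a n => ?_) (fun e n => ?_) (fun e n => ?_) a n
  · exact ⟨n + 1, fun w hw => vt_mem a n w hw⟩
  · refine ⟨n + 2, fun w hw => ?_⟩
    rcases w with _ | ⟨f, l⟩
    · simp at hw
    · rw [yw_cons, mul_assoc]
      by_cases h : f = e
      · subst h
        rw [gh_ed]
        refine vt_mem _ n l ?_
        rw [List.length_cons] at hw
        omega
      · rw [gh_ed_ne h, mul_zero]
        exact Submodule.zero_mem _
  · refine ⟨n, fun w hw => ?_⟩
    rw [← yw_cons]
    refine mem n _ ?_
    rw [List.length_cons]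
    omega

end Pool.Agent.IDP
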