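import Pool.Agent.IDP.Targets

/-!
# IDP, GL: stable sums
-/

set_option autoImplicit false

universe u

namespace Pool.Agent.IDP

open CKS TensorProduct Polynomial

namespace GL_

section

variable {ι : Type} [Fintype ι] {A : Type u} [CommRing A] {N Q : Type u} [AddCommGroup N]
  [Module A N] [AddCommGroup Q] [Module A Q] (Y : ι → Module.End A N) (X : ι → Module.End A Q)
  (V : Submodule A N) (g : V →ₗ[A] Q)

open Classical in
/-- the approximations -/
noncomputable def gg : ℕ → N → Q
  | 0 => fun n => if h : n ∈ V then g ⟨n, h⟩ else 0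
  | m + 1 => fun n => ∑ i, X i (gg m (Y i n))

/-- the vectors absorbed by all words of length at least `m` -/
def NN (m : ℕ) : Submodule A N where
  carrier := {n | ∀ w : List ι, m ≤ w.length → wd Y w n ∈ V}
  zero_mem' := fun w _ => by
    rw [map_zero]
    exact V.zero_mem
  add_mem' := fun {a b} ha hb w hw => by
    rw [map_add]
    exact V.add_mem (ha w hw) (hb w hw)
  smul_mem' := fun c {a} ha w hw => by
    rw [map_smul]
    exact V.smul_mem c (ha w hw)

variable {Y V}

lemma NN_zero {n : N} (h : n ∈ NN Y V 0) : n ∈ V := h [] (Nat.zero_le _)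

lemma NN_step {m : ℕ} {n : N} (h : n ∈ NN Y V (m + 1)) (i : ι) : Y i n ∈ NN Y V m :=
  fun w hw => h (i :: w) (by simpa using hw)

lemma NN_mono {m m' : ℕ} (hm : m ≤ m') {n : N} (h : n ∈ NN Y V m) : n ∈ NN Y V m' :=
  fun w hw => h w (hm.trans hw)

lemma mem_NN (hst : ∀ i, ∀ n ∈ V, Y i n ∈ V) {n : N} (hn : n ∈ V) : n ∈ NN Y V 0 := by
  intro w _
  have key : ∀ (w : List ι) (n : N), n ∈ V → wd Y w n ∈ V := by
    intro w
    induction w with
    | nil => intro n hn; exact hn
    | cons i w ih => intro n hn; exact ih (Y i n) (hst i n hn)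
  exact key w n hn

lemma gg_zero {n : N} (hn : n ∈ V) : gg Y X V g 0 n = g ⟨n, hn⟩ := by
  simp only [gg]
  rw [dif_pos hn]

lemma gg_succ (m : ℕ) (n : N) : gg Y X V g (m + 1) n = ∑ i, X i (gg Y X V g m (Y i n)) := rfl

variable (hst : ∀ i, ∀ n ∈ V, Y i n ∈ V) (hg : ∀ v, g v = ∑ i, X i (g (rs Y hst i v)))

include hg in
lemma gg_stab (m : ℕ) : ∀ n ∈ NN Y V m, gg Y X V g (m + 1) n = gg Y X V g m n := by
  induction m with
  | zero =>
    intro n hn
    have hn' := NN_zero hn
    rw [gg_succ, gg_zero X g hn', hg]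
    refine Finset.sum_congr rfl fun i _ => ?_
    rw [gg_zero X g (hst i n hn')]
    rfl
  | succ m ih =>
    intro n hn
    rw [gg_succ, gg_succ]
    exact Finset.sum_congr rfl fun i _ => by rw [ih _ (NN_step hn i)]

include hg in
lemma gg_stab' {m m' : ℕ} (hm : m ≤ m') {n : N} (hn : n ∈ NN Y V m) :
    gg Y X V g m' n = gg Y X V g m n := by
  induction m', hm using Nat.le_induction with
  | base => rfl
  | succ k hk ih => rw [gg_stab X g hst hg k n (NN_mono hk hn), ih]

lemma gg_add (m : ℕ) : ∀ a ∈ NN Y V m, ∀ b ∈ NN Y V m,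
    gg Y X V g m (a + b) = gg Y X V g m a + gg Y X V g m b := by
  induction m with
  | zero =>
    intro a ha b hb
    have ha' := NN_zero ha
    have hb' := NN_zero hb
    rw [gg_zero X g ha', gg_zero X g hb', gg_zero X g (V.add_mem ha' hb'), ← map_add]
    rfl
  | succ m ih =>
    intro a ha b hb
    rw [gg_succ, gg_succ, gg_succ, ← Finset.sum_add_distrib]
    refine Finset.sum_congr rfl fun i _ => ?_
    rw [map_add, ih _ (NN_step ha i) _ (NN_step hb i), map_add]

lemma gg_smul (m : ℕ) (c : A) : ∀ a ∈ NN Y V m,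
    gg Y X V g m (c • a) = c • gg Y X V g m a := by
  induction m with
  | zero =>
    intro a ha
    have ha' := NN_zero ha
    rw [gg_zero X g ha', gg_zero X g (V.smul_mem c ha'), ← map_smul]
    rfl
  | succ m ih =>
    intro a ha
    rw [gg_succ, gg_succ, Finset.smul_sum]
    refine Finset.sum_congr rfl fun i _ => ?_
    rw [map_smul, ih _ (NN_step ha i), map_smul]

end

end GL_

open GL_ in
theorem p_GL : T_GL.{u} := by
  intro ι _ A _ N Q _ _ _ _ Y X V hst hab g hg
  have hN : ∀ n, ∃ m, n ∈ NN Y V m := fun n => hab n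
  choose μ hμ using hN
  have key : ∀ (m : ℕ) (n : N), n ∈ NN Y V m → gg Y X V g (μ n) n = gg Y X V g m n := by
    intro m n hn
    rw [← gg_stab' X g hst hg (le_max_left (μ n) m) (hμ n),
      ← gg_stab' X g hst hg (le_max_right (μ n) m) hn]
  refine ⟨{ toFun := fun n => gg Y X V g (μ n) n, map_add' := ?_, map_smul' := ?_ }, ?_, ?_⟩
  · intro a b
    have ha : a ∈ NN Y V (max (μ a) (μ b)) := NN_mono (le_max_left _ _) (hμ a)
    have hb : b ∈ NN Y V (max (μ a) (μ b)) := NN_mono (le_max_right _ _) (hμ b)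
    rw [key _ a ha, key _ b hb, key _ (a + b) (Submodule.add_mem _ ha hb), gg_add X g _ a ha b hb]
  · intro c a
    rw [key _ (c • a) (Submodule.smul_mem _ c (hμ a)), gg_smul X g _ c a (hμ a)]
    rfl
  · intro v
    show gg Y X V g (μ v) v = g v
    rw [key 0 v (mem_NN hst v.2), gg_zero X g v.2]
  · intro n
    show gg Y X V g (μ n) n = ∑ i, X i (gg Y X V g (μ (Y i n)) (Y i n))
    have h1 : n ∈ NN Y V (μ n + 1) := NN_mono (Nat.le_succ _) (hμ n)
    rw [key _ n h1, gg_succ]
    refine Finset.sum_congr rfl fun i _ => ?_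
    rw [key _ (Y i n) (NN_step h1 i)]

end Pool.Agent.IDP
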