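import Pool.Agent.IDP.Targets

/-!
# Independence of the determinant of the lattice in the left module (IDP1)
-/

set_option autoImplicit false

universe u

namespace Pool.Agent.IDP

open CKS TensorProduct Polynomial

namespace IDP1_

section

variable {k : Type u} [Field k] {ι : Type} {N : Type u} [AddCommGroup N] [Module k N]

theorem coe_wd (Y : ι → Module.End k N) {W : Submodule k N} (hst : ∀ i, ∀ n ∈ W, Y i n ∈ W)
    (w : List ι) (v : W) : ((wd (rs Y hst) w v : W) : N) = wd Y w (v : N) := by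
  induction w generalizing v with
  | nil => rfl
  | cons i w ih =>
    simp only [wd, Module.End.mul_apply]
    rw [ih]
    rfl

/-- A uniform bound for the length of the words which bring a finitely generated submodule into
the lattice. -/
theorem unif (Y : ι → Module.End k N) {W1 W : Submodule k N} (h1 : IsLat Y W1) (hW : W.FG) :
    ∃ m : ℕ, ∀ w : List ι, m ≤ w.length → ∀ n ∈ W, wd Y w n ∈ W1 := by
  obtain ⟨s, hs⟩ := hW
  choose m hm using h1.ab
  refine ⟨s.sup m, fun w hw n hn => ?_⟩
  have h : W ≤ W1.comap (wd Y w) := by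
    rw [← hs, Submodule.span_le]
    intro x hx
    exact hm x w ((Finset.le_sup hx).trans hw)
  exact h hn

theorem step [Fintype ι] (hDET : T_DET.{u}) {U : Type u} [AddCommGroup U] [Module k U]
    [FiniteDimensional k U] (Y : ι → Module.End k N) (b : ι → Module.End k U)
    {W1 W : Submodule k N} (h1 : IsLat Y W1) (hle : W1 ≤ W) (hfg : W.FG)
    (hst : ∀ i, ∀ n ∈ W, Y i n ∈ W) : pdet (rs Y h1.st) b = pdet (rs Y hst) b := by
  have i1 : FiniteDimensional k W1 := Module.Finite.iff_fg.mpr h1.fg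
  have i2 : FiniteDimensional k W := Module.Finite.iff_fg.mpr hfg
  obtain ⟨m, hm⟩ := unif Y h1 hfg
  refine hDET (rs Y h1.st) (rs Y hst) b (Submodule.inclusion hle) (fun i v => rfl) m ?_ ?_
  · intro w _ v hv
    have hv0 : v = 0 := by
      apply Submodule.inclusion_injective hle
      rw [hv, map_zero]
    rw [hv0, map_zero]
  · intro w hw v'
    refine ⟨⟨wd Y w (v' : N), hm w hw _ v'.2⟩, ?_⟩
    apply Subtype.ext
    rw [coe_wd]
    rfl

end

end IDP1_

open IDP1_

theorem p_IDP1 (h1 : T_DET.{u}) : T_IDP1.{u} := by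
  intro k _ ι _ N U _ _ _ _ _ Y b W1 W2 hW1 hW2
  have hst : ∀ i, ∀ n ∈ W1 ⊔ W2, Y i n ∈ W1 ⊔ W2 := by
    intro i n hn
    obtain ⟨x, hx, y, hy, rfl⟩ := Submodule.mem_sup.mp hn
    rw [map_add]
    exact Submodule.add_mem_sup (hW1.st i x hx) (hW2.st i y hy)
  have hfg : (W1 ⊔ W2).FG := hW1.fg.sup hW2.fg
  rw [step h1 Y b hW1 le_sup_left hfg hst, step h1 Y b hW2 le_sup_right hfg hst]

end Pool.Agent.IDP
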