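import Pool.Agent.IDP.Targets

/-!
# IND: the ghost words of the paths are linearly independent
-/

set_option autoImplicit false

universe u

namespace Pool.Agent.IDP

open CKS

namespace IND_

variable {V E : Type} {G : CKS.Graph V E}

open Classical in
/-- prolongation of an infinite path with a counter -/
noncomputable def cc (e : E) (i : IPath G × ℤ) : Option (IPath G × ℤ) :=
  if h : G.r e = G.s (i.1.1 0) then some (pre e i.1 h, i.2 - 1) else none

open Classical in
/-- removal of the first edge -/
noncomputable def tt (e : E) (i : IPath G × ℤ) : Option (IPath G × ℤ) :=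
  if i.1.1 0 = e then some (tl i.1, i.2 + 1) else none

theorem pre_zero (e : E) (x : IPath G) (h : G.r e = G.s (x.1 0)) : (pre e x h).1 0 = e := rfl

theorem ct (e : E) (i j : IPath G × ℤ) : cc e i = some j ↔ tt e j = some i := by
  unfold cc tt
  constructor
  · intro h
    by_cases h1 : G.r e = G.s (i.1.1 0)
    · rw [dif_pos h1] at h
      have h2 := Option.some.inj h
      rw [← h2, if_pos (pre_zero e i.1 h1)]
      simp only [tl_pre, sub_add_cancel]
    · rw [dif_neg h1] at h
      cases h
  · intro h
    by_cases h1 : j.1.1 0 = e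
    · rw [if_pos h1] at h
      have h2 := Option.some.inj h
      rw [← h2]
      have h3 : G.r e = G.s ((tl j.1).1 0) := by
        rw [← h1]; exact j.1.2 0
      rw [dif_pos h3]
      simp only [pre_tl e j.1 h3 h1, add_sub_cancel_right]
    · rw [if_neg h1] at h
      cases h

theorem cst {e : E} {i j : IPath G × ℤ} (h : cc e i = some j) :
    G.s (i.1.1 0) = G.r e ∧ j.1.1 0 = e := by
  unfold cc at h
  by_cases h1 : G.r e = G.s (i.1.1 0)
  · rw [dif_pos h1] at h
    have h2 := Option.some.inj h
    rw [← h2]
    exact ⟨h1.symm, rfl⟩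
  · rw [dif_neg h1] at h
    cases h

/-- The branching system of the infinite paths with a counter. -/
noncomputable def B (G : CKS.Graph V E) : Br G G.IsReg (IPath G × ℤ) where
  st i := G.s (i.1.1 0)
  c := cc
  t := tt
  c_some e i h := by
    refine ⟨(pre e i.1 h.symm, i.2 - 1), ?_⟩
    unfold cc
    rw [dif_pos h.symm]
  ct := ct
  c_st e i j h := ⟨(cst h).1, by rw [(cst h).2]⟩
  c_inj e f i i' j h h' := (cst h).2.symm.trans (cst h').2
  reg j _ := by
    refine ⟨j.1.1 0, (tl j.1, j.2 + 1), (ct _ _ _).mpr ?_⟩
    unfold tt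
    rw [if_pos rfl]

/-- The infinite path starts with the word. -/
def Pfx : List E → IPath G → Prop
  | [], _ => True
  | e :: l, x => x.1 0 = e ∧ Pfx l (tl x)

theorem Pfx_unique : ∀ (q q' : List E) (x : IPath G), Pfx q x → Pfx q' x →
    q.length = q'.length → q = q' := by
  intro q
  induction q with
  | nil =>
    intro q' x _ _ h
    exact (List.length_eq_zero_iff.mp h.symm).symm
  | cons e l ih =>
    intro q' x h1 h2 h3
    rcases q' with _ | ⟨f, l'⟩
    · simp at h3
    · have h4 := ih l' (tl x) h1.2 h2.2 (by simpa using h3)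
      rw [h4, ← h1.1, ← h2.1]

/-- An infinite path starting at a given vertex. -/
theorem exists_path (hG : NoSink G) (v : V) : ∃ x : IPath G, G.s (x.1 0) = v := by
  choose nx hnx using hG
  let y : ℕ → E := fun n => Nat.rec (nx v) (fun _ e => nx (G.r e)) n
  refine ⟨⟨y, fun i => ?_⟩, ?_⟩
  · exact (hnx (G.r (y i))).symm
  · exact hnx v

/-- An infinite path starting with a given path. -/
theorem exists_ext [Nonempty V] (hG : NoSink G) (q : List E)
    (hq : q.IsChain (fun e f => G.r e = G.s f)) : ∃ x : IPath G, Pfx q x := by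
  induction q with
  | nil =>
    obtain ⟨x, _⟩ := exists_path hG (Classical.arbitrary V)
    exact ⟨x, trivial⟩
  | cons e l ih =>
    rcases l with _ | ⟨f, l⟩
    · obtain ⟨x, hx⟩ := exists_path hG (G.r e)
      exact ⟨pre e x hx.symm, rfl, trivial⟩
    · rw [List.isChain_cons_cons] at hq
      obtain ⟨x, hx⟩ := ih hq.2
      have h : G.r e = G.s (x.1 0) := by rw [hx.1]; exact hq.1
      exact ⟨pre e x h, rfl, hx⟩

open Classical in
/-- The action of a ghost word. -/
theorem rep_yw (k : Type u) [Field k] (q : List E) (x : IPath G) (n : ℤ) :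
    (B G).rep k (yw q) (Finsupp.single (x, n) 1) =
      if Pfx q x then Finsupp.single (tl^[q.length] x, n + q.length) 1 else 0 := by
  induction q generalizing x n with
  | nil =>
    have h3 : Pfx [] x := trivial
    rw [yw_nil, map_one, Module.End.one_apply, if_pos h3]
    simp
  | cons e l ih =>
    rw [yw_cons, map_mul, Module.End.mul_apply, Br.rep_gh]
    by_cases h : x.1 0 = e
    · have h1 : (B G).t e (x, n) = some (tl x, n + 1) := by
        change tt e (x, n) = _
        unfold tt
        rw [if_pos h]
      rw [pf_single_some h1, ih]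
      by_cases h2 : Pfx l (tl x)
      · have h3 : Pfx (e :: l) x := ⟨h, h2⟩
        rw [if_pos h2, if_pos h3, List.length_cons, Function.iterate_succ_apply]
        congr 2
        push_cast
        ring
      · have h3 : ¬ Pfx (e :: l) x := fun h' => h2 h'.2
        rw [if_neg h2, if_neg h3]
    · have h1 : (B G).t e (x, n) = none := by
        change tt e (x, n) = _
        unfold tt
        rw [if_neg h]
      have h3 : ¬ Pfx (e :: l) x := fun h' => h h'.1
      rw [pf_single_none h1, map_zero, if_neg h3]

end IND_

open IND_ in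
/-- IND. The ghost words of the paths are linearly independent. -/
theorem p_IND : T_IND.{u} := by
  classical
  intro k _ V E _ G hG
  rw [linearIndependent_iff']
  intro s g hg q hq
  obtain ⟨x, hx⟩ := exists_ext hG q.1 q.2
  have h1 : (B G).rep k (∑ i ∈ s, g i • (yw i.1 : LPA k G)) (Finsupp.single (x, 0) 1) = 0 := by
    rw [hg, map_zero, LinearMap.zero_apply]
  rw [map_sum, LinearMap.sum_apply] at h1
  have h2 := DFunLike.congr_fun h1 (tl^[q.1.length] x, (q.1.length : ℤ))
  rw [Finsupp.finsetSum_apply, Finset.sum_eq_single q] at h2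
  · rw [map_smul, LinearMap.smul_apply, rep_yw, if_pos hx, zero_add] at h2
    simpa using h2
  · intro p _ hpq
    rw [map_smul, LinearMap.smul_apply, rep_yw]
    by_cases h3 : Pfx p.1 x
    · rw [if_pos h3, zero_add, Finsupp.smul_apply, Finsupp.single_apply, if_neg, smul_zero]
      intro h4
      have h5 : (p.1.length : ℤ) = q.1.length := (Prod.mk.inj h4).2
      have h6 : p.1.length = q.1.length := by exact_mod_cast h5
      exact hpq (Subtype.ext (Pfx_unique p.1 q.1 x h3 hx h6))
    · rw [if_neg h3, smul_zero, Finsupp.zero_apply]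
  · intro h
    exact absurd hq h

end Pool.Agent.IDP
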