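import Pool.Agent.IDP.Targets

/-!
# IDP: proof of the target INF (infinite-dimensionality)
-/

set_option autoImplicit false

universe u

namespace Pool.Agent.IDP

open CKS

namespace INF_

/-! ### linear algebra -/

section LinAlg

variable {k : Type u} [Field k] {M : Type u} [AddCommGroup M] [Module k M]

lemma stab (S : ℕ → Submodule k M) (hS : Antitone S) (T : ℕ → Submodule k M)
    (hT : ∀ x, (∀ l, x ∈ T l) → x = 0) (hST : ∀ l, ∃ j, S j ≤ T l) (m n : ℕ)
    (hcon : ¬ ∃ b : Fin n → M, LinearIndependent k b ∧ ∀ i, b i ∈ S m) : ∃ j, S j = ⊥ := by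
  have hrank : ¬ (n : Cardinal) ≤ Module.rank k (S m) := by
    intro hn
    obtain ⟨b, hb⟩ := exists_linearIndependent_of_le_rank hn
    refine hcon ⟨fun i => (b i : M), ?_, fun i => (b i).2⟩
    exact hb.map' (S m).subtype (Submodule.ker_subtype (S m))
  have hfin : Module.Finite k (S m) := by
    rw [← Module.rank_lt_aleph0_iff]
    exact (not_le.1 hrank).trans (Cardinal.natCast_lt_aleph0)
  have hfin' : ∀ j, Module.Finite k (S (m + j)) := fun j =>
    Submodule.finiteDimensional_of_le (hS (Nat.le_add_right m j))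
  set f : ℕ → ℕ := fun j => Module.finrank k (S (m + j)) with hf
  set j := Function.argmin f with hj
  have hmin : ∀ i, f j ≤ f i := fun i => Function.argmin_le (f := f) i
  have hconst : ∀ i, j ≤ i → S (m + i) = S (m + j) := by
    intro i hi
    have := hfin' j
    exact Submodule.eq_of_le_of_finrank_le (hS (by omega)) (hmin i)
  refine ⟨m + j, ?_⟩
  rw [eq_bot_iff]
  intro x hx
  rw [Submodule.mem_bot]
  refine hT x fun l => ?_
  obtain ⟨i, hi⟩ := hST l
  have h1 : x ∈ S (m + max i j) := by
    rw [hconst (max i j) (le_max_right _ _)]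
    exact hx
  exact hi (hS (show i ≤ m + max i j by omega) h1)

lemma inter {ι : Type} (v : ι → M) (hv : LinearIndependent k v) (len : ι → ℕ) (x : M)
    (hx : ∀ n, x ∈ Submodule.span k (v '' {q | n ≤ len q})) : x = 0 := by
  have h1 : ∀ n, ∃ l ∈ Finsupp.supported k k {q : ι | n ≤ len q},
      Finsupp.linearCombination k v l = x := by
    intro n
    exact (Finsupp.mem_span_image_iff_linearCombination k).1 (hx n)
  obtain ⟨l, -, hlx⟩ := h1 0
  have h3 : l = 0 := by
    ext q
    obtain ⟨l', hl', hlx'⟩ := h1 (len q + 1)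
    have h4 : l' = l := hv (hlx'.trans hlx.symm)
    by_contra h5
    have h6 : q ∈ l.support := Finsupp.mem_support_iff.2 h5
    rw [← h4] at h6
    have h7 : len q + 1 ≤ len q := hl' h6
    omega
  rw [← hlx, h3, map_zero]

end LinAlg

/-! ### ghost words -/

variable {k : Type u} [Field k] {V E : Type} {G : CKS.Graph V E}

/-- A ghost word which is no path is zero. -/
lemma yw_zero (q : List E) (h : ¬ q.IsChain (fun e f => G.r e = G.s f)) :
    (yw q : LPA k G) = 0 := by
  induction q with
  | nil => exact absurd List.IsChain.nil h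
  | cons e l ih =>
    cases l with
    | nil => exact absurd (List.IsChain.singleton e) h
    | cons f l =>
      by_cases h1 : G.r e = G.s f
      · have h2 : ¬ (f :: l).IsChain (fun e f => G.r e = G.s f) := by
          intro h3
          exact h (List.IsChain.cons_cons h1 h3)
        rw [yw_cons, ih h2, zero_mul]
      · rw [yw_cons, yw_cons, mul_assoc, gh_gh (fun h2 => h1 h2.symm), mul_zero]

lemma one_eq [Fintype V] [Fintype E] (hns : NoSink G) :
    (∑ e : E, ed e * gh e : LPA k G) = 1 := by
  classical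
  have h1 : ∀ v : V, (∑ e ∈ Finset.univ.filter (fun e => G.s e = v), ed e * gh e : LPA k G) =
      vt v := by
    intro v
    refine ck_rel (k := k) (G := G) (Reg := G.IsReg) (hns v) _ fun e => ?_
    simp
  have h2 : (∑ v : V, ∑ e ∈ Finset.univ.filter (fun e => G.s e = v), ed e * gh e : LPA k G) =
      ∑ e : E, ed e * gh e := Finset.sum_fiberwise Finset.univ G.s _
  rw [← h2, Finset.sum_congr rfl (fun v _ => h1 v)]
  exact one_rel (k := k) (G := G) (Reg := G.IsReg)

lemma down [Fintype V] [Fintype E] (hns : NoSink G) (p : LPA k G) (i : ℕ)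
    (h : ∀ γ : List E, i + 1 ≤ γ.length → (yw γ * p : LPA k G) = 0) :
    ∀ γ : List E, i ≤ γ.length → (yw γ * p : LPA k G) = 0 := by
  intro γ hγ
  have h1 : (yw γ * p : LPA k G) = (∑ e : E, ed e * gh e) * (yw γ * p) := by
    rw [one_eq hns, one_mul]
  rw [h1, Finset.sum_mul]
  refine Finset.sum_eq_zero fun e _ => ?_
  have h2 : (gh e * yw γ : LPA k G) = yw (γ ++ [e]) := by
    rw [yw_append, yw_cons, yw_nil, one_mul]
  have h3 : i + 1 ≤ (γ ++ [e]).length := by
    rw [List.length_append, List.length_singleton]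
    omega
  rw [mul_assoc, ← mul_assoc (gh e), h2, h (γ ++ [e]) h3, mul_zero]

lemma down_all [Fintype V] [Fintype E] (hns : NoSink G) (p : LPA k G) (i : ℕ)
    (h : ∀ γ : List E, i ≤ γ.length → (yw γ * p : LPA k G) = 0) : p = 0 := by
  induction i with
  | zero =>
    have h1 := h [] le_rfl
    rwa [yw_nil, one_mul] at h1
  | succ i ih => exact ih (down hns p i h)

/-- The span of the long ghost words. -/
def Tl (k : Type u) [Field k] {V E : Type} (G : CKS.Graph V E) (n : ℕ) :
    Submodule k (LPA k G) :=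
  Submodule.span k ((yw : List E → LPA k G) '' {q | n ≤ q.length})

/-- The span of the `yw γ * p` for long words. -/
def Sp (k : Type u) [Field k] {V E : Type} (G : CKS.Graph V E) (p : LPA k G) (m : ℕ) :
    Submodule k (LPA k G) :=
  Submodule.span k {x | ∃ γ : List E, m ≤ γ.length ∧ x = yw γ * p}

lemma Sp_anti (p : LPA k G) : Antitone (Sp k G p) := by
  intro m m' h
  refine Submodule.span_mono ?_
  rintro x ⟨γ, hγ, rfl⟩
  exact ⟨γ, h.trans hγ, rfl⟩

lemma Tl_zero (hlin : LinearIndependent k
      (fun q : {q : List E // q.IsChain (fun e f => G.r e = G.s f)} => (yw q.1 : LPA k G)))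
    (x : LPA k G) (hx : ∀ n, x ∈ Tl k G n) : x = 0 := by
  refine inter _ hlin (fun q => q.1.length) x fun n => ?_
  have h2 : Tl k G n ≤ Submodule.span k
      ((fun q : {q : List E // q.IsChain (fun e f => G.r e = G.s f)} => (yw q.1 : LPA k G)) ''
        {q | n ≤ q.1.length}) := by
    unfold Tl
    rw [Submodule.span_le]
    rintro _ ⟨q, hq, rfl⟩
    by_cases hc : q.IsChain (fun e f => G.r e = G.s f)
    · exact Submodule.subset_span ⟨⟨q, hc⟩, hq, rfl⟩
    · rw [yw_zero q hc]
      exact Submodule.zero_mem _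
  exact h2 (hx n)

end INF_

open INF_ in
theorem p_INF (h1 : T_GHOST.{u}) (h2 : T_IND.{u}) : T_INF.{u} := by
  intro k _ V E _ _ G hns p hp m n
  by_contra hcon
  have hV : Nonempty V := by
    by_contra hV
    rw [not_nonempty_iff] at hV
    apply hp
    have h3 : (1 : LPA k G) = 0 := by
      rw [← one_rel, Finset.univ_eq_empty, Finset.sum_empty]
    rw [← one_mul p, h3, zero_mul]
  have hlin := h2 k G hns
  obtain ⟨j, hj⟩ := stab (Sp k G p) (Sp_anti p) (Tl k G) (fun x hx => Tl_zero hlin x hx) (by
    intro l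
    obtain ⟨m', hm'⟩ := h1 k G p l
    refine ⟨m', ?_⟩
    unfold Sp
    rw [Submodule.span_le]
    rintro x ⟨γ, hγ, rfl⟩
    exact hm' γ hγ) m n hcon
  refine hp (down_all hns p j fun γ hγ => ?_)
  have h3 : (yw γ * p : LPA k G) ∈ Sp k G p j := Submodule.subset_span ⟨γ, hγ, rfl⟩
  rw [hj] at h3
  exact (Submodule.mem_bot k).1 h3

end Pool.Agent.IDP
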