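import Pool.Agent.IDP.Targets

/-!
# IDP: KP, free growth of the filtration by ghost words
-/

set_option autoImplicit false

universe u

namespace Pool.Agent.IDP

open CKS

namespace KP_

section Words

variable {V E : Type} {G : CKS.Graph V E}

/-- the last edge of `u` ends in `v` -/
def La (G : CKS.Graph V E) (v : V) (u : List E) : Prop := ∃ u' e, u = u' ++ [e] ∧ G.r e = v

theorem gd_app {u q : List E} (hu : u ≠ []) (h : Gd G (u ++ q)) : Gd G u :=
  ⟨hu, (List.isChain_append.1 h.2).1⟩

theorem gd_iff {u q : List E} {f : E} (hu : u ≠ []) :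
    Gd G (u ++ f :: q) ↔ Gd G u ∧ Gd G (f :: q) ∧ La G (G.s f) u := by
  obtain ⟨u', e, rfl⟩ : ∃ u' e, u = u' ++ [e] := by
    rcases List.eq_nil_or_concat u with h | ⟨L, b, h⟩
    · exact absurd h hu
    · exact ⟨L, b, by simpa using h⟩
  have hLa : La G (G.s f) (u' ++ [e]) ↔ G.r e = G.s f := by
    constructor
    · rintro ⟨u'', e', h1, h2⟩
      have := (List.append_inj' h1 rfl).2
      simp only [List.cons.injEq, and_true] at this
      rw [this]
      exact h2
    · intro h
      exact ⟨u', e, rfl, h⟩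
  unfold Gd
  rw [List.isChain_append, hLa]
  simp

theorem gd_ext (hG : NoSink G) : ∀ (m : ℕ) (x : List E), Gd G x →
    ∃ w : List E, w.length = m ∧ Gd G (x ++ w) := by
  intro m
  induction m with
  | zero =>
    intro x hx
    exact ⟨[], rfl, by simpa using hx⟩
  | succ m ih =>
    intro x hx
    obtain ⟨w, hw, hxw⟩ := ih x hx
    obtain ⟨u', e, h1⟩ : ∃ u' e, x ++ w = u' ++ [e] := by
      rcases List.eq_nil_or_concat (x ++ w) with h | ⟨L, b, h⟩
      · exact absurd h hxw.1
      · exact ⟨L, b, by simpa using h⟩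
    obtain ⟨f, hf⟩ := hG (G.r e)
    refine ⟨w ++ [f], by simp [hw], ?_⟩
    rw [← List.append_assoc]
    exact (gd_iff hxw.1).2 ⟨hxw, ⟨by simp, by simp⟩, ⟨u', e, h1, hf.symm⟩⟩

end Words

section Alg

variable {k : Type u} [Field k] {V E : Type} {G : CKS.Graph V E}

theorem yw_bad : ∀ w : List E, w ≠ [] → ¬ Gd G w → (yw w : LPA k G) = 0 := by
  intro w
  induction w with
  | nil => intro h; exact absurd rfl h
  | cons e w ih =>
    intro _ h
    cases w with
    | nil => exact absurd ⟨by simp, by simp⟩ h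
    | cons f w =>
      rw [yw_cons]
      by_cases h1 : G.r e = G.s f
      · rw [ih (by simp) (fun h2 => h ⟨by simp, ?_⟩), zero_mul]
        rw [List.isChain_cons_cons]
        exact ⟨h1, h2.2⟩
      · rw [yw_cons, mul_assoc, gh_gh (fun h2 => h1 h2.symm), mul_zero]

theorem vt_yw {v : V} {u : List E} (h : La G v u) : (vt v * yw u : LPA k G) = yw u := by
  obtain ⟨u', e, rfl, rfl⟩ := h
  rw [yw_append, yw_cons, yw_nil, one_mul, ← mul_assoc, r_gh]

theorem vt_yw0 {v : V} {u : List E} (hu : u ≠ []) (h : ¬ La G v u) :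
    (vt v * yw u : LPA k G) = 0 := by
  obtain ⟨u', e, rfl⟩ : ∃ u' e, u = u' ++ [e] := by
    rcases List.eq_nil_or_concat u with h | ⟨L, b, h⟩
    · exact absurd h hu
    · exact ⟨L, b, by simpa using h⟩
  have h1 : v ≠ G.r e := fun h1 => h ⟨u', e, rfl, h1.symm⟩
  rw [yw_append, yw_cons, yw_nil, one_mul, ← mul_assoc, vt_gh h1, zero_mul]

end Alg

section Lin

variable {k : Type u} [Field k] {V E : Type} {G : CKS.Graph V E}
variable {A : Type u} [CommRing A] [Algebra k A] {N : Type u} [AddCommGroup N] [Module k N]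
  [Module A N] [IsScalarTower k A N] (ρ : LPA k G →ₐ[k] Module.End A N) (W : Submodule A N)

theorem ev_single (w : List E) (n : W) : ev ρ W (Finsupp.single w n) = ρ (yw w) n := by
  simp [ev]

theorem Sh_single (q w : List E) (n : W) [Decidable (Gd G (w ++ q))] :
    Sh G W q (Finsupp.single w n) = if Gd G (w ++ q) then Finsupp.single (w ++ q) n else 0 := by
  classical
  simp only [Sh, Finsupp.lsum_single]
  split_ifs <;> simp

open Classical in
theorem Sh_apply (q u : List E) (c : List E →₀ W) :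
    Sh G W q c (u ++ q) = if Gd G (u ++ q) then c u else 0 := by
  induction c using Finsupp.induction_linear with
  | zero => simp
  | add c d hc hd =>
    rw [map_add, Finsupp.add_apply, hc, hd]
    split_ifs <;> simp
  | single w n =>
    rw [Sh_single]
    by_cases h : w = u
    · subst h
      split_ifs with h1 <;> simp
    · have h2 : ¬ (w ++ q = u ++ q) := fun h3 => h (List.append_left_injective q h3)
      rw [Finsupp.single_eq_of_ne (by simpa [eq_comm] using h)]
      split_ifs with h1 h3 h4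
      · rw [Finsupp.single_eq_of_ne (by simpa [eq_comm] using h2)]
      · rw [Finsupp.single_eq_of_ne (by simpa [eq_comm] using h2)]
      · simp
      · simp

theorem Sh_apply_not (q x : List E) (c : List E →₀ W) (h : ∀ u, x ≠ u ++ q) :
    Sh G W q c x = 0 := by
  classical
  induction c using Finsupp.induction_linear with
  | zero => simp
  | add c d hc hd =>
    rw [map_add, Finsupp.add_apply, hc, hd, add_zero]
  | single w n =>
    rw [Sh_single]
    split_ifs
    · rw [Finsupp.single_eq_of_ne (h w)]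
    · simp

theorem mem_RR {i : ℕ} {c : List E →₀ W} :
    c ∈ RR G W i ↔ ∀ w, c w ≠ 0 → Gd G w ∧ w.length ≤ i := by
  unfold RR
  rw [Finsupp.mem_supported]
  constructor
  · intro h w hw
    exact h (by simpa using hw)
  · intro h w hw
    exact h w (by simpa using hw)

theorem RR_mono {i j : ℕ} (h : i ≤ j) : RR G W i ≤ RR G W j := by
  intro c hc
  rw [mem_RR] at hc ⊢
  intro w hw
  exact ⟨(hc w hw).1, (hc w hw).2.trans h⟩

theorem Sh_RR {i : ℕ} (q : List E) {c : List E →₀ W} (hc : c ∈ RR G W i) :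
    Sh G W q c ∈ RR G W (i + q.length) := by
  classical
  rw [mem_RR] at hc ⊢
  intro x hx
  by_cases h : ∃ u, x = u ++ q
  · obtain ⟨u, rfl⟩ := h
    rw [Sh_apply] at hx
    split_ifs at hx with h1
    · refine ⟨h1, ?_⟩
      rw [List.length_append]
      exact Nat.add_le_add_right (hc u hx).2 _
    · exact absurd rfl hx
  · push Not at h
    exact absurd (Sh_apply_not W q x c h) hx

theorem Sh_ev {i : ℕ} (q : List E) {c : List E →₀ W} (hc : c ∈ RR G W i) :
    ev ρ W (Sh G W q c) = ρ (yw q) (ev ρ W c) := by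
  classical
  have hd : c = c.sum fun w n => Finsupp.single w n := (Finsupp.sum_single c).symm
  rw [mem_RR] at hc
  have h1 : ev ρ W (Sh G W q c) = c.sum fun w n => ev ρ W (Sh G W q (Finsupp.single w n)) := by
    conv_lhs => rw [hd]
    rw [map_finsuppSum, map_finsuppSum]
  have h2 : ρ (yw q) (ev ρ W c) = c.sum fun w n => ρ (yw q) (ev ρ W (Finsupp.single w n)) := by
    conv_lhs => rw [hd]
    rw [map_finsuppSum, map_finsuppSum]
  rw [h1, h2]
  refine Finset.sum_congr rfl fun w hw => ?_
  have hw' := (hc w (by simpa using hw)).1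
  dsimp only
  rw [Sh_single, ev_single, ← Module.End.mul_apply, ← map_mul, ← yw_append]
  split_ifs with h3
  · rw [ev_single]
  · rw [map_zero, yw_bad _ (by simp [hw'.1]) h3, map_zero, LinearMap.zero_apply]

theorem Sh_cons (f : E) (q : List E) (c : List E →₀ W) :
    Sh G W (f :: q) c = Sh G W q (Sh G W [f] c) := by
  classical
  induction c using Finsupp.induction_linear with
  | zero => simp
  | add c d hc hd => rw [map_add, map_add, map_add, hc, hd]
  | single w n =>
    rw [Sh_single, Sh_single]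
    by_cases h : Gd G (w ++ f :: q)
    · have h' : Gd G ((w ++ [f]) ++ q) := by simpa using h
      rw [if_pos h, if_pos (gd_app (by simp) h'), Sh_single, if_pos h']
      simp
    · rw [if_neg h]
      by_cases h1 : Gd G (w ++ [f])
      · rw [if_pos h1, Sh_single, if_neg (by simpa using h)]
      · rw [if_neg h1, map_zero]

open Classical in
/-- the part of `c` supported on the words with last edge ending in `v` -/
noncomputable def cut (G : CKS.Graph V E) (W : Submodule A N) (v : V) (c : List E →₀ W) :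
    List E →₀ W := c.filter (La G v)

theorem cut_apply (v : V) (c : List E →₀ W) (u : List E) [Decidable (La G v u)] :
    cut G W v c u = if La G v u then c u else 0 := by
  classical
  unfold cut
  rw [Finsupp.filter_apply]
  congr

theorem cut_RR {i : ℕ} (v : V) {c : List E →₀ W} (hc : c ∈ RR G W i) :
    cut G W v c ∈ RR G W i := by
  classical
  rw [mem_RR] at hc ⊢
  intro w hw
  rw [cut_apply] at hw
  split_ifs at hw with h
  · exact hc w hw
  · exact absurd rfl hw

theorem cut_ev {i : ℕ} (v : V) {c : List E →₀ W} (hc : c ∈ RR G W i) :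
    ev ρ W (cut G W v c) = ρ (vt v) (ev ρ W c) := by
  classical
  rw [mem_RR] at hc
  have e1 : ∀ d : List E →₀ W, ev ρ W d = d.sum fun w n => (ρ (yw w) (n : N)) := by
    intro d
    simp only [ev, Finsupp.coe_lsum]
    rfl
  rw [e1, e1, map_finsuppSum]
  have h3 : (cut G W v c).sum (fun w n => (ρ (yw w) (n : N))) =
      c.sum fun w n => if La G v w then (ρ (yw w) (n : N)) else 0 := by
    unfold cut
    rw [Finsupp.sum, Finsupp.support_filter, Finsupp.sum, Finset.sum_filter]
    refine Finset.sum_congr rfl fun w _ => ?_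
    by_cases h : La G v w
    · rw [if_pos h, if_pos h, Finsupp.filter_apply_pos _ _ h]
    · rw [if_neg h, if_neg h]
  rw [h3]
  refine Finset.sum_congr rfl fun w hw => ?_
  have hw' := (hc w (by simpa using hw)).1
  dsimp only
  rw [← Module.End.mul_apply, ← map_mul]
  split_ifs with h
  · rw [vt_yw h]
  · rw [vt_yw0 hw'.1 h, map_zero, LinearMap.zero_apply]

theorem Sh_cut {i : ℕ} (f : E) (q : List E) {c : List E →₀ W} (hc : c ∈ RR G W i) :
    Sh G W (f :: q) (cut G W (G.s f) c) = Sh G W (f :: q) c := by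
  classical
  rw [mem_RR] at hc
  refine Finsupp.ext fun x => ?_
  by_cases h : ∃ u, x = u ++ f :: q
  · obtain ⟨u, rfl⟩ := h
    rw [Sh_apply, Sh_apply, cut_apply]
    by_cases h1 : c u = 0
    · rw [h1]; simp
    · have hu := (hc u h1).1
      by_cases h2 : Gd G (u ++ f :: q)
      · rw [if_pos h2, if_pos h2, if_pos ((gd_iff hu.1).1 h2).2.2]
      · rw [if_neg h2, if_neg h2]
  · push Not at h
    rw [Sh_apply_not W _ x _ h, Sh_apply_not W _ x _ h]

/-- `κ ↦ Σ_q Sh q (κ q)` -/
noncomputable def Ph (G : CKS.Graph V E) (W : Submodule A N) :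
    (List E →₀ (List E →₀ W)) →ₗ[A] (List E →₀ W) :=
  Finsupp.lsum ℕ (fun q => Sh G W q)

theorem Ph_eq (κ : List E →₀ (List E →₀ W)) :
    Ph G W κ = κ.sum fun q c => Sh G W q c := by
  simp only [Ph, Finsupp.coe_lsum]

/-- the families of relations -/
noncomputable def KF (D : ℕ) (P : List E → Prop) : Submodule A (List E →₀ (List E →₀ W)) where
  carrier := {κ | ∀ q, κ q ∈ KK ρ W D ∧ (κ q ≠ 0 → P q)}
  zero_mem' := fun q => ⟨by simp, fun h => absurd (by simp) h⟩
  add_mem' := by
    intro κ κ' h h' q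
    refine ⟨by simpa using Submodule.add_mem _ (h q).1 (h' q).1, fun h0 => ?_⟩
    by_cases h1 : κ q = 0
    · refine (h' q).2 fun h2 => h0 ?_
      rw [Finsupp.add_apply, h1, h2, add_zero]
    · exact (h q).2 h1
  smul_mem' := by
    intro a κ h q
    refine ⟨by simpa using Submodule.smul_mem _ a (h q).1, fun h0 => (h q).2 fun h1 => h0 ?_⟩
    rw [Finsupp.smul_apply, h1, smul_zero]

theorem SJ_rep {D J : ℕ} {s : List E →₀ W} (hs : s ∈ SJ ρ W D J) :
    ∃ κ ∈ KF ρ W D (fun q => q.length ≤ J), s = Ph G W κ := by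
  have h : SJ ρ W D J ≤ (KF ρ W D (fun q => q.length ≤ J)).map (Ph G W) := by
    unfold SJ
    refine iSup_le fun q => iSup_le fun hq => ?_
    rintro _ ⟨c, hc, rfl⟩
    refine ⟨Finsupp.single q c, fun q' => ?_, ?_⟩
    · by_cases h : q' = q
      · subst h
        rw [Finsupp.single_eq_same]
        exact ⟨hc, fun _ => hq⟩
      · rw [Finsupp.single_eq_of_ne h]
        exact ⟨Submodule.zero_mem _, fun h => absurd rfl h⟩
    · simp [Ph]
  obtain ⟨κ, hκ, h1⟩ := h hs
  exact ⟨κ, hκ, h1.symm⟩

theorem SS_rep {D : ℕ} {s : List E →₀ W} (hs : s ∈ SS ρ W D) :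
    ∃ κ ∈ KF ρ W D (fun _ => True), s = Ph G W κ := by
  have h : SS ρ W D ≤ (KF ρ W D (fun _ => True)).map (Ph G W) := by
    unfold SS
    refine iSup_le fun q => ?_
    rintro _ ⟨c, hc, rfl⟩
    refine ⟨Finsupp.single q c, fun q' => ?_, ?_⟩
    · by_cases h : q' = q
      · subst h
        rw [Finsupp.single_eq_same]
        exact ⟨hc, fun _ => trivial⟩
      · rw [Finsupp.single_eq_of_ne h]
        exact ⟨Submodule.zero_mem _, fun h => absurd rfl h⟩
    · simp [Ph]
  obtain ⟨κ, hκ, h1⟩ := h hs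
  exact ⟨κ, hκ, h1.symm⟩

theorem SJ_mem {D J : ℕ} {q : List E} (hq : q.length ≤ J) {c : List E →₀ W}
    (hc : c ∈ KK ρ W D) : Sh G W q c ∈ SJ ρ W D J := by
  have h : (KK ρ W D).map (Sh G W q) ≤ SJ ρ W D J := by
    unfold SJ
    exact le_iSup_of_le q (le_iSup_of_le hq le_rfl)
  exact h ⟨c, hc, rfl⟩

theorem SJ_mono {D J J' : ℕ} (h : J ≤ J') : SJ ρ W D J ≤ SJ ρ W D J' := by
  unfold SJ
  refine iSup_le fun q => iSup_le fun hq => ?_
  exact le_iSup_of_le q (le_iSup_of_le (hq.trans h) le_rfl)

theorem SS_SJ {D : ℕ} {s : List E →₀ W} (hs : s ∈ SS ρ W D) : ∃ J, s ∈ SJ ρ W D J := by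
  obtain ⟨κ, hκ, rfl⟩ := SS_rep ρ W hs
  refine ⟨κ.support.sup List.length, ?_⟩
  rw [Ph_eq]
  refine Submodule.sum_mem _ fun q hq => ?_
  exact SJ_mem ρ W (Finset.le_sup (f := List.length) hq) (hκ q).1

/-- the top coefficients -/
theorem Ph_top {D J : ℕ} {κ : List E →₀ (List E →₀ W)}
    (hκ : κ ∈ KF ρ W D (fun q => q.length ≤ J)) {u q : List E} (hu : u.length = D)
    (hq : q.length = J) (hg : Gd G (u ++ q)) : Ph G W κ (u ++ q) = κ q u := by
  classical
  rw [Ph_eq, Finsupp.sum, Finsupp.finsetSum_apply]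
  have h1 : ∀ q' ∈ κ.support, q' ≠ q → Sh G W q' (κ q') (u ++ q) = 0 := by
    intro q' hq' hne
    by_cases h : ∃ u', u ++ q = u' ++ q'
    · obtain ⟨u', h'⟩ := h
      rw [h', Sh_apply]
      split_ifs with h2
      · by_contra h3
        have h4 := ((mem_RR W).1 ((hκ q').1).1 u' h3).2
        have h5 : q'.length ≤ J := (hκ q').2 (by simpa using hq')
        have h6 := congrArg List.length h'
        simp only [List.length_append] at h6
        have h7 : q.length = q'.length := by omega
        exact hne (List.append_inj' h' h7).2.symm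
      · rfl
    · push Not at h
      exact Sh_apply_not W q' _ _ h
  have h2 : ∑ q' ∈ κ.support, Sh G W q' (κ q') (u ++ q) = Sh G W q (κ q) (u ++ q) := by
    refine Finset.sum_eq_single q h1 fun h3 => ?_
    rw [Finsupp.notMem_support_iff.1 h3, map_zero, Finsupp.zero_apply]
  rw [h2, Sh_apply, if_pos hg]

theorem G_step {D J i : ℕ} (hi : i ≤ J) {s : List E →₀ W} (hs : s ∈ SJ ρ W (D + 1) (J + 1))
    (hr : s ∈ RR G W (D + 1 + i)) : s ∈ SJ ρ W (D + 1) J := by
  classical
  obtain ⟨κ, hκ, rfl⟩ := SJ_rep ρ W hs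
  have key : ∀ q : List E, q.length = J + 1 → Sh G W q (κ q) ∈ SJ ρ W (D + 1) J := by
    intro q hq
    obtain ⟨f, q', rfl⟩ : ∃ f q', q = f :: q' := by
      cases q with
      | nil => simp at hq
      | cons f q' => exact ⟨f, q', rfl⟩
    have hq' : q'.length = J := by simpa using hq
    have hK := (hκ (f :: q')).1
    have hR := hK.1
    by_cases hg : Gd G (f :: q')
    · rw [← Sh_cut W f q' hR, Sh_cons]
      refine SJ_mem ρ W hq'.le ?_
      have hc : cut G W (G.s f) (κ (f :: q')) ∈ RR G W D := by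
        rw [mem_RR]
        intro u hu
        rw [cut_apply] at hu
        split_ifs at hu with hL
        · have h1 := (mem_RR W).1 hR u hu
          refine ⟨h1.1, ?_⟩
          by_contra h2
          have h3 : u.length = D + 1 := by have := h1.2; omega
          have h4 : Gd G (u ++ f :: q') := (gd_iff h1.1.1).2 ⟨h1.1, hg, hL⟩
          have h5 := Ph_top ρ W hκ h3 hq h4
          rw [mem_RR] at hr
          by_cases h6 : Ph G W κ (u ++ f :: q') = 0
          · exact hu (h5.symm.trans h6)
          · have h7 := (hr _ h6).2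
            rw [List.length_append, hq, h3] at h7
            omega
        · exact absurd rfl hu
      have hc2 := Sh_RR W [f] hc
      refine ⟨by simpa using hc2, ?_⟩
      change ev ρ W _ = 0
      rw [Sh_ev ρ W [f] hc, cut_ev ρ W _ hR, LinearMap.mem_ker.1 hK.2, map_zero,
        map_zero]
    · have h0 : Sh G W (f :: q') (κ (f :: q')) = 0 := by
        refine Finsupp.ext fun x => ?_
        by_cases h : ∃ u, x = u ++ f :: q'
        · obtain ⟨u, rfl⟩ := h
          rw [Sh_apply]
          by_cases h1 : κ (f :: q') u = 0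
          · rw [h1]; simp
          · have hu := ((mem_RR W).1 hR u h1).1
            rw [if_neg fun h2 => hg ((gd_iff hu.1).1 h2).2.1]
            rfl
        · push Not at h
          exact Sh_apply_not W _ x _ h
      rw [h0]
      exact Submodule.zero_mem _
  rw [Ph_eq]
  refine Submodule.sum_mem _ fun q hq => ?_
  have h1 : q.length ≤ J + 1 := (hκ q).2 (by simpa using hq)
  rcases Nat.lt_or_ge J q.length with h2 | h2
  · exact key q (le_antisymm h1 h2)
  · exact SJ_mem ρ W h2 (hκ q).1

theorem G_all {D i : ℕ} : ∀ J : ℕ, ∀ s : List E →₀ W, s ∈ SJ ρ W (D + 1) J →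
    s ∈ RR G W (D + 1 + i) → s ∈ SJ ρ W (D + 1) i := by
  intro J
  induction J with
  | zero => exact fun s hs _ => SJ_mono ρ W (Nat.zero_le i) hs
  | succ J ih =>
    intro s hs hr
    rcases Nat.lt_or_ge J i with h | h
    · exact SJ_mono ρ W h hs
    · exact ih s (G_step ρ W h hs hr) hr

end Lin

end KP_

open KP_ in
theorem p_KP : T_KP.{u} := by
  classical
  intro k _ V E _ _ G hG A _ _ N _ _ _ _ ρ W D hS j c hc hU hsum f w hfw hw
  by_cases hx0 : c (f :: w) = 0
  · rw [hx0, map_zero]
    exact Submodule.zero_mem _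
  have hC : ∀ w, ∃ C ∈ RR G W (D + 1), ev ρ W C = c w := fun w => hU w
  choose C hCR hCe using hC
  obtain ⟨c0, hc0, he0⟩ := hsum
  have hmem : f :: w ∈ c.support := Finsupp.mem_support_iff.2 hx0
  have hx : (f :: w).length = j + 1 := hc _ hmem
  set c' := ∑ x ∈ c.support, Sh G W x (C x) - c0 with hc'
  have hR' : c' ∈ RR G W (D + 1 + (j + 1)) := by
    refine Submodule.sub_mem _ (Submodule.sum_mem _ fun x hx => ?_) (RR_mono W (by omega) hc0)
    have := Sh_RR W x (hCR x)
    rwa [hc x hx] at this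
  have he' : ev ρ W c' = 0 := by
    rw [hc', map_sub, map_sum, he0, sub_eq_zero, Finsupp.sum]
    refine Finset.sum_congr rfl fun x _ => ?_
    rw [Sh_ev ρ W x (hCR x), hCe]
  obtain ⟨m, hm⟩ := hS _ c' hR' he'
  obtain ⟨w', hw', hg⟩ := gd_ext hG m (f :: w) hfw
  have hs1 := hm w' hw'.ge
  have hs2 := Sh_RR W w' hR'
  obtain ⟨J, hJ⟩ := SS_SJ ρ W hs1
  have hs3 : Sh G W w' c' ∈ RR G W (D + 1 + (j + 1 + m)) := by
    rw [hw'] at hs2
    rwa [← add_assoc]
  have hs4 := G_all ρ W J _ hJ hs3
  obtain ⟨κ, hκ, hrep⟩ := SJ_rep ρ W hs4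
  have hcoef : ∀ u : List E, u.length = D + 1 → Gd G (u ++ ((f :: w) ++ w')) →
      C (f :: w) u = κ ((f :: w) ++ w') u := by
    intro u hu hgu
    have hu0 : u ≠ [] := by
      intro h
      rw [h] at hu
      simp at hu
    have h1 := Ph_top ρ W hκ hu (by rw [List.length_append, hx, hw']) hgu
    rw [← hrep, ← List.append_assoc, Sh_apply, if_pos (by rwa [List.append_assoc])] at h1
    rw [← h1, hc', Finsupp.sub_apply, Finsupp.finsetSum_apply]
    have hg2 : Gd G (u ++ (f :: w)) := by
      rw [← List.append_assoc] at hgu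
      exact gd_app (by simp) hgu
    have h2 : c0 (u ++ (f :: w)) = 0 := by
      by_contra h
      have h3 := ((mem_RR W).1 hc0 _ h).2
      rw [List.length_append, hu, hx] at h3
      omega
    have h3 : ∑ x ∈ c.support, Sh G W x (C x) (u ++ (f :: w)) = C (f :: w) u := by
      rw [Finset.sum_eq_single (f :: w), Sh_apply, if_pos hg2]
      · intro x hxs hne
        by_cases h : ∃ u', u ++ (f :: w) = u' ++ x
        · obtain ⟨u', h'⟩ := h
          have h7 : (f :: w).length = x.length := by rw [hx, hc x hxs]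
          exact absurd (List.append_inj' h' h7).2.symm hne
        · push Not at h
          exact Sh_apply_not W x _ _ h
      · intro h
        exact absurd hmem h
    rw [h2, h3, sub_zero]
  set K := κ ((f :: w) ++ w') with hK
  have hKK : K ∈ KK ρ W (D + 1) := (hκ _).1
  have hdR : C (f :: w) - K ∈ RR G W (D + 1) := Submodule.sub_mem _ (hCR _) hKK.1
  refine ⟨cut G W (G.s f) (C (f :: w) - K), ?_, ?_⟩
  · change _ ∈ RR G W D
    rw [mem_RR]
    intro u hu
    rw [cut_apply] at hu
    split_ifs at hu with hL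
    · have h1 := (mem_RR W).1 hdR u hu
      refine ⟨h1.1, ?_⟩
      by_contra h2
      have h3 : u.length = D + 1 := by have := h1.2; omega
      have h4 : Gd G (u ++ ((f :: w) ++ w')) := (gd_iff h1.1.1).2 ⟨h1.1, hg, hL⟩
      exact hu (by rw [Finsupp.sub_apply, hcoef u h3 h4, sub_self])
    · exact absurd rfl hu
  · rw [cut_ev ρ W _ hdR, map_sub, hCe, LinearMap.mem_ker.1 hKK.2, sub_zero]

end Pool.Agent.IDP
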