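import Pool.Agent.IDP.Targets

/-! LL: the lattice lemma -/

set_option autoImplicit false

universe u

namespace Pool.Agent.IDP

open CKS TensorProduct

namespace LL_

section

variable {k : Type u} [Field k] {V E : Type} {G : CKS.Graph V E}

theorem sum_one [Fintype V] [Fintype E] (hs : NoSink G) :
    (∑ e, ed e * gh e : LPA k G) = 1 := by
  classical
  rw [← one_rel (k := k) (G := G) (Reg := G.IsReg)]
  have h : ∀ a : V, (vt a : LPA k G) = ∑ e, if G.s e = a then (ed e * gh e : LPA k G) else 0 := by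
    intro a
    rw [← ck_rel (k := k) (G := G) (Reg := G.IsReg) (hs a) (Finset.univ.filter fun e => G.s e = a)
      (fun e => by simp), Finset.sum_filter]
  rw [Finset.sum_congr rfl fun a _ => h a, Finset.sum_comm]
  refine Finset.sum_congr rfl fun e _ => ?_
  rw [Finset.sum_ite_eq]
  simp

/-- a word that is no path -/
theorem yw_zero {w : List E} (h : ¬ w.IsChain (fun e f => G.r e = G.s f)) :
    (yw w : LPA k G) = 0 := by
  induction w with
  | nil => exact absurd List.isChain_nil h
  | cons e l ih =>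
    rw [yw_cons]
    by_cases hl : l.IsChain (fun e f => G.r e = G.s f)
    · rcases l with _ | ⟨f, l⟩
      · exact absurd (List.isChain_singleton e) h
      · have : ¬ G.r e = G.s f := fun h' => h (List.isChain_cons_cons.2 ⟨h', hl⟩)
        rw [yw_cons, mul_assoc, gh_gh fun h' => this h'.symm, mul_zero]
    · rw [ih hl, zero_mul]

theorem yw_zero' {w : List E} (h : w ≠ []) (h' : ¬ Gd G w) : (yw w : LPA k G) = 0 :=
  yw_zero fun h'' => h' ⟨h, h''⟩

theorem wl_nil {ι : Type} {L : Type u} [Ring L] (η : ι → L) : wl η [] = 1 := by simp [wl]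
theorem wl_cons {ι : Type} {L : Type u} [Ring L] (η : ι → L) (i : ι) (w : List ι) :
    wl η (i :: w) = wl η w * η i := by simp [wl]

theorem wl_map (L' : Type u) [Ring L'] [Algebra k L'] (φ : LPA k G →ₐ[k] L') (w : List E) :
    wl (fun e => φ (gh e)) w = φ (yw w) := by
  induction w with
  | nil => rw [wl_nil, yw_nil, map_one]
  | cons e l ih => rw [wl_cons, yw_cons, ih, map_mul]

variable {A : Type u} [CommRing A] [Algebra k A] {N : Type u} [AddCommGroup N] [Module k N]
  [Module A N] [IsScalarTower k A N] (ρ : LPA k G →ₐ[k] Module.End A N) (W : Submodule A N)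

theorem wd_rho {ι : Type} (η : ι → LPA k G) (w : List ι) :
    wd (fun i => ρ (η i)) w = ρ (wl η w) := by
  induction w with
  | nil => rw [wl_nil, map_one]; rfl
  | cons e l ih => rw [wl_cons, map_mul, ← ih]; rfl

theorem wd_yl (w : List E) : wd (yl ρ) w = ρ (yw w) := by
  induction w with
  | nil => rw [yw_nil, map_one]; rfl
  | cons e l ih => rw [yw_cons, map_mul, ← ih]; rfl

theorem ev_single (w : List E) (n : W) : ev ρ W (Finsupp.single w n) = ρ (yw w) n := by
  simp [ev]

theorem mem_UU {w : List E} (hw : Gd G w) {i : ℕ} (hi : w.length ≤ i) {n : N} (hn : n ∈ W) :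
    ρ (yw w) n ∈ UU ρ W i := by
  refine ⟨Finsupp.single w ⟨n, hn⟩, ?_, ev_single ρ W w ⟨n, hn⟩⟩
  exact Finsupp.single_mem_supported A _ (show w ∈ {w | Gd G w ∧ w.length ≤ i} from ⟨hw, hi⟩)

theorem UU_le {i : ℕ} {S : Submodule A N}
    (h : ∀ w, Gd G w → w.length ≤ i → ∀ n ∈ W, ρ (yw w) n ∈ S) : UU ρ W i ≤ S := by
  rintro _ ⟨c, hc, rfl⟩
  rw [ev, Finsupp.lsum_apply]
  refine Submodule.sum_mem _ fun w hw => ?_
  have := (Finsupp.mem_supported A c).1 hc hw
  exact h w this.1 this.2 _ (c w).2

theorem Gd_finite [Finite E] (i : ℕ) : {w : List E | Gd G w ∧ w.length ≤ i}.Finite :=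
  (List.finite_length_le E i).subset fun _ h => h.2

theorem UU_fg [Finite E] (hW : W.FG) (i : ℕ) : (UU ρ W i).FG := by
  have h1 : Module.Finite A W := Module.Finite.iff_fg.2 hW
  have h2 : Finite {w : List E | Gd G w ∧ w.length ≤ i} := Gd_finite i
  have h3 : Module.Finite A (RR G W i) :=
    Module.Finite.equiv (Finsupp.supportedEquivFinsupp
      (M := W) (R := A) {w : List E | Gd G w ∧ w.length ≤ i}).symm
  exact Submodule.FG.map _ (Module.Finite.iff_fg.1 h3)

end

end LL_

open LL_ in
theorem p_LL (hEXT : T_EXT.{u}) (hGH : T_GHOST.{u}) (hINF : T_INF.{u}) (hST : T_STAR.{u})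
    (hKP : T_KP.{u}) (hTOR : T_TOR.{u}) (hCNT : T_CNT.{u}) : T_LL.{u} := by
  intro k _ V E V' E' _ _ _ _ G H hG hH φ A _ _ _ _ hUn N _ _ _ _ htf ρ W hW
  have hone : ∀ n : N, n = ∑ e, ρ (φ (ed e)) (ρ (φ (gh e)) n) := by
    intro n
    have h1 : ρ (φ (∑ e, ed e * gh e)) n = n := by
      rw [sum_one hG, map_one, map_one]; rfl
    conv_lhs => rw [← h1]
    rw [map_sum, map_sum, LinearMap.sum_apply]
    refine Finset.sum_congr rfl fun e _ => ?_
    rw [map_mul, map_mul]; rfl
  have hP : Pres ρ W (fun e => φ (ed e)) (fun e => φ (gh e)) hW.st :=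
    hEXT k G H φ ρ W hW.st hW.ab
  obtain ⟨D, hD⟩ := hST k H hH ρ W (fun e => φ (ed e)) (fun e => φ (gh e)) hW.st
    (fun n _ => hone n) hP
  have hK : Kp ρ W D := hKP k H hH ρ W D (hD (D + 1) (Nat.le_succ D))
  have hinf : ∀ (p : LPA k H) (_ : p ≠ 0) (m n : ℕ), ∃ b : Fin n → LPA k H,
      LinearIndependent k b ∧ ∀ i, b i ∈ Submodule.span k
        {x | ∃ γ : List E, m ≤ γ.length ∧ x = wl (fun e => φ (gh e)) γ * p} := by
    intro p hp m n
    obtain ⟨b, hb, hb'⟩ := hINF k G hG (φ.symm p) (by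
      intro h
      apply hp
      rw [← φ.apply_symm_apply p, h, map_zero]) m n
    refine ⟨fun i => φ (b i), ?_, fun i => ?_⟩
    · exact hb.map' φ.toLinearEquiv.toLinearMap (LinearMap.ker_eq_bot.2 φ.injective)
    · have h1 : φ (b i) ∈ (Submodule.span k {x | ∃ γ : List E, m ≤ γ.length ∧
          x = yw γ * φ.symm p}).map φ.toLinearEquiv.toLinearMap :=
        Submodule.mem_map_of_mem (hb' i)
      rw [Submodule.map_span] at h1
      refine Submodule.span_mono ?_ h1
      rintro _ ⟨_, ⟨γ, hγ, rfl⟩, rfl⟩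
      refine ⟨γ, hγ, ?_⟩
      have h2 := wl_map (LPA k H) (φ : LPA k G →ₐ[k] LPA k H) γ
      have h3 : φ (yw γ * φ.symm p) = φ (yw γ) * p := by
        rw [map_mul, φ.apply_symm_apply]
      refine h3.trans ?_
      rw [show φ (yw γ) = wl (fun e => φ (gh e)) γ from h2.symm]
  have hT := hTOR k H hH ρ W hW.fg (fun e => φ (gh e)) hW.ab hinf D hK
  have hE : UU ρ W (D + 1) = UU ρ W D := hCNT k H hH hUn htf ρ W hW.fg D hK hT
  -- stability
  have hst : ∀ f, ∀ n ∈ UU ρ W (D + 1), yl ρ f n ∈ UU ρ W (D + 1) := by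
    intro f n hn
    rw [hE] at hn
    have h1 : UU ρ W D ≤ (UU ρ W (D + 1)).comap (yl ρ f) := by
      refine UU_le ρ W fun w hw hwD m hm => ?_
      rw [Submodule.mem_comap]
      have h2 : yl ρ f (ρ (yw w) m) = ρ (yw (w ++ [f])) m := by
        rw [yw_append, map_mul]
        simp [yl, yw]
      rw [h2]
      by_cases hg : Gd H (w ++ [f])
      · exact mem_UU ρ W hg (by rw [List.length_append]; simpa using hwD) hm
      · rw [yw_zero' (by simp) hg, map_zero]
        exact Submodule.zero_mem _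
    exact h1 hn
  have hall : ∀ w : List E', w ≠ [] → ∀ n ∈ W, ρ (yw w) n ∈ UU ρ W (D + 1) := by
    intro w
    induction w using List.reverseRecOn with
    | nil => intro h; exact absurd rfl h
    | append_singleton w f ih =>
      intro _ n hn
      by_cases hw : w = []
      · subst hw
        by_cases hg : Gd H ([] ++ [f])
        · exact mem_UU ρ W hg (by simp) hn
        · rw [yw_zero' (by simp) hg, map_zero]
          exact Submodule.zero_mem _
      · have h2 : yl ρ f (ρ (yw w) n) = ρ (yw (w ++ [f])) n := by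
          rw [yw_append, map_mul]
          simp [yl, yw]
        rw [← h2]
        exact hst f _ (ih hw n hn)
  refine ⟨UU ρ W (D + 1), UU_fg ρ W hW.fg _, hst, ?_⟩
  -- absorbing
  let T : Submodule A N := Submodule.span A {n | ∃ a, ∃ v ∈ W, n = ρ a v}
  have hTst : ∀ a, ∀ n ∈ T, ρ a n ∈ T := by
    intro a n hn
    have : T ≤ T.comap (ρ a) := by
      refine Submodule.span_le.2 ?_
      rintro _ ⟨b, v, hv, rfl⟩
      refine Submodule.subset_span ⟨a * b, v, hv, ?_⟩
      rw [map_mul]; rfl
    exact this hn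
  have hTtop : ∀ m (n : N), (∀ w : List E, m ≤ w.length →
      wd (fun e => ρ (φ (gh e))) w n ∈ W) → n ∈ T := by
    intro m
    induction m with
    | zero =>
      intro n hn
      refine Submodule.subset_span ⟨1, n, hn [] (Nat.zero_le _), ?_⟩
      rw [map_one]; rfl
    | succ m ih =>
      intro n hn
      rw [hone n]
      refine Submodule.sum_mem _ fun e _ => hTst _ _ (ih _ fun w hw => ?_)
      exact hn (e :: w) (by simpa using hw)
  intro n
  have hnT : n ∈ T := by
    obtain ⟨m0, hm0⟩ := hW.ab n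
    exact hTtop m0 n hm0
  induction hnT using Submodule.span_induction with
  | mem x hx =>
    obtain ⟨a, v, hv, rfl⟩ := hx
    obtain ⟨m, hm⟩ := hGH k H a 1
    refine ⟨m, fun w hw => ?_⟩
    rw [wd_yl, ← Module.End.mul_apply, ← map_mul]
    have h1 := hm w hw
    generalize (yw w * a : LPA k H) = b at h1
    induction h1 using Submodule.span_induction with
    | mem x hx =>
      obtain ⟨q, hq, rfl⟩ := hx
      exact hall q (by rintro rfl; simp at hq) v hv
    | zero => rw [map_zero]; exact Submodule.zero_mem _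
    | add x y _ _ hx hy => rw [map_add]; exact Submodule.add_mem _ hx hy
    | smul c x _ hx =>
      rw [map_smul, LinearMap.smul_apply, ← algebraMap_smul A c]
      exact Submodule.smul_mem _ _ hx
  | zero => exact ⟨0, fun w _ => by rw [map_zero]; exact Submodule.zero_mem _⟩
  | add x y _ _ hx hy =>
    obtain ⟨m1, h1⟩ := hx
    obtain ⟨m2, h2⟩ := hy
    refine ⟨max m1 m2, fun w hw => ?_⟩
    rw [map_add]
    exact Submodule.add_mem _ (h1 w (le_trans (le_max_left _ _) hw))
      (h2 w (le_trans (le_max_right _ _) hw))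
  | smul c x _ hx =>
    obtain ⟨m1, h1⟩ := hx
    refine ⟨m1, fun w hw => ?_⟩
    rw [map_smul]
    exact Submodule.smul_mem _ _ (h1 w hw)

end Pool.Agent.IDP
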