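import Pool.Agent.IDP.Targets

/-! MAIN: the intrinsic determinant pairing -/

set_option autoImplicit false

universe u

namespace Pool.Agent.IDP

open CKS TensorProduct Polynomial

namespace MAIN_

theorem inj_of_det {A M : Type u} [CommRing A] [IsDomain A] [AddCommGroup M] [Module A M]
    [Module.Free A M] [Module.Finite A M] (f : Module.End A M) (h : LinearMap.det f ≠ 0) :
    Function.Injective f := by
  classical
  rw [← LinearMap.ker_eq_bot, LinearMap.ker_eq_bot']
  intro x hx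
  let b := Module.Free.chooseBasis A M
  have h1 : (LinearMap.toMatrix b b f).mulVec (b.repr x) = 0 := by
    rw [LinearMap.toMatrix_mulVec_repr, hx, map_zero]; rfl
  rw [← LinearMap.det_toMatrix b] at h
  have h2 := Matrix.eq_zero_of_mulVec_eq_zero h h1
  have h3 : b.repr x = 0 := by
    ext i
    exact congrFun h2 i
  exact b.repr.map_eq_zero_iff.1 h3

section

variable {k : Type u} [Field k] {M N : Type u} [AddCommGroup M] [Module k M]
    [Module k[X] M] [IsScalarTower k k[X] M] [AddCommGroup N] [Module k N]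

theorem eps_smul (ε : M →ₗ[k] N) (h : ∀ n : M, ε ((X : k[X]) • n) = ε n) (p : k[X]) (n : M) :
    ε (p • n) = p.eval 1 • ε n := by
  have hX : ∀ (j : ℕ) (n : M), ε ((X ^ j : k[X]) • n) = ε n := by
    intro j
    induction j with
    | zero => intro n; rw [pow_zero, one_smul]
    | succ j ih => intro n; rw [pow_succ, mul_smul, ih, h]
  induction p using Polynomial.induction_on' with
  | add p q hp hq => rw [add_smul, map_add, hp, hq, eval_add, add_smul]
  | monomial j a =>
    rw [← C_mul_X_pow_eq_monomial, mul_smul, eval_mul, eval_C, eval_pow, eval_X, one_pow, mul_one,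
      ← hX j n, show (C a : k[X]) = algebraMap k k[X] a from rfl, algebraMap_smul, map_smul]

theorem lat_map {ι : Type} (ε : M →ₗ[k] N) (Y : ι → Module.End k[X] M) (Z : ι → Module.End k N)
    (h1 : ∀ n : M, ε ((X : k[X]) • n) = ε n) (hs : Function.Surjective ε)
    (h2 : ∀ i n, ε (Y i n) = Z i (ε n)) (W : Submodule k[X] M) (hW : IsLat Y W) :
    IsLat Z ((W.restrictScalars k).map ε) := by
  refine ⟨?_, ?_, ?_⟩
  · obtain ⟨s, hs'⟩ := hW.fg
    classical
    refine ⟨s.image ε, le_antisymm ?_ ?_⟩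
    · rw [Submodule.span_le]
      intro x hx
      rw [Finset.coe_image] at hx
      obtain ⟨y, hy, rfl⟩ := hx
      exact ⟨y, by
        rw [← hs']
        exact Submodule.subset_span hy, rfl⟩
    · rintro _ ⟨y, hy, rfl⟩
      have hy' : y ∈ Submodule.span k[X] (s : Set M) := by rw [hs']; exact hy
      clear hy
      induction hy' using Submodule.span_induction with
      | mem x hx => exact Submodule.subset_span (by
          rw [Finset.coe_image]; exact ⟨x, hx, rfl⟩)
      | zero => rw [map_zero]; exact Submodule.zero_mem _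
      | add x y _ _ hx hy => rw [map_add]; exact Submodule.add_mem _ hx hy
      | smul c x _ hx => rw [eps_smul ε h1]; exact Submodule.smul_mem _ _ hx
  · rintro i _ ⟨y, hy, rfl⟩
    exact ⟨Y i y, hW.st i y hy, h2 i y⟩
  · intro n
    obtain ⟨y, rfl⟩ := hs n
    obtain ⟨m, hm⟩ := hW.ab y
    refine ⟨m, fun w hw => ⟨wd Y w y, hm w hw, ?_⟩⟩
    clear hw hm
    induction w generalizing y with
    | nil => rfl
    | cons i w ih =>
      change ε (wd Y w (Y i y)) = wd Z w (Z i (ε y))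
      rw [ih, h2]

end

end MAIN_

open MAIN_ in
theorem p_MAIN (hLL : T_LL.{u}) (hCOK : T_COK.{u}) (hSCH : T_SCH.{u}) (hFAM : T_FAM.{u})
    (hSPEC : T_SPEC.{u}) (hIDP1 : T_IDP1.{u}) : T_MAIN.{u} := by
  intro k _ V E V' E' _ _ _ _ G H hG hH hU φ N N1 _ _ _ _ ρ R WG WH XG XH hWG hWH hXG hXH
  obtain ⟨M, iM1, iM2, iM3, iM4, ρ', ε, W', htf, hX, hεX, hker, hsur, hε, hW'⟩ :=
    hFAM k G (ρ.comp (φ : LPA k G →ₐ[k] LPA k H)) WG hWG
  let ρ'' : LPA k H →ₐ[k] Module.End k[X] M := ρ'.comp (φ.symm : LPA k H →ₐ[k] LPA k G)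
  have hρ : ρ''.comp (φ : LPA k G →ₐ[k] LPA k H) = ρ' := by
    ext a
    simp [ρ'']
  have hε' : ∀ a n, ε (ρ'' a n) = ρ a (ε n) := by
    intro a n
    have := hε (φ.symm a) n
    simpa [ρ''] using this
  have hW'' : IsLat (yl (ρ''.comp (φ : LPA k G →ₐ[k] LPA k H))) W' := by
    rw [hρ]; exact hW'
  obtain ⟨U, hU'⟩ := hLL k G H hG hH φ (A := k[X]) (Or.inl hU) htf ρ'' W' hW''
  obtain ⟨e⟩ := hCOK k G H hG hH φ ρ'' R W' U XG XH hW'' hU' hXG hXH
  -- finiteness
  have f1 : Module.Finite k XG := Module.Finite.iff_fg.2 hXG.fg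
  have f2 : Module.Finite k XH := Module.Finite.iff_fg.2 hXH.fg
  have f3 : Module.Finite k[X] W' := Module.Finite.iff_fg.2 hW'.fg
  have f4 : Module.Finite k[X] U := Module.Finite.iff_fg.2 hU'.fg
  have tM : Module.IsTorsionFree k[X] M := Module.IsTorsionFree.of_smul_eq_zero htf
  have g3 : Module.Free k[X] W' := Module.free_of_finite_type_torsion_free'
  have g4 : Module.Free k[X] U := Module.free_of_finite_type_torsion_free'
  have bG := (Module.Free.chooseBasis k[X] W').tensorProduct (Module.finBasis k XG)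
  have bH := (Module.Free.chooseBasis k[X] U).tensorProduct (Module.finBasis k XH)
  have h3 : Module.Free k[X] (W' ⊗[k] XG) := Module.Free.of_basis bG
  have h4 : Module.Free k[X] (U ⊗[k] XH) := Module.Free.of_basis bH
  have h5 : Module.Finite k[X] (W' ⊗[k] XG) := Module.Finite.of_basis bG
  have h6 : Module.Finite k[X] (U ⊗[k] XH) := Module.Finite.of_basis bH
  -- specialisations
  have hZG : ∀ e n, ε (yl (ρ''.comp (φ : LPA k G →ₐ[k] LPA k H)) e n) =
      yl (ρ.comp (φ : LPA k G →ₐ[k] LPA k H)) e (ε n) := fun e n => hε' _ _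
  have hZH : ∀ e n, ε (yl ρ'' e n) = yl ρ e (ε n) := fun e n => hε' _ _
  have LG := lat_map ε _ _ hεX hsur hZG W' hW''
  have LH := lat_map ε _ _ hεX hsur hZH U hU'
  obtain ⟨sG0, sG1⟩ := hSPEC k ε _ _ htf hX hεX hker hZG W' hW'' (rs _ hXG.st) LG.st
  obtain ⟨sH0, sH1⟩ := hSPEC k ε _ _ htf hX hεX hker hZH U hU' (rs _ hXH.st) LH.st
  have nG : mdet (rs _ hW''.st) (rs _ hXG.st) ≠ 0 := by
    intro h; rw [h] at sG0; simp at sG0
  have nH : mdet (rs _ hU'.st) (rs _ hXH.st) ≠ 0 := by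
    intro h; rw [h] at sH0; simp at sH0
  have hass := hSCH _ _ (inj_of_det _ nG) (inj_of_det _ nH) e
  have heq : mdet (rs _ hW''.st) (rs _ hXG.st) = mdet (rs _ hU'.st) (rs _ hXH.st) := by
    obtain ⟨c, hc⟩ := hass
    change mdet (rs _ hW''.st) (rs _ hXG.st) * _ = mdet (rs _ hU'.st) (rs _ hXH.st) at hc
    obtain ⟨d, hd, hd'⟩ := Polynomial.isUnit_iff.1 c.isUnit
    have h7 := congrArg (Polynomial.eval 0) hc
    rw [Polynomial.eval_mul, sG0, sH0, one_mul, ← hd', Polynomial.eval_C] at h7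
    rw [← hc, ← hd', h7, map_one, mul_one]
  rw [heq, sH1] at sG1
  have e1 := hIDP1 (yl (ρ.comp (φ : LPA k G →ₐ[k] LPA k H))) (rs _ hXG.st) WG _ hWG LG
  have e2 := hIDP1 (yl ρ) (rs _ hXH.st) WH _ hWH LH
  rw [e1, e2]
  exact sG1.symm

end Pool.Agent.IDP
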