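import Pool.Agent.IDP.Targets

/-!
# IDP job SCH: Schanuel and determinants
-/

set_option autoImplicit false

universe u

namespace Pool.Agent.IDP

open CKS TensorProduct

/-- SCH. -/
theorem p_SCH : T_SCH.{u} := by
  intro A _ M M' _ _ _ _ _ _ _ _ f g hf hg φ
  classical
  -- the two projections
  let π : M →ₗ[A] (M' ⧸ LinearMap.range g) := φ.toLinearMap ∘ₗ (LinearMap.range f).mkQ
  let π' : M' →ₗ[A] (M' ⧸ LinearMap.range g) := (LinearMap.range g).mkQ
  have hπ : Function.Surjective π := φ.surjective.comp (Submodule.mkQ_surjective _)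
  have hπ' : Function.Surjective π' := Submodule.mkQ_surjective _
  have kπ : LinearMap.ker π = LinearMap.range f := by
    rw [LinearMap.ker_comp, LinearEquiv.ker, Submodule.comap_bot, Submodule.ker_mkQ]
  have kπ' : LinearMap.ker π' = LinearMap.range g := Submodule.ker_mkQ _
  -- the lifts
  obtain ⟨a, ha⟩ := Module.projective_lifting_property π' π hπ'
  obtain ⟨b, hb⟩ := Module.projective_lifting_property π π' hπ
  have ha' : ∀ x, π' (a x) = π x := fun x => LinearMap.congr_fun ha x
  have hb' : ∀ y, π (b y) = π' y := fun y => LinearMap.congr_fun hb y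
  -- the automorphism
  let θ : (M × M') →ₗ[A] (M × M') :=
    { toFun := fun p => (p.1 - b p.2, p.2 + a (p.1 - b p.2))
      map_add' := by
        intro p q
        ext
        · simp only [Prod.fst_add, Prod.snd_add, map_add]
          abel
        · simp only [Prod.fst_add, Prod.snd_add, map_add, map_sub]
          abel
      map_smul' := by
        intro c p
        ext
        · simp [smul_sub]
        · simp [smul_sub, smul_add] }
  let θi : (M × M') →ₗ[A] (M × M') :=
    { toFun := fun p => (p.1 + b (p.2 - a p.1), p.2 - a p.1)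
      map_add' := by
        intro p q
        ext
        · simp only [Prod.fst_add, Prod.snd_add, map_add, map_sub]
          abel
        · simp only [Prod.fst_add, Prod.snd_add, map_add]
          abel
      map_smul' := by
        intro c p
        ext
        · simp [smul_sub, smul_add]
        · simp [smul_sub] }
  have h1 : θ ∘ₗ θi = LinearMap.id := by
    ext p <;> simp [θ, θi]
  have h2 : θi ∘ₗ θ = LinearMap.id := by
    ext p <;> simp [θ, θi]
  let Θ : (M × M') ≃ₗ[A] (M × M') := LinearEquiv.ofLinearMap θ θi h1 h2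
  have hΘ : ∀ p : M × M', π' (Θ p).2 = π p.1 := by
    intro p
    show π' (p.2 + a (p.1 - b p.2)) = π p.1
    rw [map_add, ha', map_sub, hb']
    abel
  -- the two extended maps
  let F : (M × M') →ₗ[A] (M × M') := f.prodMap LinearMap.id
  let H : (M × M') →ₗ[A] (M × M') := LinearMap.id.prodMap g
  have hF : Function.Injective F := by
    intro p q h
    have h3 : (F p).1 = (F q).1 := by rw [h]
    have h4 : (F p).2 = (F q).2 := by rw [h]
    exact Prod.ext (hf h3) h4
  have hH : Function.Injective H := by
    intro p q h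
    have h3 : (H p).1 = (H q).1 := by rw [h]
    have h4 : (H p).2 = (H q).2 := by rw [h]
    exact Prod.ext h3 (hg h4)
  have rF : ∀ p : M × M', p ∈ LinearMap.range F ↔ π p.1 = 0 := by
    intro p
    rw [← LinearMap.mem_ker, kπ]
    constructor
    · rintro ⟨q, rfl⟩
      exact ⟨q.1, rfl⟩
    · rintro ⟨x, hx⟩
      exact ⟨(x, p.2), Prod.ext hx rfl⟩
  have rH : ∀ p : M × M', p ∈ LinearMap.range H ↔ π' p.2 = 0 := by
    intro p
    rw [← LinearMap.mem_ker, kπ']
    constructor
    · rintro ⟨q, rfl⟩
      exact ⟨q.2, rfl⟩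
    · rintro ⟨y, hy⟩
      exact ⟨(p.1, y), Prod.ext rfl hy⟩
  have hmap : (LinearMap.range F).map Θ.toLinearMap = LinearMap.range H := by
    ext p
    rw [rH]
    constructor
    · rintro ⟨q, hq, rfl⟩
      have := (rF q).1 hq
      rw [← this]
      exact hΘ q
    · intro hp
      refine ⟨Θ.symm p, ?_, Θ.apply_symm_apply p⟩
      refine (rF _).2 ?_
      rw [← hΘ, Θ.apply_symm_apply]
      exact hp
  -- the induced automorphism
  let eF := LinearEquiv.ofInjective F hF
  let eH := LinearEquiv.ofInjective H hH
  let e : LinearMap.range F ≃ₗ[A] LinearMap.range H := Θ.ofSubmodules _ _ hmap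
  let Θ' : (M × M') ≃ₗ[A] (M × M') := (eF.trans e).trans eH.symm
  have key : Θ.toLinearMap ∘ₗ F = H ∘ₗ Θ'.toLinearMap := by
    refine LinearMap.ext fun p => ?_
    have h5 : eH (Θ' p) = e (eF p) := by
      show eH (eH.symm (e (eF p))) = e (eF p)
      exact eH.apply_symm_apply _
    have h6 : H (Θ' p) = ((e (eF p) : LinearMap.range H) : M × M') := by
      rw [← h5]
      rfl
    show Θ (F p) = H (Θ' p)
    rw [h6]
    rfl
  have hdet := congrArg LinearMap.det key
  rw [LinearMap.det_comp, LinearMap.det_comp] at hdet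
  have dF : LinearMap.det F = LinearMap.det f := by
    rw [show F = f.prodMap LinearMap.id from rfl, LinearMap.det_prodMap, LinearMap.det_id, mul_one]
  have dH : LinearMap.det H = LinearMap.det g := by
    rw [show H = LinearMap.id.prodMap g from rfl, LinearMap.det_prodMap, LinearMap.det_id, one_mul]
  rw [dF, dH] at hdet
  obtain ⟨u, hu⟩ := Θ.isUnit_det'
  obtain ⟨v, hv⟩ := Θ'.isUnit_det'
  rw [← hu, ← hv] at hdet
  refine ⟨u * v⁻¹, ?_⟩
  have h7 : LinearMap.det f * (u : A) * ((v⁻¹ : Aˣ) : A) = LinearMap.det g := by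
    rw [mul_comm (LinearMap.det f), hdet, mul_assoc, Units.mul_inv, mul_one]
  rw [Units.val_mul, ← mul_assoc]
  exact h7

end Pool.Agent.IDP
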