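import Pool.Agent.IDP.Targets

/-!
# IDP: specialisation of the determinant
-/

set_option autoImplicit false

universe u

namespace Pool.Agent.IDP

open CKS TensorProduct Polynomial

namespace SPEC_

section A

variable {k : Type u} [Field k] {ι : Type} [Fintype ι] {J K : Type} [Fintype J] [Fintype K]
  [DecidableEq J] [DecidableEq K]

/-- The specialised operators. -/
noncomputable def ac (P : ι → Matrix J J k[X]) (c : k) (i : ι) : Module.End k (J → k) :=
  Matrix.toLin' ((P i).map (Polynomial.eval c))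

theorem pd {V U : Type u} [AddCommGroup V] [Module k V] [AddCommGroup U] [Module k U]
    (w : Module.Basis J k V) (v : Module.Basis K k U) (a : ι → Module.End k V)
    (b : ι → Module.End k U) (j j' : J) (l l' : K) :
    (LinearMap.toMatrix (w.tensorProduct v) (w.tensorProduct v))
      (1 - ∑ i, TensorProduct.map (a i) (b i)) (j, l) (j', l') =
      (1 : Matrix (J × K) (J × K) k) (j, l) (j', l') -
        ∑ i, (v.repr (b i (v l')) l) • (w.repr (a i (w j')) j) := by
  rw [map_sub, LinearMap.toMatrix_one, Matrix.sub_apply]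
  congr 1
  rw [map_sum, Matrix.sum_apply]
  refine Finset.sum_congr rfl fun i _ => ?_
  rw [LinearMap.toMatrix_apply, Module.Basis.tensorProduct_apply,
    TensorProduct.map_tmul, Module.Basis.tensorProduct_repr_tmul_apply]

/-- The determinant of the specialised operators. -/
theorem spec_det {W U : Type u} [AddCommGroup W] [Module k W] [Module k[X] W]
    [IsScalarTower k k[X] W] [AddCommGroup U] [Module k U] (w : Module.Basis J k[X] W)
    (v : Module.Basis K k U) (a : ι → Module.End k[X] W) (b : ι → Module.End k U) (c : k) :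
    Polynomial.eval c (mdet a b) =
      pdet (ac (fun i => LinearMap.toMatrix w w (a i)) c) b := by
  unfold mdet pdet
  rw [← LinearMap.det_toMatrix (w.tensorProduct v),
    ← LinearMap.det_toMatrix ((Pi.basisFun k J).tensorProduct v)]
  rw [← Polynomial.coe_evalRingHom, RingHom.map_det]
  congr 1
  ext ⟨j, l⟩ ⟨j', l'⟩
  have e1 : (LinearMap.toMatrix (w.tensorProduct v) (w.tensorProduct v))
      ((1 : Module.End k[X] (W ⊗[k] U)) - mT a b) (j, l) (j', l') =
      (1 : Matrix (J × K) (J × K) k[X]) (j, l) (j', l') -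
        ∑ i, (v.repr (b i (v l')) l) • (w.repr (a i (w j')) j) := by
    rw [map_sub, LinearMap.toMatrix_one, Matrix.sub_apply]
    congr 1
    unfold mT
    rw [map_sum, Matrix.sum_apply]
    refine Finset.sum_congr rfl fun i _ => ?_
    rw [LinearMap.toMatrix_apply, Module.Basis.tensorProduct_apply,
      TensorProduct.AlgebraTensorModule.map_tmul, Module.Basis.tensorProduct_repr_tmul_apply]
  have e2 : (LinearMap.toMatrix ((Pi.basisFun k J).tensorProduct v)
      ((Pi.basisFun k J).tensorProduct v))
      ((1 : Module.End k ((J → k) ⊗[k] U)) -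
        ∑ i, TensorProduct.map (ac (fun i => LinearMap.toMatrix w w (a i)) c i) (b i))
      (j, l) (j', l') =
      (1 : Matrix (J × K) (J × K) k) (j, l) (j', l') -
        ∑ i, (v.repr (b i (v l')) l) • Polynomial.eval c (w.repr (a i (w j')) j) := by
    refine (pd (Pi.basisFun k J) v _ b j j' l l').trans ?_
    congr 1
    refine Finset.sum_congr rfl fun i _ => ?_
    congr 1
    unfold ac
    rw [Pi.basisFun_repr, Pi.basisFun_apply, Matrix.toLin'_apply, Matrix.mulVec_single_one,
      Matrix.col_apply, Matrix.map_apply]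
    exact congrArg _ (LinearMap.toMatrix_apply w w (a i) j j')
  refine Eq.trans ?_ e2.symm
  show (Polynomial.evalRingHom c) _ = _
  rw [e1, map_sub, map_sum]
  congr 1
  · rw [Matrix.one_apply, Matrix.one_apply]
    split_ifs <;> simp
  · refine Finset.sum_congr rfl fun i _ => ?_
    simp [Polynomial.coe_evalRingHom, Polynomial.eval_smul]

/-- The value of a vector at `c`. -/
noncomputable def ph {W : Type u} [AddCommGroup W] [Module k W] [Module k[X] W]
    [IsScalarTower k k[X] W] (w : Module.Basis J k[X] W) (c : k) : W →ₗ[k] (J → k) where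
  toFun v := fun j => Polynomial.eval c (w.repr v j)
  map_add' v v' := by
    funext j
    simp
  map_smul' r v := by
    funext j
    have h : r • v = (Polynomial.C r) • v := by
      rw [← Polynomial.algebraMap_eq, algebraMap_smul]
    rw [h]
    simp

variable {W : Type u} [AddCommGroup W] [Module k W] [Module k[X] W]
    [IsScalarTower k k[X] W] (w : Module.Basis J k[X] W)

theorem ph_apply (c : k) (v : W) (j : J) : ph w c v j = Polynomial.eval c (w.repr v j) := rfl

theorem ph_surj (c : k) : Function.Surjective (ph w c) := by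
  intro x
  refine ⟨∑ j, (Polynomial.C (x j)) • w j, ?_⟩
  funext j
  rw [ph_apply, Module.Basis.repr_sum_self, Polynomial.eval_C]

theorem ph_zero (c : k) (v : W) (h : ph w c v = 0) : ∃ v' : W, v = (X - C c : k[X]) • v' := by
  have h1 : ∀ j, ∃ q : k[X], w.repr v j = (X - C c) * q := by
    intro j
    have h2 : Polynomial.eval c (w.repr v j) = 0 := congrFun h j
    exact Polynomial.dvd_iff_isRoot.mpr h2
  choose q hq using h1
  refine ⟨∑ j, q j • w j, ?_⟩
  apply w.repr.injective
  ext j
  rw [map_smul, Finsupp.smul_apply, Module.Basis.repr_sum_self, hq, smul_eq_mul]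

theorem ph_mul (c : k) (v' : W) : ph w c ((X - C c : k[X]) • v') = 0 := by
  funext j
  rw [ph_apply, map_smul, Finsupp.smul_apply, smul_eq_mul, Polynomial.eval_mul]
  simp

theorem ac_ph (c : k) (a : ι → Module.End k[X] W) (i : ι) (v : W) :
    ac (fun i => LinearMap.toMatrix w w (a i)) c i (ph w c v) = ph w c (a i v) := by
  funext j
  unfold ac
  rw [Matrix.toLin'_apply, ph_apply]
  have h1 := congrFun (LinearMap.toMatrix_mulVec_repr w w (a i) v) j
  rw [← h1]
  unfold Matrix.mulVec dotProduct
  rw [Polynomial.eval_finset_sum]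
  refine Finset.sum_congr rfl fun l _ => ?_
  rw [Polynomial.eval_mul]
  rfl

theorem wd_ph (c : k) (a : ι → Module.End k[X] W) (s : List ι) : ∀ v : W,
    wd (ac (fun i => LinearMap.toMatrix w w (a i)) c) s (ph w c v) = ph w c (wd a s v) := by
  induction s with
  | nil => intro v; rfl
  | cons i s ih =>
    intro v
    show wd _ s (ac _ c i (ph w c v)) = ph w c (wd a s (a i v))
    rw [ac_ph, ih]

end A

theorem wd_rs {ι : Type} {A : Type u} [CommRing A] {N : Type u} [AddCommGroup N] [Module A N]
    (Y : ι → Module.End A N) {V : Submodule A N} (h : ∀ i, ∀ n ∈ V, Y i n ∈ V) (s : List ι) :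
    ∀ v : V, ((wd (rs Y h) s v : V) : N) = wd Y s (v : N) := by
  induction s with
  | nil => intro v; rfl
  | cons i s ih =>
    intro v
    show ((wd (rs Y h) s (rs Y h i v) : V) : N) = wd Y s (Y i (v : N))
    rw [ih]
    rfl

/-- Uniform bounds for the length of the words. -/
theorem unif {k : Type u} [Field k] {ι : Type} {V : Type u} [AddCommGroup V] [Module k V]
    (a : ι → Module.End k V) (K : Submodule k V) (hK : K.FG)
    (h : ∀ x ∈ K, ∃ m, ∀ s : List ι, m ≤ s.length → wd a s x = 0) :
    ∃ m, ∀ s : List ι, m ≤ s.length → ∀ x ∈ K, wd a s x = 0 := by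
  obtain ⟨S, hS⟩ := hK
  have hm : ∀ x : V, ∃ m, x ∈ K → ∀ s : List ι, m ≤ s.length → wd a s x = 0 := by
    intro x
    by_cases hx : x ∈ K
    · obtain ⟨m, hm⟩ := h x hx
      exact ⟨m, fun _ => hm⟩
    · exact ⟨0, fun h => absurd h hx⟩
  choose m hm using hm
  refine ⟨S.sup m, fun s hs x hx => ?_⟩
  rw [← hS] at hx
  induction hx using Submodule.span_induction with
  | mem x hx =>
    have hxK : x ∈ K := by
      rw [← hS]
      exact Submodule.subset_span hx
    exact hm x hxK s (le_trans (Finset.le_sup hx) hs)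
  | zero => exact map_zero _
  | add x y _ _ hx hy => rw [map_add, hx, hy, add_zero]
  | smul r x _ hx => rw [map_smul, hx, smul_zero]

end SPEC_

theorem p_SPEC (h1 : T_DET.{u}) : T_SPEC.{u} := by
  intro k _ ι _ M N U _ _ _ _ _ _ _ _ _ ε Y Z htf hX hε hker hYZ W hW b hst
  have hfin : Module.Finite k[X] W := Module.Finite.iff_fg.mpr hW.fg
  have htor : Module.IsTorsionFree k[X] W := by
    refine Module.IsTorsionFree.of_smul_eq_zero fun r m h => ?_
    have h2 : r • (m : M) = 0 := by
      rw [← Submodule.coe_smul, h, Submodule.coe_zero]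
    rcases htf r m h2 with h3 | h3
    · exact Or.inl h3
    · exact Or.inr (Subtype.ext h3)
  obtain ⟨r, w⟩ := Module.basisOfFiniteTypeTorsionFree' (R := k[X]) (M := W)
  set v := Module.finBasis k U with hv
  -- divisible vectors
  have hdiv : ∀ (c : k) (x : W) (n : M), (x : M) = (X - C c : k[X]) • n →
      ∃ m, ∀ s : List ι, m ≤ s.length → SPEC_.ph w c (wd (rs Y hW.st) s x) = 0 := by
    intro c x n hn
    obtain ⟨m, hm⟩ := hW.ab n
    refine ⟨m, fun s hs => ?_⟩
    have h2 : wd (rs Y hW.st) s x = (X - C c : k[X]) • (⟨wd Y s n, hm s hs⟩ : W) := by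
      apply Subtype.ext
      rw [SPEC_.wd_rs, hn, map_smul]
      rfl
    rw [h2]
    exact SPEC_.ph_mul w c _
  constructor
  · rw [SPEC_.spec_det w v]
    have hz : ∀ x ∈ (⊤ : Submodule k (Fin r → k)), ∃ m, ∀ s : List ι, m ≤ s.length →
        wd (SPEC_.ac (fun i => LinearMap.toMatrix w w (rs Y hW.st i)) 0) s x = 0 := by
      intro x _
      obtain ⟨y, rfl⟩ := SPEC_.ph_surj w 0 x
      obtain ⟨n, hn⟩ := hX (y : M)
      obtain ⟨m, hm⟩ := hdiv 0 y n (by rw [← hn, map_zero, sub_zero])
      refine ⟨m, fun s hs => ?_⟩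
      rw [SPEC_.wd_ph]
      exact hm s hs
    obtain ⟨m, hm⟩ := SPEC_.unif _ ⊤ Module.Finite.fg_top hz
    have h3 := h1 (k := k) (V := Fin r → k) (V' := PUnit.{u + 1}) (W := U)
      (SPEC_.ac (fun i => LinearMap.toMatrix w w (rs Y hW.st i)) 0) (fun _ => 0) b 0
      (fun _ _ => Subsingleton.elim _ _) m (fun s hs x _ => hm s hs x trivial)
      (fun s _ v' => ⟨0, Subsingleton.elim _ _⟩)
    rw [h3]
    unfold pdet
    simp
  · rw [SPEC_.spec_det w v]
    -- the map to the fibre
    let ψ : W →ₗ[k] ((W.restrictScalars k).map ε) :=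
      { toFun := fun x => ⟨ε (x : M), Submodule.mem_map_of_mem (by exact x.2)⟩
        map_add' := fun x y => Subtype.ext (by simp)
        map_smul' := fun c x => Subtype.ext (by simp) }
    have hψ : ∀ x : W, ((ψ x : (W.restrictScalars k).map ε) : N) = ε (x : M) := fun _ => rfl
    have hkψ : ∀ x : W, SPEC_.ph w 1 x = 0 → ψ x = 0 := by
      intro x hx
      obtain ⟨y, rfl⟩ := SPEC_.ph_zero w 1 x hx
      apply Subtype.ext
      rw [hψ, Submodule.coe_smul, map_one, sub_smul, one_smul, map_sub, hε, sub_self]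
      rfl
    obtain ⟨sec, hsec⟩ := (SPEC_.ph w 1).exists_rightInverse_of_surjective
      (LinearMap.range_eq_top.mpr (SPEC_.ph_surj w 1))
    have hsec' : ∀ x, SPEC_.ph w 1 (sec x) = x := fun x => LinearMap.congr_fun hsec x
    let h : (Fin r → k) →ₗ[k] ((W.restrictScalars k).map ε) := ψ ∘ₗ sec
    have hph : ∀ x : W, h (SPEC_.ph w 1 x) = ψ x := by
      intro x
      have h2 : ψ (sec (SPEC_.ph w 1 x) - x) = 0 := by
        apply hkψ
        rw [map_sub, hsec', sub_self]
      rw [map_sub] at h2
      exact sub_eq_zero.mp h2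
    have hsurj : Function.Surjective h := by
      rintro ⟨y, hy⟩
      obtain ⟨x, hx, rfl⟩ := Submodule.mem_map.mp hy
      refine ⟨SPEC_.ph w 1 ⟨x, hx⟩, ?_⟩
      rw [hph]
      rfl
    have hfd : FiniteDimensional k ((W.restrictScalars k).map ε) :=
      Module.Finite.of_surjective h hsurj
    have hcomm : ∀ i x, h (SPEC_.ac (fun i => LinearMap.toMatrix w w (rs Y hW.st i)) 1 i x) =
        rs Z hst i (h x) := by
      intro i x
      obtain ⟨y, rfl⟩ := SPEC_.ph_surj w 1 x
      rw [SPEC_.ac_ph, hph, hph]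
      apply Subtype.ext
      exact hYZ i (y : M)
    have hz : ∀ x ∈ LinearMap.ker h, ∃ m, ∀ s : List ι, m ≤ s.length →
        wd (SPEC_.ac (fun i => LinearMap.toMatrix w w (rs Y hW.st i)) 1) s x = 0 := by
      intro x hx
      obtain ⟨y, rfl⟩ := SPEC_.ph_surj w 1 x
      rw [LinearMap.mem_ker, hph] at hx
      have h2 : ε (y : M) = 0 := by
        rw [← hψ, hx]
        rfl
      obtain ⟨n, hn⟩ := hker _ h2
      obtain ⟨m, hm⟩ := hdiv 1 y n (by rw [hn, map_one])
      refine ⟨m, fun s hs => ?_⟩
      rw [SPEC_.wd_ph]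
      exact hm s hs
    obtain ⟨m, hm⟩ := SPEC_.unif _ (LinearMap.ker h) (IsNoetherian.noetherian _) hz
    exact h1 _ _ b h hcomm m (fun s hs x hx => hm s hs x hx)
      (fun s _ v' => by
        obtain ⟨x, hx⟩ := hsurj (wd (rs Z hst) s v')
        exact ⟨x, hx.symm⟩)

end Pool.Agent.IDP
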