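import Pool.Agent.IDP.Targets

/-!
# IDP: relations after prolongation
-/

set_option autoImplicit false
set_option linter.unusedVariables false

universe u

namespace Pool.Agent.IDP

open CKS TensorProduct Polynomial

namespace STAR_

section A

variable {k : Type u} [Field k] {V E : Type} {G : CKS.Graph V E}

/-- being a path (possibly empty) -/
abbrev Ch (G : CKS.Graph V E) (q : List E) : Prop := q.IsChain (fun e f => G.r e = G.s f)

theorem yw_zero {q : List E} (h : ¬ Ch G q) : (yw q : LPA k G) = 0 := by
  induction q with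
  | nil => exact absurd List.isChain_nil h
  | cons e l ih =>
    rcases l with _ | ⟨f, l⟩
    · exact absurd (List.isChain_singleton _) h
    · by_cases h1 : Ch G (f :: l)
      · have h2 : ¬ G.r e = G.s f := fun h2 => h (List.isChain_cons_cons.2 ⟨h2, h1⟩)
        rw [yw_cons, yw_cons, mul_assoc, gh_gh (fun h3 => h2 h3.symm), mul_zero]
      · rw [yw_cons, ih h1, zero_mul]

theorem exists_L [Nonempty V] (h2 : T_IND.{u}) (hG : NoSink G) :
    ∃ L : LPA k G →ₗ[k] (List E →₀ k), ∀ q : List E, Ch G q → L (yw q) = Finsupp.single q 1 := by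
  have hli := h2 k G hG
  obtain ⟨g, hg⟩ := LinearMap.exists_extend
    ((Finsupp.lmapDomain k k (Subtype.val : {q : List E // Ch G q} → List E)) ∘ₗ hli.repr)
  refine ⟨g, fun q hq => ?_⟩
  have h3 := LinearMap.congr_fun hg ⟨yw q, Submodule.subset_span ⟨⟨q, hq⟩, rfl⟩⟩
  have h4 := hli.repr_eq_single ⟨q, hq⟩ ⟨yw q, Submodule.subset_span ⟨⟨q, hq⟩, rfl⟩⟩ rfl
  rw [LinearMap.comp_apply, LinearMap.comp_apply, h4] at h3
  rw [Submodule.subtype_apply] at h3
  rw [h3]
  simp

variable {A : Type u} [CommRing A] [Algebra k A] {N : Type u} [AddCommGroup N] [Module k N]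
  [Module A N] [IsScalarTower k A N] (W : Submodule A N)

/-- coefficients times a vector -/
noncomputable def Th (k : Type u) [Field k] (E : Type) {A : Type u} [CommRing A] [Algebra k A]
    {N : Type u} [AddCommGroup N] [Module k N] [Module A N] [IsScalarTower k A N]
    (W : Submodule A N) : (List E →₀ k) →ₗ[k] (W →ₗ[A] (List E →₀ W)) :=
  Finsupp.linearCombination k (fun q : List E => (Finsupp.lsingle q : W →ₗ[A] (List E →₀ W)))

theorem Th_single (q : List E) (v : W) : Th k E W (Finsupp.single q 1) v = Finsupp.single q v := by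
  rw [Th, Finsupp.linearCombination_single, one_smul]
  rfl

theorem Th_apply (f : List E →₀ k) (v : W) (u : List E) : Th k E W f v u = f u • v := by
  classical
  induction f using Finsupp.induction_linear with
  | zero => simp
  | add f g hf hg =>
    rw [map_add, LinearMap.add_apply, Finsupp.add_apply, hf, hg, Finsupp.add_apply, add_smul]
  | single q c =>
    rw [Th, Finsupp.linearCombination_single, LinearMap.smul_apply, Finsupp.smul_apply,
      Finsupp.lsingle_apply, Finsupp.single_apply, Finsupp.single_apply]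
    by_cases h : q = u <;> simp [h]

section L

variable {W} (L : LPA k G →ₗ[k] (List E →₀ k))
  (hL : ∀ q : List E, Ch G q → L (yw q) = Finsupp.single q 1)

include hL

theorem a1 {z : LPA k G} (hz : z ∈ Submodule.span k ((yw : List E → LPA k G) '' {q | 1 ≤ q.length}))
    (v : W) : Th k E W (L z) v ∈ Finsupp.supported W A {u | Gd G u} := by
  induction hz using Submodule.span_induction with
  | mem x hx =>
    obtain ⟨u, hu, rfl⟩ := hx
    by_cases h : Ch G u
    · rw [hL u h, Th_single]
      refine Finsupp.single_mem_supported A v ?_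
      refine ⟨?_, h⟩
      rintro rfl
      simp at hu
    · rw [yw_zero h, map_zero, map_zero, LinearMap.zero_apply]
      exact Submodule.zero_mem _
  | zero =>
    rw [map_zero, map_zero, LinearMap.zero_apply]
    exact Submodule.zero_mem _
  | add x y _ _ hx hy =>
    rw [map_add, map_add, LinearMap.add_apply]
    exact Submodule.add_mem _ hx hy
  | smul c x _ hx =>
    rw [map_smul, map_smul, LinearMap.smul_apply, ← algebraMap_smul A c]
    exact Submodule.smul_mem _ _ hx

theorem a2 {z : LPA k G} (hz : z ∈ Submodule.span k ((yw : List E → LPA k G) '' {q | 1 ≤ q.length}))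
    (q : List E) (v : W) : Th k E W (L (yw q * z)) v = Sh G W q (Th k E W (L z) v) := by
  classical
  induction hz using Submodule.span_induction with
  | mem x hx =>
    obtain ⟨u, hu, rfl⟩ := hx
    have hu0 : u ≠ [] := by
      rintro rfl
      simp at hu
    by_cases h : Ch G u
    · rw [hL u h, Th_single, ← yw_append]
      have h5 : Sh G W q (Finsupp.single u v) =
          if Gd G (u ++ q) then Finsupp.single (u ++ q) v else 0 := by
        rw [Sh, Finsupp.lsum_single]
        by_cases h6 : Gd G (u ++ q)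
        · rw [if_pos h6, if_pos h6]; rfl
        · rw [if_neg h6, if_neg h6]; rfl
      rw [h5]
      by_cases h6 : Ch G (u ++ q)
      · rw [hL _ h6, Th_single, if_pos ⟨by simp [hu0], h6⟩]
      · rw [yw_zero h6, map_zero, map_zero, LinearMap.zero_apply, if_neg fun h7 => h6 h7.2]
    · rw [yw_zero h, mul_zero, map_zero, map_zero, LinearMap.zero_apply, map_zero]
  | zero =>
    rw [mul_zero, map_zero, map_zero, LinearMap.zero_apply, map_zero]
  | add x y _ _ hx hy =>
    rw [mul_add, map_add, map_add, LinearMap.add_apply, hx, hy, map_add, map_add,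
      LinearMap.add_apply, map_add]
  | smul c x _ hx =>
    rw [mul_smul_comm, map_smul, map_smul, LinearMap.smul_apply, hx, map_smul, map_smul,
      LinearMap.smul_apply, ← algebraMap_smul A c, ← algebraMap_smul A c, map_smul]

theorem a3 (ρ : LPA k G →ₐ[k] Module.End A N) {z : LPA k G}
    (hz : z ∈ Submodule.span k ((yw : List E → LPA k G) '' {q | 1 ≤ q.length}))
    (v : W) : ev ρ W (Th k E W (L z) v) = ρ z v := by
  induction hz using Submodule.span_induction with
  | mem x hx =>
    obtain ⟨u, hu, rfl⟩ := hx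
    by_cases h : Ch G u
    · rw [hL u h, Th_single, ev, Finsupp.lsum_single]
      rfl
    · rw [yw_zero h, map_zero, map_zero, LinearMap.zero_apply, map_zero, map_zero,
        LinearMap.zero_apply]
  | zero =>
    rw [map_zero, map_zero, LinearMap.zero_apply, map_zero, map_zero, LinearMap.zero_apply]
  | add x y _ _ hx hy =>
    rw [map_add, map_add, LinearMap.add_apply, map_add, hx, hy, map_add, LinearMap.add_apply]
  | smul c x _ hx =>
    rw [map_smul, map_smul, LinearMap.smul_apply, ← algebraMap_smul A c, map_smul, hx, map_smul,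
      LinearMap.smul_apply, algebraMap_smul]

end L

/-- functions vanishing on all long words -/
def Nz (E : Type) (A : Type u) [CommRing A] (P : Type u) [AddCommGroup P] [Module A P] :
    Submodule A (List E → P) where
  carrier := {f | ∃ m, ∀ w : List E, m ≤ w.length → f w = 0}
  zero_mem' := ⟨0, fun _ _ => rfl⟩
  add_mem' := by
    rintro f g ⟨m, hm⟩ ⟨n, hn⟩
    refine ⟨max m n, fun w hw => ?_⟩
    rw [Pi.add_apply, hm w (le_trans (le_max_left _ _) hw),
      hn w (le_trans (le_max_right _ _) hw), add_zero]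
  smul_mem' := by
    rintro c f ⟨m, hm⟩
    refine ⟨m, fun w hw => ?_⟩
    rw [Pi.smul_apply, hm w hw, smul_zero]

/-- the bilinear map -/
noncomputable def BB (ρ : LPA k G →ₐ[k] Module.End A N) (D : ℕ)
    (L : LPA k G →ₗ[k] (List E →₀ k)) :
    LPA k G →ₗ[k] (W →ₗ[A] ((List E → ((List E →₀ W) ⧸ SS ρ W D)) ⧸
      Nz E A ((List E →₀ W) ⧸ SS ρ W D))) where
  toFun a := (Submodule.mkQ _) ∘ₗ
    (LinearMap.pi fun w => (Submodule.mkQ (SS ρ W D)) ∘ₗ Th k E W (L (yw w * a)))
  map_add' a b := by
    refine LinearMap.ext fun v => ?_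
    rw [LinearMap.add_apply, LinearMap.comp_apply, LinearMap.comp_apply, LinearMap.comp_apply,
      ← map_add]
    refine congrArg _ (funext fun w => ?_)
    simp only [LinearMap.pi_apply, LinearMap.comp_apply, Pi.add_apply, mul_add, map_add,
      LinearMap.add_apply]
  map_smul' c a := by
    refine LinearMap.ext fun v => ?_
    rw [RingHom.id_apply, LinearMap.smul_apply, LinearMap.comp_apply, LinearMap.comp_apply]
    refine Eq.trans ?_ (algebraMap_smul A c _)
    rw [← map_smul (Submodule.mkQ _) (algebraMap k A c)]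
    refine congrArg _ (funext fun w => ?_)
    rw [Pi.smul_apply, LinearMap.pi_apply, LinearMap.pi_apply, LinearMap.comp_apply,
      LinearMap.comp_apply, mul_smul_comm, map_smul, map_smul, LinearMap.smul_apply,
      ← map_smul (Submodule.mkQ _) (algebraMap k A c)]
    refine congrArg _ (algebraMap_smul A c _).symm

end A

end STAR_

open STAR_ in
/-- STAR. -/
theorem p_STAR (h1 : T_GHOST.{u}) (h2 : T_IND.{u}) : T_STAR.{u} := by
  intro k _ V E _ _ G hG A _ _ N _ _ _ _ ρ W ι _ ξ η hst hsum hP
  classical
  by_cases hV : Nonempty V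
  swap
  · refine ⟨0, fun D _ i c _ _ => ⟨0, fun w _ => ?_⟩⟩
    have h10 : (1 : LPA k G) = 0 := by
      rw [← one_rel]
      refine Finset.sum_eq_zero fun a _ => absurd ⟨a⟩ hV
    have hN : ∀ n : N, n = 0 := by
      intro n
      have h3 : ρ 1 n = n := by rw [map_one]; rfl
      rw [← h3, h10, map_zero]
      rfl
    have hc : c = 0 := Finsupp.ext fun u => Subtype.ext (hN _)
    rw [hc, map_zero]
    exact Submodule.zero_mem _
  obtain ⟨L, hL⟩ := exists_L (k := k) h2 hG
  -- the length l
  have hgh : ∀ i, ∃ m, ∀ w : List E, m ≤ w.length →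
      (yw w * ξ i : LPA k G) ∈ Submodule.span k ((yw : List E → LPA k G) '' {q | 1 ≤ q.length}) :=
    fun i => h1 k G (ξ i) 1
  choose m hm using hgh
  obtain ⟨l, hl1, hl⟩ : ∃ l, 1 ≤ l ∧ ∀ i, m i ≤ l :=
    ⟨max 1 (Finset.univ.sup m), le_max_left _ _, fun i =>
      le_trans (Finset.le_sup (Finset.mem_univ i)) (le_max_right _ _)⟩
  have hz1 : ∀ q : List E, l ≤ q.length →
      (yw q : LPA k G) ∈ Submodule.span k ((yw : List E → LPA k G) '' {q | 1 ≤ q.length}) :=
    fun q hq => Submodule.subset_span ⟨q, le_trans hl1 hq, rfl⟩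
  have hz2 : ∀ i, ∀ q : List E, l ≤ q.length →
      (yw q * ξ i : LPA k G) ∈ Submodule.span k ((yw : List E → LPA k G) '' {q | 1 ≤ q.length}) :=
    fun i q hq => hm i q (le_trans (hl i) hq)
  -- the element rho
  let ro : LPA k G → W → (List E →₀ W) := fun z v =>
    Th k E W (L z) v - ∑ i, Th k E W (L (z * ξ i)) (rs (fun i => ρ (η i)) hst i v)
  have hro1 : ∀ q : List E, l ≤ q.length → ∀ v : W, ev ρ W (ro (yw q) v) = 0 := by
    intro q hq v
    simp only [ro]
    rw [map_sub, map_sum, a3 L hL ρ (hz1 q hq)]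
    simp only [a3 L hL ρ (hz2 _ q hq)]
    have h3 : ∀ i, ρ (yw q * ξ i) (rs (fun i => ρ (η i)) hst i v : W) =
        ρ (yw q) (ρ (ξ i) (ρ (η i) (v : N))) := by
      intro i
      rw [map_mul, Module.End.mul_apply]
      rfl
    simp only [h3]
    rw [← map_sum, ← hsum v v.2, sub_self]
  have hro2 : ∀ q : List E, l ≤ q.length → ∀ (q' : List E) (v : W),
      ro (yw (q ++ q')) v = Sh G W q' (ro (yw q) v) := by
    intro q hq q' v
    simp only [ro]
    rw [map_sub, map_sum, yw_append, a2 L hL (hz1 q hq)]
    congr 1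
    refine Finset.sum_congr rfl fun i _ => ?_
    rw [mul_assoc, a2 L hL (hz2 i q hq)]
  have hro3 : ∀ q : List E, l ≤ q.length → ∀ v : W,
      ro (yw q) v ∈ Finsupp.supported W A {u | Gd G u} := by
    intro q hq v
    exact Submodule.sub_mem _ (a1 L hL (hz1 q hq) v)
      (Submodule.sum_mem _ fun i _ => a1 L hL (hz2 i q hq) _)
  -- the bound D0
  have hfin : Set.Finite (⋃ q ∈ {q : List E | q.length = l},
      (((L (yw q)).support ∪ Finset.univ.biUnion fun i => (L (yw q * ξ i)).support : Finset (List E))
        : Set (List E))) :=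
    Set.Finite.biUnion (List.finite_length_eq E l) fun q _ => Finset.finite_toSet _
  obtain ⟨D0, hD0⟩ : ∃ D0, ∀ u ∈ (⋃ q ∈ {q : List E | q.length = l},
      (((L (yw q)).support ∪ Finset.univ.biUnion fun i => (L (yw q * ξ i)).support : Finset (List E))
        : Set (List E))), u.length ≤ D0 :=
    ⟨hfin.toFinset.sup List.length, fun u hu => Finset.le_sup (f := List.length)
      (hfin.mem_toFinset.2 hu)⟩
  refine ⟨D0, fun D hD => ?_⟩
  have hro4 : ∀ q : List E, q.length = l → ∀ v : W, ro (yw q) v ∈ KK ρ W D := by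
    intro q hq v
    refine ⟨?_, hro1 q hq.ge v⟩
    refine (Finsupp.mem_supported A _).2 fun u hu => ?_
    refine ⟨(Finsupp.mem_supported A _).1 (hro3 q hq.ge v) hu, le_trans (hD0 u ?_) hD⟩
    rw [Set.mem_iUnion₂]
    refine ⟨q, hq, ?_⟩
    rw [Finset.mem_coe, Finset.mem_union, Finset.mem_biUnion]
    by_contra hne
    push Not at hne
    obtain ⟨hne1, hne2⟩ := hne
    refine Finsupp.mem_support_iff.1 (Finset.mem_coe.1 hu) ?_
    simp only [ro]
    rw [Finsupp.sub_apply, Finsupp.finsetSum_apply, Th_apply, Finsupp.notMem_support_iff.1 hne1,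
      zero_smul, zero_sub, neg_eq_zero]
    refine Finset.sum_eq_zero fun i _ => ?_
    rw [Th_apply, Finsupp.notMem_support_iff.1 (hne2 i (Finset.mem_univ i)), zero_smul]
  have hro5 : ∀ q : List E, l ≤ q.length → ∀ v : W, ro (yw q) v ∈ SS ρ W D := by
    intro q hq v
    have h3 : q.take l ++ q.drop l = q := List.take_append_drop l q
    have h4 : (q.take l).length = l := by rw [List.length_take]; omega
    rw [← h3, hro2 _ h4.ge]
    exact Submodule.mem_iSup_of_mem (q.drop l)
      (Submodule.mem_map_of_mem (hro4 _ h4 v))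
  have hro6 : ∀ z ∈ Submodule.span k ((yw : List E → LPA k G) '' {q | l ≤ q.length}),
      ∀ v : W, ro z v ∈ SS ρ W D := by
    intro z hz v
    induction hz using Submodule.span_induction with
    | mem x hx =>
      obtain ⟨q, hq, rfl⟩ := hx
      exact hro5 q hq v
    | zero =>
      simp only [ro, zero_mul, map_zero, LinearMap.zero_apply, Finset.sum_const_zero, sub_zero]
      exact Submodule.zero_mem _
    | add x y _ _ hx hy =>
      have h3 : ro (x + y) v = ro x v + ro y v := by
        simp only [ro, add_mul, map_add, LinearMap.add_apply, Finset.sum_add_distrib]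
        abel
      rw [h3]
      exact Submodule.add_mem _ hx hy
    | smul c x _ hx =>
      have h3 : ro (c • x) v = (algebraMap k A c) • ro x v := by
        simp only [ro, smul_mul_assoc, map_smul, LinearMap.smul_apply, smul_sub,
          Finset.smul_sum, algebraMap_smul]
      rw [h3]
      exact Submodule.smul_mem _ _ hx
  -- the universal property
  obtain ⟨h, hh⟩ := hP _ (BB W ρ D L) (by
    intro a v
    obtain ⟨M, hM⟩ := h1 k G a l
    rw [← sub_eq_zero]
    simp only [BB, LinearMap.coe_mk, AddHom.coe_mk, LinearMap.comp_apply]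
    rw [← map_sum, ← map_sub, Submodule.mkQ_apply, Submodule.Quotient.mk_eq_zero]
    refine ⟨M, fun w hw => ?_⟩
    have h4 := hro6 _ (hM w hw) v
    rw [Pi.sub_apply, Finset.sum_apply]
    simp only [LinearMap.pi_apply, LinearMap.comp_apply]
    rw [← map_sum, ← map_sub, Submodule.mkQ_apply, Submodule.Quotient.mk_eq_zero]
    simp only [ro, mul_assoc] at h4
    exact h4)
  intro i c hc hev
  have h5 : h (ev ρ W c) = c.sum fun w n => BB W ρ D L (yw w) n := by
    rw [ev, Finsupp.lsum_apply, Finsupp.sum, map_sum, Finsupp.sum]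
    refine Finset.sum_congr rfl fun w _ => ?_
    rw [LinearMap.comp_apply, Submodule.subtype_apply, hh]
  rw [hev, map_zero] at h5
  have h6 : (c.sum fun w n => BB W ρ D L (yw w) n) = Submodule.mkQ _
      (fun w' : List E => Submodule.mkQ (SS ρ W D)
        (c.sum fun w n => Th k E W (L (yw w' * yw w)) n)) := by
    rw [Finsupp.sum]
    simp only [BB, LinearMap.coe_mk, AddHom.coe_mk, LinearMap.comp_apply]
    rw [← map_sum]
    congr 1
    funext w'
    rw [Finset.sum_apply]
    simp only [LinearMap.pi_apply, LinearMap.comp_apply]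
    rw [← map_sum, Finsupp.sum]
  rw [h6] at h5
  obtain ⟨M, hM⟩ := (Submodule.Quotient.mk_eq_zero _).1 h5.symm
  refine ⟨M, fun w' hw' => ?_⟩
  have h7 := (Submodule.Quotient.mk_eq_zero _).1 (hM w' hw')
  have h8 : (c.sum fun w n => Th k E W (L (yw w' * yw w)) n) = Sh G W w' c := by
    conv_rhs => rw [← Finsupp.sum_single c]
    rw [Finsupp.sum, Finsupp.sum, map_sum]
    refine Finset.sum_congr rfl fun w hw => ?_
    have h9 : Gd G w := ((Finsupp.mem_supported A _).1 hc (Finset.mem_coe.2 hw)).1
    have h10 : 1 ≤ w.length := List.length_pos_iff.2 h9.1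
    rw [a2 L hL (Submodule.subset_span ⟨w, h10, rfl⟩), hL w h9.2, Th_single]
  rw [← h8]
  exact h7

end Pool.Agent.IDP
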