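import Pool.Agent.IDP.Targets

/-!
# TOR: the top quotient is torsion
-/

set_option autoImplicit false

universe u

namespace Pool.Agent.IDP

open CKS

namespace TOR_

section Words

variable {k : Type u} [Field k] {V E : Type} {G : CKS.Graph V E}

/-- The ghost word of a word which is no path is zero. -/
theorem yw_eq_zero : ∀ w : List E, ¬ w.IsChain (fun e f => G.r e = G.s f) →
    (yw w : LPA k G) = 0
  | [], h => absurd List.isChain_nil h
  | [e], h => absurd (List.isChain_singleton e) h
  | e :: f :: l, h => by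
    by_cases h1 : (f :: l).IsChain (fun e f => G.r e = G.s f)
    · have h2 : G.s f ≠ G.r e := by
        intro h3
        exact h (List.isChain_cons_cons.mpr ⟨h3.symm, h1⟩)
      rw [yw_cons, yw_cons, mul_assoc, gh_gh h2, mul_zero]
    · rw [yw_cons, yw_eq_zero (f :: l) h1, zero_mul]

theorem yw_cons_vt (e : E) (l : List E) : (yw (e :: l) * vt (G.s e) : LPA k G) = yw (e :: l) := by
  rw [yw_cons, mul_assoc, gh_s]

theorem yw_cons_vt_ne {e : E} {v : V} (h : G.s e ≠ v) (l : List E) :
    (yw (e :: l) * vt v : LPA k G) = 0 := by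
  rw [yw_cons, mul_assoc, gh_vt h, mul_zero]

/-- The unit is the sum of the range projections of all edges. -/
theorem sum_ed_gh [Fintype V] [Fintype E] (hns : NoSink G) :
    (∑ e, ed e * gh e : LPA k G) = 1 := by
  classical
  rw [← one_rel (k := k) (G := G) (Reg := G.IsReg)]
  rw [← Finset.sum_fiberwise Finset.univ (fun e => G.s e)]
  refine Finset.sum_congr rfl fun a _ => ?_
  exact ck_rel (k := k) (G := G) (Reg := G.IsReg) (hns a) _ fun e => by simp

/-- An element killed by all ghost words of a given length is zero. -/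
theorem eq_zero_of_yw [Fintype V] [Fintype E] (hns : NoSink G) :
    ∀ (M : ℕ) (x : LPA k G), (∀ w : List E, w.length = M → yw w * x = 0) → x = 0 := by
  intro M
  induction M with
  | zero =>
    intro x hx
    have := hx [] rfl
    rwa [yw_nil, one_mul] at this
  | succ M ih =>
    intro x hx
    have h1 : ∀ e : E, gh e * x = 0 := by
      intro e
      refine ih _ fun w hw => ?_
      rw [← mul_assoc, ← yw_cons]
      exact hx (e :: w) (by simp [hw])
    rw [← one_mul x, ← sum_ed_gh hns, Finset.sum_mul]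
    refine Finset.sum_eq_zero fun e _ => ?_
    rw [mul_assoc, h1, mul_zero]

end Words

section Filt

variable {k : Type u} [Field k] {V E : Type} {G : CKS.Graph V E}
variable {A : Type u} [CommRing A] [Algebra k A] {N : Type u} [AddCommGroup N] [Module k N]
  [Module A N] [IsScalarTower k A N] (ρ : LPA k G →ₐ[k] Module.End A N) (W : Submodule A N)

theorem ev_single (w : List E) (n : W) : ev ρ W (Finsupp.single w n) = ρ (yw w) n := by
  simp [ev]

theorem yw_mem_UU {i : ℕ} {w : List E} (hw : w.length ≤ i) (hw0 : w ≠ []) {n : N} (hn : n ∈ W) :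
    ρ (yw w) n ∈ UU ρ W i := by
  by_cases hc : w.IsChain (fun e f => G.r e = G.s f)
  · refine ⟨Finsupp.single w ⟨n, hn⟩, ?_, ev_single ρ W w ⟨n, hn⟩⟩
    exact Finsupp.single_mem_supported A _ ⟨⟨hw0, hc⟩, hw⟩
  · rw [yw_eq_zero w hc, map_zero, LinearMap.zero_apply]
    exact Submodule.zero_mem _

theorem UU_mono {i j : ℕ} (h : i ≤ j) : UU ρ W i ≤ UU ρ W j := by
  refine Submodule.map_mono (Finsupp.supported_mono ?_)
  rintro w ⟨h1, h2⟩
  exact ⟨h1, h2.trans h⟩

theorem yw_UU {i : ℕ} (q : List E) {z : N} (hz : z ∈ UU ρ W i) :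
    ρ (yw q) z ∈ UU ρ W (i + q.length) := by
  obtain ⟨c, hc, rfl⟩ := hz
  have h1 : ev ρ W c = ∑ w ∈ c.support, ρ (yw w) (c w : N) := by
    simp [ev, Finsupp.sum]
  rw [h1, map_sum]
  refine Submodule.sum_mem _ fun w hw => ?_
  have hw' : Gd G w ∧ w.length ≤ i := hc hw
  have h2 : ρ (yw q) (ρ (yw w) (c w : N)) = ρ (yw (w ++ q)) (c w : N) := by
    rw [yw_append, map_mul, Module.End.mul_apply]
  rw [h2]
  refine yw_mem_UU ρ W ?_ ?_ (c w).2
  · rw [List.length_append]
    omega
  · intro h0
    exact hw'.1.1 (List.append_eq_nil_iff.mp h0).1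

theorem rho_wl {ι : Type} (η : ι → LPA k G) :
    ∀ γ : List ι, ρ (wl η γ) = wd (fun i => ρ (η i)) γ
  | [] => by simp [wl, wd]
  | i :: γ => by
    have h1 : wl η (i :: γ) = wl η γ * η i := by simp [wl]
    rw [h1, map_mul, rho_wl η γ]
    rfl

end Filt

end TOR_

open TOR_ in
/-- TOR. The top quotient is torsion. -/
theorem p_TOR (h_GHOST : T_GHOST.{u}) : T_TOR.{u} := by
  intro k _ V E _ _ G hns A _ _ _ N _ _ _ _ ρ W hWfg ι _ η hab hinf D hKp v z hz hvz
  classical
  by_contra hcon
  have hcon' : ∀ a : A, a ≠ 0 → a • z ∉ UU ρ W D := fun a ha h => hcon ⟨a, ha, h⟩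
  by_cases hv0 : (vt v : LPA k G) = 0
  · have hz0 : z = 0 := by rw [← hvz, hv0, map_zero, LinearMap.zero_apply]
    exact hcon' 1 one_ne_zero (by rw [hz0, smul_zero]; exact Submodule.zero_mem _)
  obtain ⟨m, hm⟩ := hab z
  obtain ⟨S, hS⟩ := hWfg
  obtain ⟨b, hbi, hbs⟩ := hinf (vt v) hv0 m (S.card + 1)
  have hbv : ∀ i, b i * vt v = b i := by
    intro i
    refine Submodule.span_induction (p := fun x _ => x * vt v = x) ?_ ?_ ?_ ?_ (hbs i)
    · rintro x ⟨γ, _, rfl⟩
      rw [mul_assoc, vt_idem]
    · rw [zero_mul]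
    · intro x y _ _ hx hy
      rw [add_mul, hx, hy]
    · intro c x _ hx
      rw [smul_mul_assoc, hx]
  have hbW : ∀ i, ρ (b i) z ∈ W := by
    intro i
    refine Submodule.span_induction (p := fun x _ => ρ x z ∈ W) ?_ ?_ ?_ ?_ (hbs i)
    · rintro x ⟨γ, hγ, rfl⟩
      rw [map_mul, Module.End.mul_apply, hvz, rho_wl]
      exact hm γ hγ
    · rw [map_zero, LinearMap.zero_apply]
      exact W.zero_mem
    · intro x y _ _ hx hy
      rw [map_add, LinearMap.add_apply]
      exact W.add_mem hx hy
    · intro c x _ hx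
      rw [map_smul, LinearMap.smul_apply]
      exact W.smul_of_tower_mem c hx
  -- dependence over `A`
  obtain ⟨a, ha, i0, hi0⟩ : ∃ a : Fin (S.card + 1) → A,
      ∑ i, a i • ρ (b i) z = 0 ∧ ∃ i, a i ≠ 0 := by
    by_contra hne
    have hli : LinearIndependent A (fun i => ρ (b i) z) := by
      by_contra h
      exact hne (Fintype.not_linearIndependent_iff.mp h)
    have h1 := linearIndependent_le_span' (fun i => ρ (b i) z) hli (S : Set N) (by
      rintro _ ⟨i, rfl⟩
      rw [hS]
      exact hbW i)
    simp at h1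
  -- ghost words
  choose M hM using fun i => h_GHOST k G (b i) 1
  set M' := ∑ i, M i with hM'
  have hMi : ∀ i, M i ≤ M' := fun i =>
    Finset.single_le_sum (f := M) (fun _ _ => Nat.zero_le _) (Finset.mem_univ i)
  have hC : ∀ (w : List E), M' ≤ w.length → ∀ i, ∃ C : List E →₀ k,
      (∀ q ∈ C.support, Gd G q ∧ ∃ f q', q = f :: q' ∧ G.s f = v) ∧
      yw w * b i = C.sum fun q c => c • (yw q : LPA k G) := by
    intro w hw i
    have h1 := hM i w ((hMi i).trans hw)
    have h2 : ∀ x ∈ Submodule.span k ((yw : List E → LPA k G) '' {q | 1 ≤ q.length}),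
        x * vt v ∈ Submodule.span k ((yw : List E → LPA k G) ''
          {q | Gd G q ∧ ∃ f q', q = f :: q' ∧ G.s f = v}) := by
      intro x hx
      refine Submodule.span_induction (p := fun x _ => x * vt v ∈ Submodule.span k
        ((yw : List E → LPA k G) '' {q | Gd G q ∧ ∃ f q', q = f :: q' ∧ G.s f = v}))
        ?_ ?_ ?_ ?_ hx
      · rintro _ ⟨q, hq, rfl⟩
        rcases q with _ | ⟨f, q'⟩
        · simp at hq
        · by_cases hf : G.s f = v
          · by_cases hch : (f :: q').IsChain (fun e f => G.r e = G.s f)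
            · rw [← hf, yw_cons_vt]
              exact Submodule.subset_span
                ⟨f :: q', ⟨⟨List.cons_ne_nil _ _, hch⟩, f, q', rfl, rfl⟩, rfl⟩
            · rw [yw_eq_zero _ hch, zero_mul]
              exact Submodule.zero_mem _
          · rw [yw_cons_vt_ne hf]
            exact Submodule.zero_mem _
      · rw [zero_mul]
        exact Submodule.zero_mem _
      · intro x y _ _ hx hy
        rw [add_mul]
        exact Submodule.add_mem _ hx hy
      · intro c x _ hx
        rw [smul_mul_assoc]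
        exact Submodule.smul_mem _ c hx
    have h3 := h2 _ h1
    rw [mul_assoc, hbv] at h3
    obtain ⟨C, hC1, hC2⟩ := (Finsupp.mem_span_image_iff_linearCombination k).mp h3
    refine ⟨C, fun q hq => hC1 hq, ?_⟩
    rw [← hC2, Finsupp.linearCombination_apply]
  -- the key claim
  have key : ∀ w : List E, M' ≤ w.length → ∀ lam : A →ₗ[k] k,
      yw w * ∑ i, lam (a i) • b i = 0 := by
    intro w hw lam
    choose C hC1 hC2 using hC w hw
    set T : Finset (List E) := Finset.univ.biUnion fun i => (C i).support with hT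
    have hCT : ∀ i q, C i q ≠ 0 → q ∈ T := by
      intro i q hq
      exact Finset.mem_biUnion.mpr ⟨i, Finset.mem_univ i, Finsupp.mem_support_iff.mpr hq⟩
    have hTq : ∀ q ∈ T, Gd G q ∧ ∃ f q', q = f :: q' ∧ G.s f = v := by
      intro q hq
      obtain ⟨i, _, hi⟩ := Finset.mem_biUnion.mp hq
      exact hC1 i q hi
    have hC3 : ∀ i, yw w * b i = ∑ q ∈ T, C i q • (yw q : LPA k G) := by
      intro i
      rw [hC2 i]
      refine Finsupp.sum_of_support_subset _ ?_ _ fun q _ => zero_smul _ _
      intro q hq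
      exact Finset.mem_biUnion.mpr ⟨i, Finset.mem_univ i, hq⟩
    set μ : List E → A := fun q => ∑ i, C i q • a i with hμ
    have h0 : ∑ q ∈ T, μ q • ρ (yw q) z = 0 := by
      have h1 : ρ (yw w) (∑ i, a i • ρ (b i) z) = 0 := by rw [ha, map_zero]
      have h2 : ρ (yw w) (∑ i, a i • ρ (b i) z) = ∑ q ∈ T, μ q • ρ (yw q) z := by
        rw [map_sum]
        have h3 : ∀ i, ρ (yw w) (a i • ρ (b i) z) =
            ∑ q ∈ T, (C i q • a i) • ρ (yw q) z := by
          intro i
          rw [map_smul, ← Module.End.mul_apply, ← map_mul, hC3 i, map_sum,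
            LinearMap.sum_apply, Finset.smul_sum]
          refine Finset.sum_congr rfl fun q _ => ?_
          rw [map_smul, LinearMap.smul_apply, smul_assoc, smul_comm]
        rw [Finset.sum_congr rfl fun i _ => h3 i, Finset.sum_comm]
        refine Finset.sum_congr rfl fun q _ => ?_
        rw [hμ, Finset.sum_smul]
      rw [← h2, h1]
    have hμ0 : ∀ q ∈ T, μ q = 0 := by
      by_contra hne
      push Not at hne
      obtain ⟨q1, hq1, hq1'⟩ := hne
      obtain ⟨q0, hq0, hmax⟩ := Finset.exists_max_image (T.filter fun q => μ q ≠ 0)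
        (fun q => q.length) ⟨q1, Finset.mem_filter.mpr ⟨hq1, hq1'⟩⟩
      obtain ⟨hq0T, hq0μ⟩ := Finset.mem_filter.mp hq0
      obtain ⟨hGd, f, q', rfl, hfv⟩ := hTq q0 hq0T
      set j := q'.length with hj
      set c : List E →₀ N := Finsupp.onFinset T
        (fun q => if q.length = j + 1 ∧ q ∈ T then μ q • z else 0) (by
          intro q hq
          by_contra hqT
          exact hq (if_neg fun h => hqT h.2)) with hc
      have hcq : ∀ q, c q = if q.length = j + 1 ∧ q ∈ T then μ q • z else 0 := fun q => rfl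
      have h1 : ∀ w ∈ c.support, w.length = j + 1 := by
        intro w hw
        by_contra hlen
        rw [Finsupp.mem_support_iff, hcq, if_neg fun h => hlen h.1] at hw
        exact hw rfl
      have h2 : ∀ w, c w ∈ UU ρ W (D + 1) := by
        intro w
        rw [hcq]
        split_ifs
        · exact Submodule.smul_mem _ _ hz
        · exact Submodule.zero_mem _
      have h3 : (c.sum fun w n => ρ (yw w) n) ∈ UU ρ W (D + 1 + j) := by
        have h4 : (c.sum fun w n => ρ (yw w) n) = ∑ q ∈ T, ρ (yw q) (c q) :=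
          Finsupp.onFinset_sum _ fun q => map_zero _
        have h5 : ∑ q ∈ T, ρ (yw q) (c q) =
            -∑ q ∈ T, (if q.length = j + 1 then 0 else μ q • ρ (yw q) z) := by
          rw [eq_neg_iff_add_eq_zero, ← Finset.sum_add_distrib]
          refine Eq.trans (Finset.sum_congr rfl fun q hq => ?_) h0
          rw [hcq]
          by_cases hl : q.length = j + 1
          · rw [if_pos ⟨hl, hq⟩, if_pos hl, map_smul, add_zero]
          · rw [if_neg fun h => hl h.1, if_neg hl, map_zero, zero_add]
        rw [h4, h5]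
        refine Submodule.neg_mem _ (Submodule.sum_mem _ fun q hq => ?_)
        split_ifs with hl
        · exact Submodule.zero_mem _
        · by_cases hμq : μ q = 0
          · rw [hμq, zero_smul]
            exact Submodule.zero_mem _
          · have h6 := hmax q (Finset.mem_filter.mpr ⟨hq, hμq⟩)
            simp only [List.length_cons] at h6
            refine Submodule.smul_mem _ _ (UU_mono ρ W ?_ (yw_UU ρ W q hz))
            omega
      have h7 := hKp j c h1 h2 h3 f q' hGd hj.symm
      rw [hcq, if_pos ⟨by simp [hj], hq0T⟩, hfv, map_smul, hvz] at h7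
      exact hcon' _ hq0μ h7
    -- conclusion
    rw [Finset.mul_sum]
    have h8 : ∀ i, yw w * (lam (a i) • b i) =
        ∑ q ∈ T, (C i q * lam (a i)) • (yw q : LPA k G) := by
      intro i
      rw [mul_smul_comm, hC3 i, Finset.smul_sum]
      refine Finset.sum_congr rfl fun q _ => ?_
      rw [smul_smul, mul_comm]
    rw [Finset.sum_congr rfl fun i _ => h8 i, Finset.sum_comm]
    refine Finset.sum_eq_zero fun q hq => ?_
    rw [← Finset.sum_smul]
    have h9 : ∑ i, C i q * lam (a i) = lam (μ q) := by
      rw [hμ, map_sum]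
      exact Finset.sum_congr rfl fun i _ => by rw [map_smul, smul_eq_mul]
    rw [h9, hμ0 q hq, map_zero, zero_smul]
  -- a linear functional
  obtain ⟨lam, hlam⟩ : ∃ lam : A →ₗ[k] k, lam (a i0) ≠ 0 := by
    by_contra hne
    push Not at hne
    exact hi0 ((Module.forall_dual_apply_eq_zero_iff k (a i0)).mp hne)
  have hzero : ∑ i, lam (a i) • b i = 0 :=
    eq_zero_of_yw hns M' _ fun w hw => key w hw.ge lam
  exact hlam (Fintype.linearIndependent_iff.mp hbi (fun i => lam (a i)) hzero i0)

end Pool.Agent.IDP
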