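import Pool.Agent.IDP.Targets

/-!
# IDP: the target T_TRIV (a lattice in the trivial module)
-/

set_option autoImplicit false
set_option linter.unusedSectionVars false

universe u

namespace Pool.Agent.IDP

open CKS TensorProduct

namespace TRIV_

section

variable (k : Type u) [Field k] {V E : Type} (G : CKS.Graph V E)

open Classical in
/-- the indicator function of the paths starting at a vertex -/
noncomputable def ind (v : V) : lc k G :=
  ⟨fun x => if G.s (x.1 0) = v then 1 else 0, 1, fun x y h => by
    have h0 : x.1 0 = y.1 0 := h 0 Nat.zero_lt_one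
    show (if G.s (x.1 0) = v then (1 : k) else 0) = if G.s (y.1 0) = v then 1 else 0
    rw [h0]⟩

open Classical in
theorem ind_apply (v : V) (x : IPath G) :
    (ind k G v).1 x = if G.s (x.1 0) = v then 1 else 0 := rfl

open Classical in
theorem gh_apply (e : E) (f : lc k G) (x : IPath G) :
    (trep k G (gh e) f).1 x = if h : G.r e = G.s (x.1 0) then f.1 (pre e x h) else 0 := by
  simp only [trep, lift_gh, tfam, LinearMap.coe_restrict_apply, gO, LinearMap.coe_mk,
    AddHom.coe_mk]

open Classical in
theorem gh_ind (e : E) (v : V) :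
    trep k G (gh e) (ind k G v) = (if G.s e = v then (1 : k) else 0) • ind k G (G.r e) := by
  refine Subtype.ext (funext fun x => ?_)
  have h1 : ((((if G.s e = v then (1 : k) else 0) • ind k G (G.r e) : lc k G) : IPath G → k) x) =
      (if G.s e = v then (1 : k) else 0) * (ind k G (G.r e)).1 x := rfl
  have h3 : (ind k G (G.r e)).1 x = if G.s (x.1 0) = G.r e then 1 else 0 := rfl
  refine (gh_apply k G e (ind k G v) x).trans (Eq.trans ?_ h1.symm)
  by_cases h : G.r e = G.s (x.1 0)
  · rw [dif_pos h, h3, if_pos h.symm, mul_one]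
    rfl
  · have h4 : ¬ G.s (x.1 0) = G.r e := fun h' => h h'.symm
    rw [if_neg h4] at h3
    rw [dif_neg h, h3, mul_zero]

/-- an infinite path given by a choice of edges -/
def pf (nxt : V → E) (v : V) : ℕ → E
  | 0 => nxt v
  | i + 1 => nxt (G.r (pf nxt v i))

/-- the infinite path starting at a vertex -/
def pth (nxt : V → E) (hn : ∀ v, G.s (nxt v) = v) (v : V) : IPath G :=
  ⟨pf G nxt v, fun i => (hn (G.r (pf G nxt v i))).symm⟩

theorem pth_s (nxt : V → E) (hn : ∀ v, G.s (nxt v) = v) (v : V) :
    G.s ((pth G nxt hn v).1 0) = v := hn v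

open Classical in
theorem ind_pth (nxt : V → E) (hn : ∀ v, G.s (nxt v) = v) (u v : V) :
    (ind k G v).1 (pth G nxt hn u) = if u = v then 1 else 0 := by
  rw [ind_apply, pth_s]

theorem li [Fintype V] (nxt : V → E) (hn : ∀ v, G.s (nxt v) = v) :
    LinearIndependent k (ind k G) := by
  classical
  rw [Fintype.linearIndependent_iff]
  intro c hc u
  have h1 : (∑ v, c v • ind k G v : lc k G).1 (pth G nxt hn u) = 0 := by
    rw [hc]
    rfl
  have h2 : ((∑ v, c v • ind k G v : lc k G).1 (pth G nxt hn u)) =
      ∑ v, c v * (ind k G v).1 (pth G nxt hn u) := by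
    rw [AddSubmonoidClass.coe_finsetSum, Finset.sum_apply]
    rfl
  rw [h2] at h1
  have h3 : ∀ v ∈ Finset.univ, c v * (ind k G v).1 (pth G nxt hn u) =
      if u = v then c v else 0 := by
    intro v _
    rw [ind_pth, mul_ite, mul_one, mul_zero]
  rw [Finset.sum_congr rfl h3, Finset.sum_ite_eq, if_pos (Finset.mem_univ u)] at h1
  exact h1

/-- the span of the indicator functions -/
noncomputable def WW : Submodule k (lc k G) := Submodule.span k (Set.range (ind k G))

theorem WW_fg [Fintype V] : (WW k G).FG :=
  Submodule.fg_span (Set.finite_range _)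

theorem ind_mem (v : V) : ind k G v ∈ WW k G := Submodule.subset_span ⟨v, rfl⟩

theorem WW_st (e : E) : ∀ f ∈ WW k G, yl (trep k G) e f ∈ WW k G := by
  classical
  intro f hf
  unfold WW at hf
  induction hf using Submodule.span_induction with
  | mem x hx =>
    obtain ⟨v, rfl⟩ := hx
    have h := gh_ind k G e v
    unfold yl
    rw [h]
    exact (WW k G).smul_mem _ (ind_mem k G _)
  | zero =>
    rw [map_zero]
    exact (WW k G).zero_mem
  | add x y _ _ hx hy =>
    rw [map_add]
    exact (WW k G).add_mem hx hy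
  | smul a x _ hx =>
    rw [map_smul]
    exact (WW k G).smul_mem _ hx

theorem wd_st (w : List E) : ∀ f ∈ WW k G, wd (yl (trep k G)) w f ∈ WW k G := by
  induction w with
  | nil => exact fun f hf => hf
  | cons e w ih =>
    intro f hf
    exact ih _ (WW_st k G e f hf)

/-- functions depending on the initial vertex and the first `n` edges -/
def Dep (n : ℕ) (f : lc k G) : Prop :=
  ∀ x y : IPath G, (∀ i < n, x.1 i = y.1 i) → G.s (x.1 0) = G.s (y.1 0) → f.1 x = f.1 y

theorem dep_step (n : ℕ) (f : lc k G) (hf : Dep k G (n + 1) f) (e : E) :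
    Dep k G n (yl (trep k G) e f) := by
  classical
  intro x y hxy h0
  have hx := gh_apply k G e f x
  have hy := gh_apply k G e f y
  refine hx.trans (Eq.trans ?_ hy.symm)
  by_cases h : G.r e = G.s (x.1 0)
  · have h' : G.r e = G.s (y.1 0) := h.trans h0
    rw [dif_pos h, dif_pos h']
    refine hf _ _ ?_ rfl
    intro i hi
    rcases i with _ | i
    · rfl
    · exact hxy i (Nat.lt_of_succ_lt_succ hi)
  · have h' : ¬ G.r e = G.s (y.1 0) := fun h' => h (h'.trans h0.symm)
    rw [dif_neg h, dif_neg h']

theorem dep_zero [Fintype V] (nxt : V → E) (hn : ∀ v, G.s (nxt v) = v) (f : lc k G)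
    (hf : Dep k G 0 f) : f ∈ WW k G := by
  classical
  have h : f = ∑ v, (f.1 (pth G nxt hn v)) • ind k G v := by
    refine Subtype.ext (funext fun x => ?_)
    rw [AddSubmonoidClass.coe_finsetSum, Finset.sum_apply]
    have h3 : ∀ v ∈ Finset.univ,
        (((f.1 (pth G nxt hn v)) • ind k G v : lc k G) : IPath G → k) x =
        if G.s (x.1 0) = v then f.1 (pth G nxt hn v) else 0 := by
      intro v _
      have h4 : (((f.1 (pth G nxt hn v)) • ind k G v : lc k G) : IPath G → k) x =
        f.1 (pth G nxt hn v) * (ind k G v).1 x := rfl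
      rw [h4, ind_apply, mul_ite, mul_one, mul_zero]
    rw [Finset.sum_congr rfl h3, Finset.sum_ite_eq, if_pos (Finset.mem_univ _)]
    refine hf _ _ (fun i hi => absurd hi (Nat.not_lt_zero i)) ?_
    rw [pth_s]
  rw [h]
  exact Submodule.sum_mem _ fun v _ => Submodule.smul_mem _ _ (ind_mem k G v)

theorem absorb [Fintype V] (nxt : V → E) (hn : ∀ v, G.s (nxt v) = v) (w : List E) :
    ∀ (n : ℕ) (f : lc k G), n ≤ w.length → Dep k G n f → wd (yl (trep k G)) w f ∈ WW k G := by
  induction w with
  | nil =>
    intro n f hn' hf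
    have h0 : n = 0 := Nat.le_zero.mp hn'
    rw [h0] at hf
    exact dep_zero k G nxt hn f hf
  | cons e w ih =>
    intro n f hn' hf
    rcases n with _ | n
    · exact wd_st k G _ f (dep_zero k G nxt hn f hf)
    · exact ih n _ (Nat.le_of_succ_le_succ hn') (dep_step k G n f hf e)

theorem WW_lat [Fintype V] (nxt : V → E) (hn : ∀ v, G.s (nxt v) = v) :
    IsLat (yl (trep k G)) (WW k G) where
  fg := WW_fg k G
  st := WW_st k G
  ab := by
    rintro ⟨f, n, hf⟩
    refine ⟨n, fun w hw => absorb k G nxt hn w n ⟨f, n, hf⟩ hw ?_⟩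
    intro x y hxy _
    exact hf x y hxy

/-- the basis of the indicator functions -/
noncomputable def bs [Fintype V] (nxt : V → E) (hn : ∀ v, G.s (nxt v) = v) :
    Module.Basis V k (WW k G) := Module.Basis.span (li k G nxt hn)

theorem bs_coe [Fintype V] (nxt : V → E) (hn : ∀ v, G.s (nxt v) = v) (v : V) :
    ((bs k G nxt hn v : WW k G) : lc k G) = ind k G v :=
  congrArg Subtype.val (Module.Basis.span_apply (li k G nxt hn) v)

open Classical in
theorem rs_bs [Fintype V] (nxt : V → E) (hn : ∀ v, G.s (nxt v) = v) (e : E) (v : V) :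
    rs (yl (trep k G)) (WW_st k G) e (bs k G nxt hn v) =
      (if G.s e = v then (1 : k) else 0) • bs k G nxt hn (G.r e) := by
  apply Subtype.ext
  have h1 : ((rs (yl (trep k G)) (WW_st k G) e (bs k G nxt hn v) : WW k G) : lc k G) =
      trep k G (gh e) ((bs k G nxt hn v : WW k G) : lc k G) := rfl
  rw [h1, bs_coe, gh_ind, Submodule.coe_smul, bs_coe]

/-- the matrix of a ghost edge on the lattice -/
def Ae [DecidableEq V] (e : E) : Matrix V V k :=
  Matrix.of fun a v => if G.r e = a ∧ G.s e = v then 1 else 0

theorem mat_rs [Fintype V] [DecidableEq V] (nxt : V → E) (hn : ∀ v, G.s (nxt v) = v) (e : E) :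
    LinearMap.toMatrix (bs k G nxt hn) (bs k G nxt hn) (rs (yl (trep k G)) (WW_st k G) e) =
      Ae k G e := by
  ext a v
  rw [LinearMap.toMatrix_apply, rs_bs, map_smul, Module.Basis.repr_self, Ae, Matrix.of_apply,
    Finsupp.smul_apply, Finsupp.single_apply, smul_eq_mul]
  by_cases h1 : G.s e = v
  · by_cases h2 : G.r e = a
    · simp [h1, h2]
    · simp [h1, h2]
  · simp [h1]

end

theorem pdet_basis {k : Type u} [Field k] {ι : Type} [Fintype ι] {M : Type u} [AddCommGroup M]
    [Module k M] {I : Type} [Fintype I] [DecidableEq I] (b : Module.Basis I k M)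
    (a : ι → Module.End k M) :
    pdet a a = Matrix.det (1 - ∑ i, Matrix.kroneckerMap (fun x y => x * y)
      (LinearMap.toMatrix b b (a i)) (LinearMap.toMatrix b b (a i))) := by
  unfold pdet
  rw [← LinearMap.det_toMatrix (b.tensorProduct b), map_sub, LinearMap.toMatrix_one, map_sum]
  have h1 : ∀ i ∈ (Finset.univ : Finset ι),
      LinearMap.toMatrix (b.tensorProduct b) (b.tensorProduct b) (TensorProduct.map (a i) (a i)) =
      Matrix.kroneckerMap (fun x y => x * y) (LinearMap.toMatrix b b (a i))
        (LinearMap.toMatrix b b (a i)) := fun i _ => TensorProduct.toMatrix_map b b b b _ _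
  rw [Finset.sum_congr rfl h1]

end TRIV_

open TRIV_ in
theorem p_TRIV : T_TRIV.{u} := by
  intro k _ V E _ _ _ G hG
  classical
  choose nxt hn using hG
  refine ⟨WW k G, WW_lat k G nxt hn, ?_⟩
  rw [pdet_basis (bs k G nxt hn)]
  have h1 : ∀ e ∈ (Finset.univ : Finset E),
      Matrix.kroneckerMap (fun x y => x * y)
        (LinearMap.toMatrix (bs k G nxt hn) (bs k G nxt hn)
          (rs (yl (trep k G)) (WW_lat k G nxt hn).st e))
        (LinearMap.toMatrix (bs k G nxt hn) (bs k G nxt hn)
          (rs (yl (trep k G)) (WW_lat k G nxt hn).st e)) =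
      Matrix.kroneckerMap (fun x y => x * y) (Ae k G e) (Ae k G e) := by
    intro e _
    rw [mat_rs]
  rw [Finset.sum_congr rfl h1]
  have h2 : (∑ e : E, Matrix.kroneckerMap (fun x y => x * y) (Ae k G e) (Ae k G e)) =
      (Matrix.of fun (p : V × V) (d : V) => if p.1 = d ∧ p.2 = d then (1 : k) else 0) *
      (Matrix.of fun (d : V) (q : V × V) =>
        ∑ e : E, if G.r e = d ∧ G.s e = q.1 ∧ G.s e = q.2 then (1 : k) else 0) := by
    ext ⟨a, c⟩ ⟨v, u⟩
    rw [Matrix.sum_apply, Matrix.mul_apply]
    simp only [Matrix.kroneckerMap_apply, Ae, Matrix.of_apply]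
    have h3 : ∀ d ∈ (Finset.univ : Finset V),
        (if a = d ∧ c = d then (1 : k) else 0) *
          (∑ e : E, if G.r e = d ∧ G.s e = v ∧ G.s e = u then (1 : k) else 0) =
        if a = d then (if c = d then (∑ e : E, if G.r e = d ∧ G.s e = v ∧ G.s e = u then (1 : k)
          else 0) else 0) else 0 := by
      intro d _
      by_cases h3 : a = d
      · by_cases h4 : c = d
        · simp [h3, h4]
        · simp [h4]
      · simp [h3]
    rw [Finset.sum_congr rfl h3, Finset.sum_ite_eq, if_pos (Finset.mem_univ a)]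
    by_cases h4 : c = a
    · rw [if_pos h4]
      refine Finset.sum_congr rfl fun e _ => ?_
      subst h4
      by_cases h5 : G.r e = c
      · by_cases h6 : G.s e = v
        · simp [h5, h6]
        · simp [h6]
      · simp [h5]
    · rw [if_neg h4]
      refine Finset.sum_eq_zero fun e _ => ?_
      by_cases h5 : G.r e = a
      · have h6 : ¬ G.r e = c := fun h6 => h4 (h6.symm.trans h5)
        simp [h6]
      · simp [h5]
  rw [h2, Matrix.det_one_sub_mul_comm]
  have h3 : (Matrix.of fun (d : V) (q : V × V) =>
        ∑ e : E, if G.r e = d ∧ G.s e = q.1 ∧ G.s e = q.2 then (1 : k) else 0) *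
      (Matrix.of fun (p : V × V) (d : V) => if p.1 = d ∧ p.2 = d then (1 : k) else 0) =
      (adj k G).transpose := by
    ext d v
    rw [Matrix.mul_apply, Fintype.sum_prod_type]
    simp only [Matrix.of_apply, Matrix.transpose_apply, adj]
    have h5 : ∀ x ∈ (Finset.univ : Finset V), ∑ y : V,
        (∑ e : E, if G.r e = d ∧ G.s e = x ∧ G.s e = y then (1 : k) else 0) *
          (if x = v ∧ y = v then (1 : k) else 0) =
        if v = x then ∑ e : E, (if G.r e = d ∧ G.s e = v ∧ G.s e = v then (1 : k) else 0)
          else 0 := by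
      intro x _
      by_cases h6 : x = v
      · subst h6
        rw [if_pos rfl]
        have h7 : ∀ y ∈ (Finset.univ : Finset V),
            (∑ e : E, if G.r e = d ∧ G.s e = x ∧ G.s e = y then (1 : k) else 0) *
              (if x = x ∧ y = x then (1 : k) else 0) =
            if x = y then (∑ e : E, if G.r e = d ∧ G.s e = x ∧ G.s e = y then (1 : k) else 0)
              else 0 := by
          intro y _
          by_cases h8 : y = x
          · simp [h8]
          · have h9 : ¬ x = y := fun h9 => h8 h9.symm
            simp [h8, h9]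
        rw [Finset.sum_congr rfl h7, Finset.sum_ite_eq, if_pos (Finset.mem_univ x)]
      · have h9 : ¬ v = x := fun h9 => h6 h9.symm
        rw [if_neg h9]
        refine Finset.sum_eq_zero fun y _ => ?_
        simp [h6]
    rw [Finset.sum_congr rfl h5, Finset.sum_ite_eq, if_pos (Finset.mem_univ v)]
    rw [Fintype.card_subtype, ← Finset.sum_filter, Finset.sum_const, nsmul_eq_mul, mul_one]
    congr 2
    ext e
    simp only [Finset.mem_filter, Finset.mem_univ, true_and]
    tauto
  rw [h3]
  have h4 : (1 : Matrix V V k) - (adj k G).transpose = (1 - adj k G).transpose := by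
    rw [Matrix.transpose_sub, Matrix.transpose_one]
  rw [h4, Matrix.det_transpose]

end Pool.Agent.IDP
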