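import Pool.Agent.IDP.Targets

/-!
# IDP, target UNIQ: uniqueness of balanced maps
-/

set_option autoImplicit false

universe u

namespace Pool.Agent.IDP

open CKS TensorProduct Polynomial

namespace UNIQ_

/-- The unit of the algebra. -/
theorem one_eq {k : Type u} [Field k] {V E : Type} [Fintype V] [Fintype E] (G : CKS.Graph V E)
    (hG : NoSink G) : (1 : LPA k G) = ∑ e : E, ed e * gh e := by
  classical
  rw [← one_rel, ← Finset.sum_fiberwise_of_maps_to
    (s := (Finset.univ : Finset E)) (t := (Finset.univ : Finset V)) (g := G.s)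
    (fun e _ => Finset.mem_univ _)]
  refine Finset.sum_congr rfl fun v _ => ?_
  have hv : G.IsReg v := hG v
  exact (ck_rel hv _ (fun e => by simp)).symm

section

variable {k : Type u} [Field k] {V E : Type} [Fintype V] [Fintype E] {G : CKS.Graph V E}
  {A : Type u} [CommRing A] [Algebra k A] {N N1 Z : Type u} [AddCommGroup N]
  [Module k N] [Module A N] [IsScalarTower k A N] [AddCommGroup N1] [Module k N1]
  [AddCommGroup Z] [Module k Z] [Module A Z] [IsScalarTower k A Z]
  (ρ : LPA k G →ₐ[k] Module.End A N) (R : LPA k G →ₐ[k] (Module.End k N1)ᵐᵒᵖ)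

/-- A balanced map is the sum over the edges. -/
theorem bal_sum (hG : NoSink G) (β : N →ₗ[A] (N1 →ₗ[k] Z))
    (hβ : ∀ a n' n, β (ρ a n') n = β n' ((R a).unop n)) (n' : N) (n : N1) :
    β n' n = ∑ e : E, β (yl ρ e n') (xr R e n) := by
  have h1 : n = (R 1).unop n := by
    rw [map_one]
    rfl
  have h2 : (R 1).unop n = ∑ e : E, (R (gh e)).unop (xr R e n) := by
    rw [one_eq G hG, map_sum, Finset.unop_sum, LinearMap.sum_apply]
    refine Finset.sum_congr rfl fun e _ => ?_
    rw [map_mul, MulOpposite.unop_mul]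
    rfl
  calc β n' n = β n' ((R 1).unop n) := by rw [← h1]
    _ = ∑ e : E, β n' ((R (gh e)).unop (xr R e n)) := by rw [h2, map_sum]
    _ = ∑ e : E, β (yl ρ e n') (xr R e n) := by
        refine Finset.sum_congr rfl fun e _ => ?_
        rw [← hβ]
        rfl

/-- If a balanced map vanishes on all pairs of images under the words of length `m`, then it
vanishes. -/
theorem van (hG : NoSink G) (β : N →ₗ[A] (N1 →ₗ[k] Z))
    (hβ : ∀ a n' n, β (ρ a n') n = β n' ((R a).unop n)) (m : ℕ) :
    ∀ (n' : N) (n : N1), (∀ w : List E, w.length = m →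
      β (wd (yl ρ) w n') (wd (xr R) w n) = 0) → β n' n = 0 := by
  induction m with
  | zero =>
    intro n' n h
    exact h [] rfl
  | succ m ih =>
    intro n' n h
    rw [bal_sum ρ R hG β hβ]
    refine Finset.sum_eq_zero fun e _ => ih _ _ fun w hw => ?_
    exact h (e :: w) (by rw [List.length_cons, hw])

end

end UNIQ_

open UNIQ_ in
theorem p_UNIQ : T_UNIQ.{u} := by
  intro k _ V E _ _ G hG A _ _ N N1 Z _ _ _ _ _ _ _ _ _ _ ρ R W X hW hX β hβ h
  refine LinearMap.ext fun n' => LinearMap.ext fun n => ?_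
  obtain ⟨m1, h1⟩ := hW n'
  obtain ⟨m2, h2⟩ := hX n
  refine van ρ R hG β hβ (max m1 m2) n' n fun w hw => ?_
  exact h _ (h1 w (hw ▸ le_max_left _ _)) _ (h2 w (hw ▸ le_max_right _ _))

end Pool.Agent.IDP
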