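import Pool.Agent.IDP.Targets

/-!
# IDP: the universal property of a module with a lattice (UP)
-/

set_option autoImplicit false

universe u

namespace Pool.Agent.IDP

open CKS TensorProduct

namespace UP_

variable {k : Type u} [Field k] {V E : Type} [Fintype V] [Fintype E] {G : CKS.Graph V E}
variable {A : Type u} [CommRing A] [Algebra k A] {N Q : Type u} [AddCommGroup N] [Module k N]
  [Module A N] [IsScalarTower k A N] [AddCommGroup Q] [Module k Q] [Module A Q]
  [IsScalarTower k A Q] (ρ : LPA k G →ₐ[k] Module.End A N) (σ : LPA k G →ₐ[k] Module.End A Q)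

theorem two (τ : LPA k G →ₐ[k] Module.End A Q) (a b : LPA k G) (x : Q) :
    τ a (τ b x) = τ (a * b) x := by
  rw [map_mul, Module.End.mul_apply]

/-- The elements which commute with `h`. -/
def sub (h : N →ₗ[A] Q) : Subalgebra k (LPA k G) where
  carrier := {a | ∀ n, h (ρ a n) = σ a (h n)}
  mul_mem' := by
    intro a b ha hb n
    rw [← two, ← two, ha, hb]
  add_mem' := by
    intro a b ha hb n
    rw [map_add, map_add, LinearMap.add_apply, LinearMap.add_apply, map_add, ha n, hb n]
  algebraMap_mem' := by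
    intro r n
    rw [AlgHom.commutes, AlgHom.commutes, Module.algebraMap_end_apply,
      Module.algebraMap_end_apply]
    exact LinearMap.map_smul_of_tower h r n

theorem mem_sub (h : N →ₗ[A] Q) (a : LPA k G) : a ∈ sub ρ σ h ↔ ∀ n, h (ρ a n) = σ a (h n) :=
  Iff.rfl

section

variable {ρ σ} {h : N →ₗ[A] Q} (hh : ∀ n, h n = ∑ e, σ (ed e) (h (ρ (gh e) n)))

include hh

theorem vert (a : V) (n : N) : h (ρ (vt a) n) = σ (vt a) (h n) := by
  rw [hh (ρ (vt a) n)]
  conv_rhs => rw [hh n]
  rw [map_sum]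
  apply Finset.sum_congr rfl
  intro e _
  rw [two ρ, two σ]
  by_cases ha : G.s e = a
  · subst ha
    rw [gh_s, s_ed]
  · rw [gh_vt ha, vt_ed (Ne.symm ha), map_zero, map_zero, LinearMap.zero_apply,
      LinearMap.zero_apply, map_zero, map_zero]

theorem ghost (f : E) (n : N) : h (ρ (gh f) n) = σ (gh f) (h n) := by
  conv_rhs => rw [hh n]
  rw [map_sum, Finset.sum_eq_single f]
  · rw [two σ, gh_ed, ← vert hh, two ρ, r_gh]
  · intro e _ hne
    rw [two σ, gh_ed_ne (Ne.symm hne), map_zero, LinearMap.zero_apply]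
  · intro hf
    exact absurd (Finset.mem_univ f) hf

theorem edge (f : E) (n : N) : h (ρ (ed f) n) = σ (ed f) (h n) := by
  rw [hh (ρ (ed f) n), Finset.sum_eq_single f]
  · rw [two ρ, gh_ed, vert hh, two σ, ed_r]
  · intro e _ hne
    rw [two ρ, gh_ed_ne hne, map_zero, LinearMap.zero_apply, map_zero, map_zero]
  · intro hf
    exact absurd (Finset.mem_univ f) hf

end

end UP_

open UP_ in
theorem p_UP (h1 : T_GL.{u}) : T_UP.{u} := by
  intro k _ V E _ _ G A _ _ N Q _ _ _ _ _ _ _ _ ρ σ W hst hab g hg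
  obtain ⟨h, hh1, hh2⟩ := h1 (yl ρ) (fun e => σ (ed e)) W hst hab g hg
  refine ⟨h, hh1, ?_⟩
  have hh : ∀ n, h n = ∑ e, σ (ed e) (h (ρ (gh e) n)) := hh2
  intro a
  exact mem_of_gen k G G.IsReg (sub ρ σ h) (fun a n => vert hh a n) (fun e n => edge hh e n)
    (fun e n => ghost hh e n) a

end Pool.Agent.IDP
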