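import Pool.Agent.IDP.Stmt
import Pool.Agent.IDP.P_BAL
import Pool.Agent.IDP.P_CNT
import Pool.Agent.IDP.P_COK
import Pool.Agent.IDP.P_DET
import Pool.Agent.IDP.P_EXT
import Pool.Agent.IDP.P_FAM
import Pool.Agent.IDP.P_GHOST
import Pool.Agent.IDP.P_GL
import Pool.Agent.IDP.P_IDP1
import Pool.Agent.IDP.P_IND
import Pool.Agent.IDP.P_INF
import Pool.Agent.IDP.P_KP
import Pool.Agent.IDP.P_LL
import Pool.Agent.IDP.P_MAIN
import Pool.Agent.IDP.P_PATHS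
import Pool.Agent.IDP.P_SCH
import Pool.Agent.IDP.P_SPEC
import Pool.Agent.IDP.P_STAR
import Pool.Agent.IDP.P_TOR
import Pool.Agent.IDP.P_TRIV
import Pool.Agent.IDP.P_UNIQ
import Pool.Agent.IDP.P_UP

/-! Assembly of the project IDP -/

set_option autoImplicit false

universe u

namespace Pool.Agent.IDP

theorem all_LL : T_LL.{u} :=
  p_LL (p_EXT (p_UP p_GL)) p_GHOST (p_INF p_GHOST p_IND) (p_STAR p_GHOST p_IND) p_KP
    (p_TOR p_GHOST) p_CNT

theorem all_MAIN : T_MAIN.{u} :=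
  p_MAIN all_LL (p_COK (p_BAL p_GL (p_UP p_GL)) p_UNIQ) p_SCH p_FAM (p_SPEC p_DET)
    (p_IDP1 p_DET)

end Pool.Agent.IDP
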