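import Pool.Agent.CKS.Defs

/-!
# Lattices in modules over Leavitt path algebras and their determinant pairing: definitions

`CKS.LPA k G` is the Leavitt path algebra of the finite graph `G` over the field `k` (see
`Pool/Agent/CKS/Core.lean`); `vt`, `ed`, `gh` are its generators (vertices, edges, ghost edges).
-/

set_option autoImplicit false

universe u

namespace Pool.Agent.IDP

open CKS TensorProduct

section Generic

variable {ι : Type} {A : Type u} [CommRing A] {N : Type u} [AddCommGroup N] [Module A N]

/-- The operators of the letters of a word, applied one after the other (first letter first). -/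
def wd (Y : ι → Module.End A N) : List ι → Module.End A N
  | [] => 1
  | i :: w => wd Y w * Y i

/-- `V` is a lattice for the family of operators `Y`: it is finitely generated, stable under the
operators, and every vector is brought into `V` by all sufficiently long words. -/
structure IsLat (Y : ι → Module.End A N) (V : Submodule A N) : Prop where
  fg : V.FG
  st : ∀ i, ∀ n ∈ V, Y i n ∈ V
  ab : ∀ n, ∃ m, ∀ w : List ι, m ≤ w.length → wd Y w n ∈ V

/-- The restrictions of the operators to a stable submodule. -/
def rs (Y : ι → Module.End A N) {V : Submodule A N} (h : ∀ i, ∀ n ∈ V, Y i n ∈ V) (i : ι) :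
    Module.End A V := (Y i).restrict (h i)

end Generic

/-- The determinant of `1 - Σ_i a_i ⊗ b_i`. -/
noncomputable def pdet {k : Type u} [Field k] {ι : Type} [Fintype ι] {V W : Type u}
    [AddCommGroup V] [Module k V] [AddCommGroup W] [Module k W]
    (a : ι → Module.End k V) (b : ι → Module.End k W) : k :=
  LinearMap.det (1 - ∑ i, TensorProduct.map (a i) (b i))

/-- The operator `Σ_i a_i ⊗ b_i` on `W ⊗ V`, where `W` is a module over the `k`-algebra `A` and `V`
is a vector space over `k`. -/
noncomputable def mT {k : Type u} [Field k] {A : Type u} [CommRing A] [Algebra k A] {ι : Type}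
    [Fintype ι] {W V : Type u} [AddCommGroup W] [Module k W] [Module A W] [IsScalarTower k A W]
    [AddCommGroup V] [Module k V] (a : ι → Module.End A W) (b : ι → Module.End k V) :
    Module.End A (W ⊗[k] V) :=
  ∑ i, TensorProduct.AlgebraTensorModule.map (a i) (b i)

/-- The determinant of `1 - Σ_i a_i ⊗ b_i` over `A`. -/
noncomputable def mdet {k : Type u} [Field k] {A : Type u} [CommRing A] [Algebra k A] {ι : Type}
    [Fintype ι] {W V : Type u} [AddCommGroup W] [Module k W] [Module A W] [IsScalarTower k A W]
    [AddCommGroup V] [Module k V] (a : ι → Module.End A W) (b : ι → Module.End k V) : A :=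
  LinearMap.det ((1 : Module.End A (W ⊗[k] V)) - mT a b)

section Graphs

variable {k : Type u} [Field k] {V E : Type} {G : CKS.Graph V E}

/-- The ghost operators of a left module (given by `ρ`). -/
noncomputable def yl {A : Type u} [CommRing A] [Algebra k A] {N : Type u} [AddCommGroup N] [Module k N]
    [Module A N] [IsScalarTower k A N] (ρ : LPA k G →ₐ[k] Module.End A N) (e : E) :
    Module.End A N := ρ (gh e)

/-- The operators of right multiplication by the edges of a right module (given by `R`). -/
noncomputable def xr {N : Type u} [AddCommGroup N] [Module k N] (R : LPA k G →ₐ[k] (Module.End k N)ᵐᵒᵖ) (e : E) :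
    Module.End k N := (R (ed e)).unop

/-- No sinks: every vertex emits an edge. -/
def NoSink (G : CKS.Graph V E) : Prop := ∀ v, ∃ e, G.s e = v

/-- Every cycle has an exit. -/
def Exits (G : CKS.Graph V E) : Prop := ∀ c : List E, IsCycle G c → ∃ e ∈ c, ∃ f, f ≠ e ∧ G.s f = G.s e

/-- A nonempty path. -/
def Gd (G : CKS.Graph V E) (w : List E) : Prop := w ≠ [] ∧ w.IsChain (fun e f => G.r e = G.s f)

/-- The number of paths of length `j` starting at `v` is an unbounded function of `j`. -/
def Unb (G : CKS.Graph V E) : Prop := ∀ (v : V) (n : ℕ), ∃ j : ℕ, ∃ s : Finset (List E), n ≤ s.card ∧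
  ∀ w ∈ s, w.length = j + 1 ∧ Gd G w ∧ ∃ f w', w = f :: w' ∧ G.s f = v

/-- The adjacency matrix over `k`. -/
noncomputable def adj (k : Type u) [Field k] [Fintype E] [DecidableEq V] (G : CKS.Graph V E) :
    Matrix V V k :=
  Matrix.of fun a b => (Fintype.card {e // G.s e = a ∧ G.r e = b} : k)

end Graphs

/-! ### The filtration by ghost words (`A` a commutative `k`-algebra, `N` an `A`-module with an
action of the Leavitt path algebra, `W` a submodule) -/

section Filt

variable {k : Type u} [Field k] {V E : Type} {G : CKS.Graph V E}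
variable {A : Type u} [CommRing A] [Algebra k A] {N : Type u} [AddCommGroup N] [Module k N]
  [Module A N] [IsScalarTower k A N] (ρ : LPA k G →ₐ[k] Module.End A N) (W : Submodule A N)

/-- Formal sums of words with coefficients in `W`, evaluated by `w ⊗ n ↦ y_w n`. -/
noncomputable def ev : (List E →₀ W) →ₗ[A] N :=
  Finsupp.lsum ℕ (fun w => (ρ (yw w) : Module.End A N) ∘ₗ W.subtype)

/-- Formal sums supported on nonempty paths of length at most `i`. -/
def RR (G : CKS.Graph V E) (W : Submodule A N) (i : ℕ) : Submodule A (List E →₀ W) :=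
  Finsupp.supported W A {w | Gd G w ∧ w.length ≤ i}

open Classical in
/-- Prolongation of all words at the end by the word `q`, the words that are no paths being
dropped. -/
noncomputable def Sh (G : CKS.Graph V E) (W : Submodule A N) (q : List E) :
    (List E →₀ W) →ₗ[A] (List E →₀ W) :=
  Finsupp.lsum ℕ (fun w => if Gd G (w ++ q) then Finsupp.lsingle (w ++ q) else 0)

/-- The relations of degree at most `D`. -/
noncomputable def KK (D : ℕ) : Submodule A (List E →₀ W) := RR G W D ⊓ LinearMap.ker (ev ρ W)

/-- The sum of the prolongations of the relations of degree at most `D` by words of length at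
most `J`. -/
noncomputable def SJ (D J : ℕ) : Submodule A (List E →₀ W) :=
  ⨆ q : List E, ⨆ _ : q.length ≤ J, (KK ρ W D).map (Sh G W q)

/-- The sum of all prolongations of the relations of degree at most `D`. -/
noncomputable def SS (D : ℕ) : Submodule A (List E →₀ W) :=
  ⨆ q : List E, (KK ρ W D).map (Sh G W q)

/-- Every relation lies, after prolongation by long words, in `SS D`. -/
def Star (D : ℕ) : Prop :=
  ∀ (i : ℕ) (c : List E →₀ W), c ∈ RR G W i → ev ρ W c = 0 →
    ∃ m, ∀ w : List E, m ≤ w.length → Sh G W w c ∈ SS ρ W D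

/-- The submodule `Σ_{1 ≤ |w| ≤ i} y_w W`. -/
noncomputable def UU (i : ℕ) : Submodule A N := (RR G W i).map (ev ρ W)

/-- Free growth of the filtration from the degree `D + 1` on. -/
def Kp (D : ℕ) : Prop :=
  ∀ (j : ℕ) (c : List E →₀ N), (∀ w ∈ c.support, w.length = j + 1) → (∀ w, c w ∈ UU ρ W (D + 1)) →
    (c.sum fun w n => ρ (yw w) n) ∈ UU ρ W (D + 1 + j) →
    ∀ f w, Gd G (f :: w) → w.length = j → ρ (vt (G.s f)) (c (f :: w)) ∈ UU ρ W D

/-- `N` is presented as a module over the Leavitt path algebra by the generators `W` and the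
relations `n = Σ_i ξ_i (η_i n)`. -/
def Pres {ι : Type} [Fintype ι] (ξ η : ι → LPA k G)
    (hst : ∀ i, ∀ n ∈ W, ρ (η i) n ∈ W) : Prop :=
  ∀ (Q : Type u) [AddCommGroup Q] [Module k Q] [Module A Q] [IsScalarTower k A Q]
    (B : LPA k G →ₗ[k] (W →ₗ[A] Q)),
    (∀ a (v : W), B a v = ∑ i, B (a * ξ i) (rs (fun i => ρ (η i)) hst i v)) →
    ∃ h : N →ₗ[A] Q, ∀ a (v : W), h (ρ a v) = B a v

end Filt

/-- The product of the elements of a word in reversed order. -/
noncomputable def wl {ι : Type} {L : Type u} [Ring L] (η : ι → L) (γ : List ι) : L :=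
  (γ.reverse.map η).prod

/-! ### The trivial module: locally constant functions on the space of infinite paths -/

section Triv

variable {V E : Type}

/-- Infinite paths. -/
def IPath (G : CKS.Graph V E) : Type := {x : ℕ → E // ∀ i, G.r (x i) = G.s (x (i + 1))}

/-- The infinite path without its first edge. -/
def tl {G : CKS.Graph V E} (x : IPath G) : IPath G := ⟨fun i => x.1 (i + 1), fun i => x.2 (i + 1)⟩

/-- Prolongation of an infinite path by an edge at the beginning. -/
def pre {G : CKS.Graph V E} (e : E) (x : IPath G) (h : G.r e = G.s (x.1 0)) : IPath G :=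
  ⟨fun i => match i with
    | 0 => e
    | i + 1 => x.1 i, fun i => match i with
    | 0 => h
    | i + 1 => x.2 i⟩

theorem lc_add (k : Type u) [Field k] (G : CKS.Graph V E) {f g : IPath G → k}
    (hf : ∃ n : ℕ, ∀ x y : IPath G, (∀ i < n, x.1 i = y.1 i) → f x = f y)
    (hg : ∃ n : ℕ, ∀ x y : IPath G, (∀ i < n, x.1 i = y.1 i) → g x = g y) :
    ∃ n : ℕ, ∀ x y : IPath G, (∀ i < n, x.1 i = y.1 i) → (f + g) x = (f + g) y := by
  obtain ⟨m, hm⟩ := hf
  obtain ⟨n, hn⟩ := hg
  refine ⟨max m n, fun x y h => ?_⟩
  rw [Pi.add_apply, Pi.add_apply, hm x y fun i hi => h i (lt_of_lt_of_le hi (le_max_left _ _)),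
    hn x y fun i hi => h i (lt_of_lt_of_le hi (le_max_right _ _))]

theorem lc_smul (k : Type u) [Field k] (G : CKS.Graph V E) (c : k) {f : IPath G → k}
    (hf : ∃ n : ℕ, ∀ x y : IPath G, (∀ i < n, x.1 i = y.1 i) → f x = f y) :
    ∃ n : ℕ, ∀ x y : IPath G, (∀ i < n, x.1 i = y.1 i) → (c • f) x = (c • f) y := by
  obtain ⟨m, hm⟩ := hf
  refine ⟨m, fun x y h => ?_⟩
  rw [Pi.smul_apply, Pi.smul_apply, hm x y h]

/-- The locally constant functions on the space of infinite paths. -/
def lc (k : Type u) [Field k] (G : CKS.Graph V E) : Submodule k (IPath G → k) where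
  carrier := {f | ∃ n : ℕ, ∀ x y : IPath G, (∀ i < n, x.1 i = y.1 i) → f x = f y}
  zero_mem' := ⟨0, fun _ _ _ => rfl⟩
  add_mem' := lc_add k G
  smul_mem' := fun c _ hf => lc_smul k G c hf

end Triv

end Pool.Agent.IDP
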