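import Pool.Agent.IDP.Triv

/-!
# Isomorphisms matching the trivial modules
-/

set_option autoImplicit false

universe u

namespace Pool.Agent.IDP

open CKS

section Match

variable {k : Type u} [Field k] {V E : Type} {G : CKS.Graph V E}

open Classical in
/-- The action of a vertex on functions on the space of infinite paths: restriction to the paths
starting at `v`. -/
noncomputable def pF (v : V) (f : IPath G → k) : IPath G → k :=
  fun x => if G.s (x.1 0) = v then f x else 0

open Classical in
/-- The action of an edge: `(e f)(e x) = f x`, and `0` on the paths not starting with `e`. -/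
noncomputable def eF (e : E) (f : IPath G → k) : IPath G → k :=
  fun x => if x.1 0 = e then f (tl x) else 0

open Classical in
/-- The action of a ghost edge: `(e* f)(x) = f (e x)`, and `0` if `e x` is no path. -/
noncomputable def gF (e : E) (f : IPath G → k) : IPath G → k :=
  fun x => if h : G.r e = G.s (x.1 0) then f (pre e x h) else 0

/-- The left module over the Leavitt path algebra of `G` given by `ρ` is isomorphic to the trivial
left module: the locally constant functions on the space of infinite paths, with vertices, edges
and ghost edges acting by `pF`, `eF`, `gF`. -/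
def IsTrivL {N : Type u} [AddCommGroup N] [Module k N] (ρ : LPA k G →ₐ[k] Module.End k N) : Prop :=
  ∃ h : lc k G ≃ₗ[k] N, ∀ f g : lc k G,
    (∀ v : V, (g : IPath G → k) = pF v f → h g = ρ (vt v) (h f)) ∧
    (∀ e : E, (g : IPath G → k) = eF e f → h g = ρ (ed e) (h f)) ∧
    (∀ e : E, (g : IPath G → k) = gF e f → h g = ρ (gh e) (h f))

/-- The right module over the Leavitt path algebra of `G` given by `R` is isomorphic to the trivial
right module: the locally constant functions on the space of infinite paths, with vertices, edges
and ghost edges acting from the right by `pF`, `gF`, `eF`. -/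
def IsTrivR {N : Type u} [AddCommGroup N] [Module k N]
    (R : LPA k G →ₐ[k] (Module.End k N)ᵐᵒᵖ) : Prop :=
  ∃ h : lc k G ≃ₗ[k] N, ∀ f g : lc k G,
    (∀ v : V, (g : IPath G → k) = pF v f → h g = (R (vt v)).unop (h f)) ∧
    (∀ e : E, (g : IPath G → k) = gF e f → h g = (R (ed e)).unop (h f)) ∧
    (∀ e : E, (g : IPath G → k) = eF e f → h g = (R (gh e)).unop (h f))

/-- `φ` matches the trivial modules: some left module over the Leavitt path algebra of `H` is
trivial both for `H` and, through `φ`, for `G`, and the same for right modules. -/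
def MatchTriv {V' E' : Type} {H : CKS.Graph V' E'} (φ : LPA k G ≃ₐ[k] LPA k H) : Prop :=
  (∃ (N : Type u) (_ : AddCommGroup N) (_ : Module k N) (ρ : LPA k H →ₐ[k] Module.End k N),
    IsTrivL ρ ∧ IsTrivL (ρ.comp (φ : LPA k G →ₐ[k] LPA k H))) ∧
  ∃ (N : Type u) (_ : AddCommGroup N) (_ : Module k N)
    (R : LPA k H →ₐ[k] (Module.End k N)ᵐᵒᵖ),
    IsTrivR R ∧ IsTrivR (R.comp (φ : LPA k G →ₐ[k] LPA k H))

end Match

section

variable (k : Type u) [Field k] {V E : Type} (G : CKS.Graph V E)

theorem trep_pF (v : V) (f : lc k G) : ((trep k G (vt v) f : lc k G) : IPath G → k) = pF v f := by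
  simp only [trep, lift_vt, tfam, LinearMap.coe_restrict_apply, pO, LinearMap.coe_mk,
    AddHom.coe_mk]
  rfl

theorem trep_eF (e : E) (f : lc k G) : ((trep k G (ed e) f : lc k G) : IPath G → k) = eF e f := by
  simp only [trep, lift_ed, tfam, LinearMap.coe_restrict_apply, eO, LinearMap.coe_mk,
    AddHom.coe_mk]
  rfl

theorem trep_gF (e : E) (f : lc k G) : ((trep k G (gh e) f : lc k G) : IPath G → k) = gF e f := by
  simp only [trep, lift_gh, tfam, LinearMap.coe_restrict_apply, gO, LinearMap.coe_mk,
    AddHom.coe_mk]
  rfl

/-- The trivial left module exists. -/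
theorem isTrivL_trep : IsTrivL (trep k G) :=
  ⟨LinearEquiv.refl k _, fun f _ => ⟨fun v h => Subtype.ext (h.trans (trep_pF k G v f).symm),
    fun e h => Subtype.ext (h.trans (trep_eF k G e f).symm),
    fun e h => Subtype.ext (h.trans (trep_gF k G e f).symm)⟩⟩

/-- The trivial right module exists. -/
theorem isTrivR_trepR : IsTrivR (trepR k G) := by
  refine ⟨LinearEquiv.refl k _, fun f _ => ⟨fun v h => ?_, fun e h => ?_, fun e h => ?_⟩⟩
  · rw [trepR_unop, sta_vt]
    exact Subtype.ext (h.trans (trep_pF k G v f).symm)
  · rw [trepR_unop, sta_ed]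
    exact Subtype.ext (h.trans (trep_gF k G e f).symm)
  · rw [trepR_unop, sta_gh]
    exact Subtype.ext (h.trans (trep_eF k G e f).symm)

end

end Pool.Agent.IDP
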