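import Pool.Agent.IDP.Targets
import Pool.Agent.IDP.Match
import Pool.Agent.CKS.Red2
import Pool.Agent.CKS.Red3

/-! FINAL: the consequences for the trivial modules and the Cuntz splice -/

set_option autoImplicit false

universe u

namespace Pool.Agent.IDP

open CKS TensorProduct

namespace FINAL_

section

variable {k : Type u} [Field k]

theorem lat_image {ι : Type} {M N : Type u} [AddCommGroup M] [Module k M] [AddCommGroup N]
    [Module k N] (h : M ≃ₗ[k] N) (Y : ι → Module.End k M) (Z : ι → Module.End k N)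
    (h2 : ∀ i n, h (Y i n) = Z i (h n)) (W : Submodule k M) (hW : IsLat Y W) :
    IsLat Z (W.map h.toLinearMap) := by
  refine ⟨hW.fg.map _, ?_, ?_⟩
  · rintro i _ ⟨y, hy, rfl⟩
    exact ⟨Y i y, hW.st i y hy, h2 i y⟩
  · intro n
    obtain ⟨y, rfl⟩ := h.surjective n
    obtain ⟨m, hm⟩ := hW.ab y
    refine ⟨m, fun w hw => ⟨wd Y w y, hm w hw, ?_⟩⟩
    clear hw hm
    induction w generalizing y with
    | nil => rfl
    | cons i w ih =>
      change h (wd Y w (Y i y)) = wd Z w (Z i (h y))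
      rw [← h2]
      exact ih (Y i y)

theorem pdet_congr {ι : Type} [Fintype ι] {V W V' W' : Type u} [AddCommGroup V] [Module k V]
    [AddCommGroup W] [Module k W] [AddCommGroup V'] [Module k V'] [AddCommGroup W'] [Module k W']
    (a : ι → Module.End k V) (b : ι → Module.End k W) (a' : ι → Module.End k V')
    (b' : ι → Module.End k W') (e1 : V ≃ₗ[k] V') (e2 : W ≃ₗ[k] W')
    (h1 : ∀ i v, e1 (a i v) = a' i (e1 v)) (h2 : ∀ i v, e2 (b i v) = b' i (e2 v)) :
    pdet a b = pdet a' b' := by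
  have h : (1 - ∑ i, TensorProduct.map (a' i) (b' i) : Module.End k (V' ⊗[k] W')) =
      (TensorProduct.congr e1 e2).toLinearMap ∘ₗ
        (1 - ∑ i, TensorProduct.map (a i) (b i) : Module.End k (V ⊗[k] W)) ∘ₗ
          (TensorProduct.congr e1 e2).symm.toLinearMap := by
    refine TensorProduct.ext' fun x y => ?_
    simp only [LinearMap.comp_apply, LinearMap.sub_apply, LinearMap.sum_apply,
      LinearEquiv.coe_coe, TensorProduct.congr_symm_tmul, TensorProduct.map_tmul, map_sub, map_sum,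
      TensorProduct.congr_tmul, Module.End.one_apply, h1, h2, LinearEquiv.apply_symm_apply]
  unfold pdet
  rw [h]
  exact (LinearMap.det_conj _ _).symm

/-- the determinant of the Cuntz splice -/
theorem det_splice {V E : Type} [Fintype V] [DecidableEq V] [Fintype E] (G : CKS.Graph V E)
    (v : V) : Matrix.det (1 - adj k (splice G v)) = - Matrix.det (1 - adj k G) := by
  classical
  have h1 : ∀ a b, adj k (splice G v) a b =
      ((spl (fun a b => Fintype.card {e // G.s e = a ∧ G.r e = b}) v a b : ℕ) : k) := by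
    intro a b
    rw [← p_spladj G _ (fun _ _ => rfl) v a b]
    rfl
  let B : Matrix V (Fin 2) k := Matrix.of fun a j => if a = v ∧ j = 0 then -1 else 0
  let C : Matrix (Fin 2) V k := Matrix.of fun i b => if b = v ∧ i = 0 then -1 else 0
  let D : Matrix (Fin 2) (Fin 2) k := !![0, -1; -1, 0]
  have h2 : (1 - adj k (splice G v)) = Matrix.fromBlocks (1 - adj k G) B C D := by
    ext a b
    rcases a with a | i <;> rcases b with b | j
    · rw [Matrix.sub_apply, h1, Matrix.fromBlocks_apply₁₁, Matrix.sub_apply]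
      simp only [spl, adj, Matrix.of_apply, Matrix.one_apply, Sum.inl.injEq]
    · rw [Matrix.sub_apply, h1, Matrix.fromBlocks_apply₁₂]
      by_cases hab : a = v ∧ j = 0
      · simp [spl, B, hab]
      · simp [spl, B, hab]
    · rw [Matrix.sub_apply, h1, Matrix.fromBlocks_apply₂₁]
      by_cases hab : b = v ∧ i = 0
      · simp [spl, C, hab]
      · simp [spl, C, hab]
    · rw [Matrix.sub_apply, h1, Matrix.fromBlocks_apply₂₂]
      fin_cases i <;> fin_cases j <;> simp [spl, D]
  have hDD : D * D = 1 := by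
    ext i j
    fin_cases i <;> fin_cases j <;> simp [D, Matrix.mul_apply, Fin.sum_univ_two]
  let _ : Invertible D := ⟨D, hDD, hDD⟩
  have h3 : ⅟D = D := rfl
  have h4 : B * D * C = 0 := by
    ext a b
    simp [B, C, D, Matrix.mul_apply, Fin.sum_univ_two]
  rw [h2, Matrix.det_fromBlocks₂₂, h3, h4, sub_zero]
  have h5 : D.det = -1 := by
    simp [D, Matrix.det_fin_two]
  rw [h5, neg_one_mul]

theorem noSink_splice {V E : Type} {G : CKS.Graph V E} (hG : NoSink G) (v : V) :
    NoSink (splice G v) := by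
  rintro (a | i)
  · obtain ⟨e, he⟩ := hG a
    exact ⟨.inl e, by simp [splice, he]⟩
  · fin_cases i
    · exact ⟨.inr 0, rfl⟩
    · exact ⟨.inr 1, rfl⟩

/-- the involution conjugate of an isomorphism -/
noncomputable def stc {V E V' E' : Type} {G : CKS.Graph V E} {H : CKS.Graph V' E'}
    (φ : LPA k G ≃ₐ[k] LPA k H) : LPA k G ≃ₐ[k] LPA k H :=
  AlgEquiv.ofAlgHom
    { toFun := fun a => sta k H H.IsReg (φ (sta k G G.IsReg a))
      map_one' := by rw [sta_one, map_one, sta_one]
      map_mul' := fun a b => by rw [sta_mul, map_mul, sta_mul]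
      map_zero' := by rw [sta_zero, map_zero, sta_zero]
      map_add' := fun a b => by rw [sta_add, map_add, sta_add]
      commutes' := fun c => by rw [sta_algebraMap, AlgEquiv.commutes, sta_algebraMap] }
    { toFun := fun a => sta k G G.IsReg (φ.symm (sta k H H.IsReg a))
      map_one' := by rw [sta_one, map_one, sta_one]
      map_mul' := fun a b => by rw [sta_mul, map_mul, sta_mul]
      map_zero' := by rw [sta_zero, map_zero, sta_zero]
      map_add' := fun a b => by rw [sta_add, map_add, sta_add]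
      commutes' := fun c => by rw [sta_algebraMap, AlgEquiv.commutes, sta_algebraMap] }
    (by
      refine AlgHom.ext fun a => ?_
      change sta k H H.IsReg (φ (sta k G G.IsReg (sta k G G.IsReg (φ.symm (sta k H H.IsReg a)))))
        = a
      rw [sta_sta, φ.apply_symm_apply, sta_sta])
    (by
      refine AlgHom.ext fun a => ?_
      change sta k G G.IsReg (φ.symm (sta k H H.IsReg (sta k H H.IsReg (φ (sta k G G.IsReg a)))))
        = a
      rw [sta_sta, φ.symm_apply_apply, sta_sta])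

/-- the left module of a right module -/
noncomputable def opl {V E : Type} {G : CKS.Graph V E} {N : Type u} [AddCommGroup N] [Module k N]
    (R : LPA k G →ₐ[k] (Module.End k N)ᵐᵒᵖ) : LPA k G →ₐ[k] Module.End k N where
  toFun a := (R (sta k G G.IsReg a)).unop
  map_one' := by rw [sta_one, map_one]; rfl
  map_mul' a b := by rw [sta_mul, map_mul]; rfl
  map_zero' := by rw [sta_zero, map_zero]; rfl
  map_add' a b := by rw [sta_add, map_add]; rfl
  commutes' c := by rw [sta_algebraMap, AlgHom.commutes]; rfl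

end

end FINAL_

open FINAL_ in
/-- The determinant for isomorphisms matching the trivial modules. -/
theorem det_eq (hMAIN : T_MAIN.{u}) (hTRIV : T_TRIV.{u}) (k : Type u) [Field k]
    {V E V' E' : Type} [Fintype V] [DecidableEq V] [Fintype E] [Fintype V'] [DecidableEq V']
    [Fintype E'] (G : CKS.Graph V E) (H : CKS.Graph V' E') (hG : NoSink G) (hH0 : NoSink H)
    (hU : Unb H) (φ : LPA k G ≃ₐ[k] LPA k H) (hφ : MatchTriv φ) :
    Matrix.det (1 - adj k G) = Matrix.det (1 - adj k H) := by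
  obtain ⟨⟨N, _, _, ρ, ⟨hH, hH'⟩, ⟨hG1, hG1'⟩⟩, ⟨N1, _, _, R, ⟨hH2, hH2'⟩, ⟨hG2, hG2'⟩⟩⟩ := hφ
  obtain ⟨WG, lG, dG⟩ := hTRIV k G hG
  obtain ⟨WH, lH, dH⟩ := hTRIV k H hH0
  have a1 : ∀ e f, hG1 (yl (trep k G) e f) =
      yl (ρ.comp (φ : LPA k G →ₐ[k] LPA k H)) e (hG1 f) :=
    fun e f => (hG1' f _).2.2 e (trep_gF k G e f)
  have a2 : ∀ e f, hG2 (yl (trep k G) e f) =
      xr (R.comp (φ : LPA k G →ₐ[k] LPA k H)) e (hG2 f) :=
    fun e f => (hG2' f _).2.1 e (trep_gF k G e f)
  have a3 : ∀ e f, hH (yl (trep k H) e f) = yl ρ e (hH f) :=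
    fun e f => (hH' f _).2.2 e (trep_gF k H e f)
  have a4 : ∀ e f, hH2 (yl (trep k H) e f) = xr R e (hH2 f) :=
    fun e f => (hH2' f _).2.1 e (trep_gF k H e f)
  have l1 := lat_image hG1 _ _ a1 WG lG
  have l2 := lat_image hG2 _ _ a2 WG lG
  have l3 := lat_image hH _ _ a3 WH lH
  have l4 := lat_image hH2 _ _ a4 WH lH
  have hm := hMAIN k G H hG hH0 hU φ ρ R _ _ _ _ l1 l3 l2 l4
  have e1 : pdet (rs _ lG.st) (rs _ lG.st) = pdet (rs _ l1.st) (rs _ l2.st) := by
    refine pdet_congr _ _ _ _ (hG1.submoduleMap WG) (hG2.submoduleMap WG) ?_ ?_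
    · intro e v
      exact Subtype.ext (a1 e v)
    · intro e v
      exact Subtype.ext (a2 e v)
  have e2 : pdet (rs _ lH.st) (rs _ lH.st) = pdet (rs _ l3.st) (rs _ l4.st) := by
    refine pdet_congr _ _ _ _ (hH.submoduleMap WH) (hH2.submoduleMap WH) ?_ ?_
    · intro e v
      exact Subtype.ext (a3 e v)
    · intro e v
      exact Subtype.ext (a4 e v)
  rw [← dG, ← dH, e1, e2, hm]

open FINAL_ in
theorem final (hLL : T_LL.{u}) (hMAIN : T_MAIN.{u}) (hTRIV : T_TRIV.{u}) (hPATHS : T_PATHS)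
    (k : Type u) [Field k] :
    (∀ {V E V' E' : Type} [Fintype V] [DecidableEq V] [Fintype E] [Fintype V'] [DecidableEq V']
      [Fintype E'] (G : CKS.Graph V E) (H : CKS.Graph V' E') (_ : NoSink G) (_ : NoSink H)
      (φ : LPA k G ≃ₐ[k] LPA k H),
      (∀ {N : Type u} [AddCommGroup N] [Module k N] (ρ : LPA k H →ₐ[k] Module.End k N),
        (∃ W, IsLat (yl (ρ.comp (φ : LPA k G →ₐ[k] LPA k H))) W) ↔ ∃ W, IsLat (yl ρ) W) ∧
      (∀ {N : Type u} [AddCommGroup N] [Module k N] (R : LPA k H →ₐ[k] (Module.End k N)ᵐᵒᵖ),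
        (∃ W, IsLat (xr (R.comp (φ : LPA k G →ₐ[k] LPA k H))) W) ↔ ∃ W, IsLat (xr R) W) ∧
      (Exits H → ∀ {N N1 : Type u} [AddCommGroup N] [Module k N] [AddCommGroup N1] [Module k N1]
        (ρ : LPA k H →ₐ[k] Module.End k N) (R : LPA k H →ₐ[k] (Module.End k N1)ᵐᵒᵖ)
        (WG WH : Submodule k N) (XG XH : Submodule k N1)
        (hWG : IsLat (yl (ρ.comp (φ : LPA k G →ₐ[k] LPA k H))) WG) (hWH : IsLat (yl ρ) WH)
        (hXG : IsLat (xr (R.comp (φ : LPA k G →ₐ[k] LPA k H))) XG) (hXH : IsLat (xr R) XH),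
        pdet (rs _ hWG.st) (rs _ hXG.st) = pdet (rs _ hWH.st) (rs _ hXH.st)) ∧
      (Exits H → MatchTriv φ → Matrix.det (1 - adj k G) = Matrix.det (1 - adj k H))) ∧
    (∀ {V E : Type} [Fintype V] [DecidableEq V] [Fintype E] (G : CKS.Graph V E) (_ : NoSink G)
      (_ : Exits G) (v : V) (φ : LPA k (splice G v) ≃ₐ[k] LPA k G), MatchTriv φ →
      2 * Matrix.det (1 - adj k G) = 0) := by
  refine ⟨?_, ?_⟩
  · intro V E V' E' _ _ _ _ _ _ G H hG hH φ
    have key : ∀ {V E V' E' : Type} [Fintype V] [Fintype E] [Fintype V'] [Fintype E']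
        (G : CKS.Graph V E) (H : CKS.Graph V' E') (_ : NoSink G) (_ : NoSink H)
        (φ : LPA k G ≃ₐ[k] LPA k H) {N : Type u} [AddCommGroup N] [Module k N]
        (ρ : LPA k H →ₐ[k] Module.End k N),
        (∃ W, IsLat (yl (ρ.comp (φ : LPA k G →ₐ[k] LPA k H))) W) ↔ ∃ W, IsLat (yl ρ) W := by
      intro V E V' E' _ _ _ _ G H hG hH φ N _ _ ρ
      constructor
      · rintro ⟨W, hW⟩
        exact hLL k G H hG hH φ (A := k) (Or.inr (Field.toIsField k))
          (fun a n h => smul_eq_zero.1 h) ρ W hW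
      · rintro ⟨W, hW⟩
        refine hLL k H G hH hG φ.symm (A := k) (Or.inr (Field.toIsField k))
          (fun a n h => smul_eq_zero.1 h) (ρ.comp (φ : LPA k G →ₐ[k] LPA k H)) W ?_
        have : (fun e => (ρ.comp (φ : LPA k G →ₐ[k] LPA k H)) (φ.symm (gh e))) = yl ρ := by
          funext e
          simp [yl]
        rw [this]; exact hW
    refine ⟨fun ρ => key G H hG hH φ ρ, fun {N} _ _ R => ?_, fun hex => ?_, fun hex h => ?_⟩
    · have h1 := key G H hG hH (stc φ) (opl R)
      have h2 : yl (opl R) = xr R := by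
        funext e
        change (R (sta k H H.IsReg (gh e))).unop = _
        rw [sta_gh]; rfl
      have h3 : yl ((opl R).comp (stc φ : LPA k G →ₐ[k] LPA k H)) =
          xr (R.comp (φ : LPA k G →ₐ[k] LPA k H)) := by
        funext e
        change (R (sta k H H.IsReg (sta k H H.IsReg (φ (sta k G G.IsReg (gh e)))))).unop = _
        rw [sta_sta, sta_gh]; rfl
      rw [h2, h3] at h1
      exact h1
    · intro N N1 _ _ _ _ ρ R WG WH XG XH hWG hWH hXG hXH
      exact hMAIN k G H hG hH (hPATHS H hH hex) φ ρ R WG WH XG XH hWG hWH hXG hXH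
    · exact det_eq hMAIN hTRIV k G H hG hH (hPATHS H hH hex) φ h
  · intro V E _ _ _ G hG hex v φ h
    have h1 := det_eq hMAIN hTRIV k (splice G v) G (noSink_splice hG v) hG (hPATHS G hG hex) φ h
    rw [det_splice] at h1
    rw [two_mul]
    nth_rewrite 1 [← h1]
    exact neg_add_cancel _

end Pool.Agent.IDP
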