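import Pool.Agent.IDP.Targets

set_option autoImplicit false

/-!
# IDP-PATHS: numbers of paths are unbounded
-/

universe u

namespace Pool.Agent.IDP

open CKS

namespace PATHS_

variable {V E : Type} [Fintype V] [Fintype E] (G : CKS.Graph V E)

open Classical in
/-- The paths of length `j` starting at `v`. -/
noncomputable def PS : ℕ → V → Finset (List E)
  | 0, _ => {[]}
  | j + 1, v => (Finset.univ.filter fun e => G.s e = v).biUnion
      fun e => (PS j (G.r e)).image (List.cons e)

omit [Fintype V] in
theorem mem_PS (j : ℕ) : ∀ (v : V) (w : List E), w ∈ PS G j v →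
    w.length = j ∧ w.IsChain (fun e f => G.r e = G.s f) ∧ ∀ f w', w = f :: w' → G.s f = v := by
  classical
  induction j with
  | zero =>
    intro v w hw
    simp only [PS, Finset.mem_singleton] at hw
    subst hw
    exact ⟨rfl, List.IsChain.nil, fun f w' h => by cases h⟩
  | succ j ih =>
    intro v w hw
    simp only [PS, Finset.mem_biUnion, Finset.mem_filter, Finset.mem_univ, true_and,
      Finset.mem_image] at hw
    obtain ⟨e, he, w1, hw1, rfl⟩ := hw
    obtain ⟨h1, h2, h3⟩ := ih _ _ hw1
    refine ⟨by rw [List.length_cons, h1], ?_, ?_⟩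
    · rcases w1 with _ | ⟨f, w2⟩
      · exact List.isChain_singleton e
      · exact List.isChain_cons_cons.2 ⟨(h3 f w2 rfl).symm, h2⟩
    · intro f w' h
      injection h with h4 h5
      rw [← h4, he]

omit [Fintype V] in
open Classical in
theorem card_PS (j : ℕ) (v : V) : (PS G (j + 1) v).card =
    ∑ e ∈ Finset.univ.filter (fun e => G.s e = v), (PS G j (G.r e)).card := by
  rw [PS, Finset.card_biUnion]
  · refine Finset.sum_congr rfl fun e _ => ?_
    exact Finset.card_image_of_injective _ (List.cons_injective)
  · intro e _ f _ hef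
    rw [Function.onFun, Finset.disjoint_left]
    intro w h1 h2
    obtain ⟨w1, _, rfl⟩ := Finset.mem_image.1 h1
    obtain ⟨w2, _, h3⟩ := Finset.mem_image.1 h2
    injection h3 with h4 _
    exact hef h4.symm

omit [Fintype V] in
theorem mono_PS (hG : NoSink G) (v : V) : Monotone fun j => ((PS G j v).card : ENNReal) := by
  classical
  refine monotone_nat_of_le_succ fun j => ?_
  have key : ∀ (j : ℕ) (v : V), (PS G j v).card ≤ (PS G (j + 1) v).card := by
    intro j
    induction j with
    | zero =>
      intro v
      rw [card_PS]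
      obtain ⟨e, he⟩ := hG v
      have h1 : (PS G 0 v).card = 1 := by simp [PS]
      rw [h1]
      have h2 : (PS G 0 (G.r e)).card = 1 := by simp [PS]
      rw [← h2]
      exact Finset.single_le_sum (f := fun e => (PS G 0 (G.r e)).card) (fun _ _ => Nat.zero_le _)
        (Finset.mem_filter.2 ⟨Finset.mem_univ _, he⟩)
    | succ j ih =>
      intro v
      rw [card_PS, card_PS]
      exact Finset.sum_le_sum fun e _ => ih _
  exact_mod_cast key j v

/-- The supremum of the numbers of paths. -/
noncomputable def LL (v : V) : ENNReal := ⨆ j, ((PS G j v).card : ENNReal)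

omit [Fintype V] in
open Classical in
theorem LL_eq (hG : NoSink G) (v : V) :
    LL G v = ∑ e ∈ Finset.univ.filter (fun e => G.s e = v), LL G (G.r e) := by
  unfold LL
  rw [ENNReal.finsetSum_iSup_of_monotone fun e => mono_PS G hG (G.r e),
    ← (mono_PS G hG v).iSup_nat_add 1]
  refine iSup_congr fun j => ?_
  rw [card_PS, Nat.cast_sum]

omit [Fintype V] in
theorem one_le_LL (v : V) : 1 ≤ LL G v := by
  refine le_trans ?_ (le_iSup (fun j => ((PS G j v).card : ENNReal)) 0)
  simp [PS]

end PATHS_

open PATHS_ in
theorem p_PATHS : T_PATHS := by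
  classical
  intro V E _ _ G hG hE v n
  by_contra hcon
  -- all numbers of paths from `v` are smaller than `n`
  have h1 : LL G v ≤ n := by
    refine iSup_le fun j => ?_
    have h2 : (PS G (j + 1) v).card < n := by
      by_contra h3
      refine hcon ⟨j, PS G (j + 1) v, not_lt.1 h3, fun w hw => ?_⟩
      obtain ⟨a1, a2, a3⟩ := mem_PS G _ _ _ hw
      have hne : w ≠ [] := by
        rintro rfl
        simp at a1
      refine ⟨a1, ⟨hne, a2⟩, ?_⟩
      obtain ⟨f, w', rfl⟩ := List.exists_cons_of_ne_nil hne
      exact ⟨f, w', rfl, a3 _ _ rfl⟩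
    refine le_trans (mono_PS G hG v (Nat.le_succ j)) ?_
    change ((PS G (j + 1) v).card : ENNReal) ≤ n
    exact_mod_cast h2.le
  -- a vertex with the minimal value
  obtain ⟨v0, -, hv0⟩ := Finset.exists_min_image (Finset.univ : Finset V) (LL G)
    ⟨v, Finset.mem_univ v⟩
  have hfin : LL G v0 ≠ ⊤ := by
    intro h
    have h2 := hv0 v (Finset.mem_univ v)
    rw [h, top_le_iff] at h2
    rw [h2, top_le_iff] at h1
    exact ENNReal.natCast_ne_top n h1
  -- the vertices with this value emit one edge
  have huniq : ∀ a, LL G a = LL G v0 → ∀ e f, G.s e = a → G.s f = a → e = f := by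
    intro a ha e f he hf
    by_contra hef
    have h2 := LL_eq G hG a
    have h3 : ∑ x ∈ ({e, f} : Finset E), LL G (G.r x) ≤
        ∑ e ∈ Finset.univ.filter (fun e => G.s e = a), LL G (G.r e) := by
      refine Finset.sum_le_sum_of_subset ?_
      intro x hx
      rw [Finset.mem_insert, Finset.mem_singleton] at hx
      rw [Finset.mem_filter]
      rcases hx with rfl | rfl
      · exact ⟨Finset.mem_univ _, he⟩
      · exact ⟨Finset.mem_univ _, hf⟩
    rw [← h2, ha, Finset.sum_pair hef] at h3
    have h4 := hv0 (G.r e) (Finset.mem_univ _)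
    have h5 := (one_le_LL G (G.r f))
    have h6 : LL G v0 + 1 ≤ LL G v0 := le_trans (add_le_add h4 h5) h3
    exact absurd h6 (not_le.2 (ENNReal.lt_add_right hfin one_ne_zero))
  choose e0 he0 using hG
  have hstep : ∀ a, LL G a = LL G v0 → LL G (G.r (e0 a)) = LL G v0 := by
    intro a ha
    refine le_antisymm ?_ (hv0 _ (Finset.mem_univ _))
    have h2 := LL_eq G (fun v => ⟨e0 v, he0 v⟩) a
    rw [← ha, h2]
    exact Finset.single_le_sum (f := fun e => LL G (G.r e)) (fun _ _ => zero_le)
      (Finset.mem_filter.2 ⟨Finset.mem_univ _, he0 a⟩)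
  -- iterate
  let F : V → V := fun a => G.r (e0 a)
  have hiter : ∀ i, LL G (F^[i] v0) = LL G v0 := by
    intro i
    induction i with
    | zero => rfl
    | succ i ih =>
      rw [Function.iterate_succ_apply']
      exact hstep _ ih
  obtain ⟨u, hu, hper⟩ : ∃ u, (∀ i, LL G (F^[i] u) = LL G v0) ∧ u ∈ Function.periodicPts F := by
    obtain ⟨i, j, hij, h⟩ := Finite.exists_ne_map_eq_of_infinite fun i : ℕ => F^[i] v0
    wlog hlt : i < j generalizing i j
    · exact this j i hij.symm h.symm (lt_of_le_of_ne (not_lt.1 hlt) hij.symm)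
    refine ⟨F^[i] v0, fun m => ?_, j - i, Nat.sub_pos_of_lt hlt, ?_⟩
    · rw [← Function.iterate_add_apply]
      exact hiter _
    · rw [Function.IsPeriodicPt, Function.IsFixedPt, ← Function.iterate_add_apply,
        Nat.sub_add_cancel hlt.le]
      exact h.symm
  have hp : 0 < Function.minimalPeriod F u := Function.minimalPeriod_pos_of_mem_periodicPts hper
  set p := Function.minimalPeriod F u with hpdef
  have hcyc : IsCycle G ((List.range p).map fun i => e0 (F^[i] u)) := by
    obtain ⟨q, hq⟩ : ∃ q, p = q + 1 := ⟨p - 1, by omega⟩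
    have hne : ((List.range p).map fun i => e0 (F^[i] u)) ≠ [] := by
      rw [Ne, List.map_eq_nil_iff, List.range_eq_nil]
      omega
    refine ⟨hne, ?_, ?_, ?_⟩
    · rw [List.isChain_map, hq]
      rw [List.isChain_range_succ]
      intro m _
      rw [he0, Function.iterate_succ_apply']
    · rw [List.getLast_map, List.head_map]
      rw [he0, List.getLast_range, List.head_range]
      have h2 : F (F^[p - 1] u) = u := by
        rw [← Function.iterate_succ_apply' F, hq]
        have h3 : (q + 1 - 1).succ = Function.minimalPeriod F u := by omega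
        rw [h3]
        exact Function.iterate_minimalPeriod
      exact h2
    · rw [List.map_map]
      have h2 : (G.s ∘ fun i => e0 (F^[i] u)) = fun i => F^[i] u := by
        funext i
        exact he0 _
      rw [h2]
      refine List.Nodup.map_on ?_ List.nodup_range
      intro x hx y hy hxy
      rw [List.mem_range] at hx hy
      exact Function.iterate_injOn_Iio_minimalPeriod hx hy hxy
  obtain ⟨e, he, f, hfe, hfs⟩ := hE _ hcyc
  obtain ⟨i, _, rfl⟩ := List.mem_map.1 he
  exact hfe (huniq _ (hu i) f _ (by rw [hfs, he0]) (he0 _))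

end Pool.Agent.IDP
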