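import Pool.Agent.IDP.Final

/-!
# The statement in short form

`L` is a `k`-algebra with isomorphisms `α : L_k(G) → L`, `β : L_k(H) → L`.
-/

set_option autoImplicit false

universe u

namespace Pool.Agent.IDP

open CKS TensorProduct

section Elements

variable {k : Type u} [Field k] {V E : Type} {G : CKS.Graph V E} {L : Type u} [Ring L]
  [Algebra k L]

/-- The vertices of `G` as elements of `L`. -/
noncomputable def VT (α : LPA k G ≃ₐ[k] L) (v : V) : L := α (vt v)
/-- The edges of `G` as elements of `L`. -/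
noncomputable def ED (α : LPA k G ≃ₐ[k] L) (e : E) : L := α (ed e)
/-- The ghost edges of `G` as elements of `L`. -/
noncomputable def GH (α : LPA k G ≃ₐ[k] L) (e : E) : L := α (gh e)

end Elements

section Ops

variable {k : Type u} [Field k] {ι : Type} {L : Type u} [Ring L] [Algebra k L] {N : Type u}
  [AddCommGroup N] [Module k N]

/-- The operators of elements of `L` on a left module (given by `ρ`). -/
def opL (ρ : L →ₐ[k] Module.End k N) (y : ι → L) (i : ι) : Module.End k N := ρ (y i)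

/-- The operators of elements of `L` on a right module (given by `R`). -/
def opR (R : L →ₐ[k] (Module.End k N)ᵐᵒᵖ) (y : ι → L) (i : ι) : Module.End k N := (R (y i)).unop

end Ops

/-- The determinant of `1 - Σ_i T_i`. -/
noncomputable def sdet {k : Type u} [Field k] {ι : Type} [Fintype ι] {M : Type u} [AddCommGroup M]
    [Module k M] (T : ι → Module.End k M) : k := LinearMap.det (1 - ∑ i, T i)

/-- The operators `a_i ⊗ b_i`. -/
noncomputable def tns {k : Type u} [Field k] {ι : Type} {V W : Type u}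
    [AddCommGroup V] [Module k V] [AddCommGroup W] [Module k W]
    (a : ι → Module.End k V) (b : ι → Module.End k W) (i : ι) : Module.End k (V ⊗[k] W) :=
  TensorProduct.map (a i) (b i)

/-- The determinant of `1 - Σ_i a_i ⊗ b_i`. -/
noncomputable def pd {k : Type u} [Field k] {ι : Type} [Fintype ι] {V W : Type u}
    [AddCommGroup V] [Module k V] [AddCommGroup W] [Module k W]
    (a : ι → Module.End k V) (b : ι → Module.End k W) : k := sdet (tns a b)

section Lat

variable {k : Type u} [Field k] {V E V' E' : Type} {G : CKS.Graph V E} {H : CKS.Graph V' E'}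
  {L : Type u} [Ring L] [Algebra k L]

/-- The same left modules over `L` have lattices for `G` and for `H`. -/
def LatL (α : LPA k G ≃ₐ[k] L) (β : LPA k H ≃ₐ[k] L) : Prop :=
  ∀ (N : Type u) [AddCommGroup N] [Module k N] (ρ : L →ₐ[k] Module.End k N),
    (∃ W, IsLat (opL ρ (GH α)) W) ↔ ∃ W, IsLat (opL ρ (GH β)) W

/-- The same right modules over `L` have lattices for `G` and for `H`. -/
def LatR (α : LPA k G ≃ₐ[k] L) (β : LPA k H ≃ₐ[k] L) : Prop :=
  ∀ (N : Type u) [AddCommGroup N] [Module k N] (R : L →ₐ[k] (Module.End k N)ᵐᵒᵖ),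
    (∃ W, IsLat (opR R (ED α)) W) ↔ ∃ W, IsLat (opR R (ED β)) W

/-- For every left module `N` and right module `N'` over `L` the determinant
`det (1 - Σ_e W_e ⊗ X_e)` is the same for all `G`-lattices and all `H`-lattices `W` in `N` and
`X` in `N'`. -/
def Pairing [Fintype E] [Fintype E'] (α : LPA k G ≃ₐ[k] L) (β : LPA k H ≃ₐ[k] L) : Prop :=
  ∀ (N N' : Type u) [AddCommGroup N] [Module k N] [AddCommGroup N'] [Module k N']
    (ρ : L →ₐ[k] Module.End k N) (R : L →ₐ[k] (Module.End k N')ᵐᵒᵖ)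
    (W W' : Submodule k N) (X X' : Submodule k N')
    (hW : IsLat (opL ρ (GH α)) W) (hX : IsLat (opR R (ED α)) X)
    (hW' : IsLat (opL ρ (GH β)) W') (hX' : IsLat (opR R (ED β)) X'),
    pd (rs _ hW.st) (rs _ hX.st) = pd (rs _ hW'.st) (rs _ hX'.st)

end Lat

section Triv

variable {k : Type u} [Field k] {V E : Type} (G : CKS.Graph V E)

/-- Locally constant functions on the space of infinite paths. -/
def IsLC (f : IPath G → k) : Prop :=
  ∃ n : ℕ, ∀ x y : IPath G, (∀ i < n, x.1 i = y.1 i) → f x = f y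

/-- The space `N` with the operators `P v`, `X e`, `Y e` is isomorphic to the space of the locally
constant functions on the space of infinite paths with the operators `pF v`, `eF e`, `gF e`. -/
def IsTriv {N : Type u} [AddCommGroup N] [Module k N] (P : V → Module.End k N)
    (X Y : E → Module.End k N) : Prop :=
  ∃ h : N → IPath G → k, (∀ a b x, h (a + b) x = h a x + h b x) ∧
    (∀ (c : k) a x, h (c • a) x = c * h a x) ∧ Function.Injective h ∧
    (∀ f, IsLC G f ↔ ∃ n, h n = f) ∧ (∀ v n, h (P v n) = pF v (h n)) ∧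
    (∀ e n, h (X e n) = eF e (h n)) ∧ ∀ e n, h (Y e n) = gF e (h n)

variable {G} {L : Type u} [Ring L] [Algebra k L] {N : Type u} [AddCommGroup N] [Module k N]

/-- The left module over `L` given by `ρ` is the trivial left module of `G`. -/
def TrivL (α : LPA k G ≃ₐ[k] L) (ρ : L →ₐ[k] Module.End k N) : Prop :=
  IsTriv G (opL ρ (VT α)) (opL ρ (ED α)) (opL ρ (GH α))

/-- The right module over `L` given by `R` is the trivial right module of `G`. -/
def TrivR (α : LPA k G ≃ₐ[k] L) (R : L →ₐ[k] (Module.End k N)ᵐᵒᵖ) : Prop :=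
  IsTriv G (opR R (VT α)) (opR R (GH α)) (opR R (ED α))

variable {V' E' : Type} {H : CKS.Graph V' E'}

/-- The trivial left modules of `G` and `H` are isomorphic left modules over `L`, and the trivial
right modules are isomorphic right modules over `L`. -/
def Match (α : LPA k G ≃ₐ[k] L) (β : LPA k H ≃ₐ[k] L) : Prop :=
  (∃ (N : Type u) (_ : AddCommGroup N) (_ : Module k N) (ρ : L →ₐ[k] Module.End k N),
    TrivL α ρ ∧ TrivL β ρ) ∧
  ∃ (N : Type u) (_ : AddCommGroup N) (_ : Module k N) (R : L →ₐ[k] (Module.End k N)ᵐᵒᵖ),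
    TrivR α R ∧ TrivR β R

end Triv

/-! ### the trivial modules exist -/

section Ex

variable (k : Type u) [Field k] {V E : Type} (G : CKS.Graph V E)

theorem trivL_trep : TrivL (k := k) (G := G) AlgEquiv.refl (trep k G) :=
  ⟨fun n => n.1, fun _ _ _ => rfl, fun _ _ _ => rfl, Subtype.val_injective,
    fun f => ⟨fun h => ⟨⟨f, h⟩, rfl⟩, by
      rintro ⟨n, rfl⟩
      exact n.2⟩, trep_pF k G, trep_eF k G, trep_gF k G⟩

theorem trivR_trepR : TrivR (k := k) (G := G) AlgEquiv.refl (trepR k G) := by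
  refine ⟨fun n => n.1, fun _ _ _ => rfl, fun _ _ _ => rfl, Subtype.val_injective,
    fun f => ⟨fun h => ⟨⟨f, h⟩, rfl⟩, by
      rintro ⟨n, rfl⟩
      exact n.2⟩, fun v n => ?_, fun e n => ?_, fun e n => ?_⟩
  · change ((trepR k G (vt v)).unop n).1 = _
    rw [trepR_unop, sta_vt]
    exact trep_pF k G v n
  · change ((trepR k G (gh e)).unop n).1 = _
    rw [trepR_unop, sta_gh]
    exact trep_eF k G e n
  · change ((trepR k G (ed e)).unop n).1 = _
    rw [trepR_unop, sta_ed]
    exact trep_gF k G e n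

end Ex

/-! ### passage from the short form -/

section Pass

variable {k : Type u} [Field k] {V E : Type} {G : CKS.Graph V E}

/-- the isomorphism of `IsTriv` as an equivalence -/
theorem IsTriv.equiv {N : Type u} [AddCommGroup N] [Module k N] {P : V → Module.End k N}
    {X Y : E → Module.End k N} (h : IsTriv G P X Y) :
    ∃ g : lc k G ≃ₗ[k] N, ∀ f f' : lc k G,
      (∀ v : V, (f' : IPath G → k) = pF v f → g f' = P v (g f)) ∧
      (∀ e : E, (f' : IPath G → k) = eF e f → g f' = X e (g f)) ∧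
      (∀ e : E, (f' : IPath G → k) = gF e f → g f' = Y e (g f)) := by
  obtain ⟨h, ha, hs, hi, hr, hP, hX, hY⟩ := h
  let h' : N →ₗ[k] lc k G :=
    { toFun := fun n => ⟨h n, (hr (h n)).2 ⟨n, rfl⟩⟩
      map_add' := fun a b => Subtype.ext (funext fun x => ha a b x)
      map_smul' := fun c a => Subtype.ext (funext fun x => hs c a x) }
  have hh : ∀ n, ((h' n : lc k G) : IPath G → k) = h n := fun n => rfl
  have hb : Function.Bijective h' := by
    constructor
    · intro a b hab
      apply hi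
      rw [← hh, ← hh, hab]
    · rintro ⟨f, hf⟩
      obtain ⟨n, hn⟩ := (hr f).1 hf
      exact ⟨n, Subtype.ext hn⟩
  let e := LinearEquiv.ofBijective h' hb
  have he : ∀ f : lc k G, h (e.symm f) = f := by
    intro f
    have : h' (e.symm f) = f := e.apply_symm_apply f
    rw [← hh, this]
  refine ⟨e.symm, fun f f' => ⟨fun v hv => hi ?_, fun x hx => hi ?_, fun x hx => hi ?_⟩⟩
  · rw [he, hP, he, hv]
  · rw [he, hX, he, hx]
  · rw [he, hY, he, hx]

end Pass

theorem final2 (hLL : T_LL.{u}) (hMAIN : T_MAIN.{u}) (hTRIV : T_TRIV.{u}) (hPATHS : T_PATHS)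
    (k : Type u) [Field k] :
    (∀ {V E V' E' : Type} [Fintype V] [DecidableEq V] [Fintype E] [Fintype V'] [DecidableEq V']
      [Fintype E'] (G : CKS.Graph V E) (H : CKS.Graph V' E') (_ : NoSink G) (_ : NoSink H)
      (L : Type u) [Ring L] [Algebra k L] (α : LPA k G ≃ₐ[k] L) (β : LPA k H ≃ₐ[k] L),
      LatL α β ∧ LatR α β ∧ (Exits H → Pairing α β) ∧
      (Exits H → Match α β → Matrix.det (1 - adj k G) = Matrix.det (1 - adj k H))) ∧
    (∀ {V E : Type} [Fintype V] [DecidableEq V] [Fintype E] (G : CKS.Graph V E) (_ : NoSink G)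
      (_ : Exits G) (v : V) (L : Type u) [Ring L] [Algebra k L] (α : LPA k (splice G v) ≃ₐ[k] L)
      (β : LPA k G ≃ₐ[k] L), Match α β → 2 * Matrix.det (1 - adj k G) = 0) := by
  obtain ⟨F1, F2⟩ := final hLL hMAIN hTRIV hPATHS k
  have key : ∀ {V E V' E' : Type} {G : CKS.Graph V E} {H : CKS.Graph V' E'} {L : Type u} [Ring L]
      [Algebra k L] (α : LPA k G ≃ₐ[k] L) (β : LPA k H ≃ₐ[k] L), Match α β →
      MatchTriv (α.trans β.symm) := by
    intro V E V' E' G H L _ _ α β ⟨⟨N, _, _, ρ, a1, a2⟩, ⟨N1, _, _, R, b1, b2⟩⟩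
    refine ⟨⟨N, _, _, ρ.comp (β : LPA k H →ₐ[k] L), ?_, ?_⟩,
      ⟨N1, _, _, R.comp (β : LPA k H →ₐ[k] L), ?_, ?_⟩⟩
    · obtain ⟨g, hg⟩ := IsTriv.equiv a2
      exact ⟨g, hg⟩
    · obtain ⟨g, hg⟩ := IsTriv.equiv a1
      refine ⟨g, fun f f' => ⟨fun v h => ?_, fun v h => ?_, fun v h => ?_⟩⟩
      · rw [(hg f f').1 v h]; simp [opL, VT]
      · rw [(hg f f').2.1 v h]; simp [opL, ED]
      · rw [(hg f f').2.2 v h]; simp [opL, GH]
    · obtain ⟨g, hg⟩ := IsTriv.equiv b2
      exact ⟨g, fun f f' => ⟨(hg f f').1, (hg f f').2.2, (hg f f').2.1⟩⟩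
    · obtain ⟨g, hg⟩ := IsTriv.equiv b1
      refine ⟨g, fun f f' => ⟨fun v h => ?_, fun v h => ?_, fun v h => ?_⟩⟩
      · rw [(hg f f').1 v h]; simp [opR, VT]
      · rw [(hg f f').2.2 v h]; simp [opR, ED]
      · rw [(hg f f').2.1 v h]; simp [opR, GH]
  refine ⟨?_, ?_⟩
  · intro V E V' E' _ _ _ _ _ _ G H hG hH L _ _ α β
    obtain ⟨f1, f2, f3, f4⟩ := F1 G H hG hH (α.trans β.symm)
    have hl : ∀ {N : Type u} [AddCommGroup N] [Module k N] (ρ : L →ₐ[k] Module.End k N),
        yl ((ρ.comp (β : LPA k H →ₐ[k] L)).comp (α.trans β.symm : LPA k G →ₐ[k] LPA k H)) =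
          opL ρ (GH α) := by
      intro N _ _ ρ
      funext e
      simp [yl, opL, GH]
    have hr : ∀ {N : Type u} [AddCommGroup N] [Module k N] (R : L →ₐ[k] (Module.End k N)ᵐᵒᵖ),
        xr ((R.comp (β : LPA k H →ₐ[k] L)).comp (α.trans β.symm : LPA k G →ₐ[k] LPA k H)) =
          opR R (ED α) := by
      intro N _ _ R
      funext e
      simp [xr, opR, ED]
    refine ⟨?_, ?_, ?_, fun hex h => f4 hex (key α β h)⟩
    · intro N _ _ ρ
      have := f1 (ρ.comp (β : LPA k H →ₐ[k] L))
      rw [hl] at this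
      exact this
    · intro N _ _ R
      have := f2 (R.comp (β : LPA k H →ₐ[k] L))
      rw [hr] at this
      exact this
    · intro hex N N' _ _ _ _ ρ R W W' X X' hW hX hW' hX'
      have h1 := f3 hex (ρ.comp (β : LPA k H →ₐ[k] L)) (R.comp (β : LPA k H →ₐ[k] L)) W W' X X'
        (by rw [hl]; exact hW) hW' (by rw [hr]; exact hX) hX'
      have h2 : ∀ (Y : E → Module.End k N) (Z : E → Module.End k N')
          (e1 : Y = opL ρ (GH α)) (e2 : Z = opR R (ED α)) (s1 : ∀ i, ∀ n ∈ W, Y i n ∈ W)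
          (s2 : ∀ i, ∀ n ∈ X, Z i n ∈ X), pdet (rs Y s1) (rs Z s2) =
          pdet (rs _ hW.st) (rs _ hX.st) := by
        intro Y Z e1 e2 s1 s2
        subst e1 e2
        rfl
      rw [h2 _ _ (hl ρ) (hr R)] at h1
      exact h1
  · intro V E _ _ _ G hG hex v L _ _ α β h
    exact F2 G hG hex v (α.trans β.symm) (key α β h)

end Pool.Agent.IDP
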