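import Pool.Agent.IDP.Triv

/-!
# Targets of the project IDP (intrinsic determinant pairing for Leavitt path algebras)

Every `T_x` is proved in its own file `Pool/Agent/IDP/P_x.lean` as
`theorem Pool.Agent.IDP.p_x (hypotheses) : T_x`. The docstrings contain the proofs.
Facts about `CKS.LPA`, `vt`, `ed`, `gh`, `yw`, `xw`, branching systems are in
`Pool/Agent/CKS/Basic.lean`, `Br.lean`, `Defs.lean`; similar arguments are in
`Pool/Agent/CKS/Thm1.lean`.
-/

set_option autoImplicit false
set_option linter.unusedVariables false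

universe u

namespace Pool.Agent.IDP

open CKS TensorProduct Polynomial

/-- GL (stable sums). `V` is a submodule of `N` stable under the operators `Y i` and absorbing, and
`g : V → Q` satisfies `g v = Σ_i X_i (g (Y_i v))`. Then `g` extends to a linear map `h : N → Q` with
the same property.
Proof. Let `g_0 : N → Q` (a function, not linear) be `g` on `V` and `0` outside, and
`g_{m+1} n = Σ_i X_i (g_m (Y_i n))`. Let `N_m = {n | wd Y w n ∈ V for all words w with |w| ≥ m}`, a
submodule, `N_m ≤ N_{m+1}`, and `Y_i` maps `N_{m+1}` into `N_m`, `N_0 ≤ V` (word of length `0`).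
By induction on `m`: for `n ∈ N_m` and `m' ≥ m` one has `g_{m'} n = g_m n` (for `m = 0` use the
hypothesis on `g` and the stability of `V`), and `g_m` is additive and homogeneous on `N_m`. Put
`h n = g_m n` for any `m` with `n ∈ N_m` (choose one). -/
def T_GL : Prop :=
  ∀ {ι : Type} [Fintype ι] {A : Type u} [CommRing A] {N Q : Type u} [AddCommGroup N] [Module A N]
    [AddCommGroup Q] [Module A Q] (Y : ι → Module.End A N) (X : ι → Module.End A Q)
    (V : Submodule A N) (hst : ∀ i, ∀ n ∈ V, Y i n ∈ V)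
    (_ : ∀ n, ∃ m, ∀ w : List ι, m ≤ w.length → wd Y w n ∈ V)
    (g : V →ₗ[A] Q) (_ : ∀ v, g v = ∑ i, X i (g (rs Y hst i v))),
    ∃ h : N →ₗ[A] Q, (∀ v : V, h v = g v) ∧ ∀ n, h n = ∑ i, X i (h (Y i n))

/-- UP (universal property of a module with a lattice). If `g : W → Q` satisfies
`g v = Σ_e e g(e* v)` then `g` extends to a homomorphism of modules over the Leavitt path algebra.
Proof. `T_GL` with `Y = yl ρ`, `X e = σ (ed e)` gives `h` with `h n = Σ_e σ(ed e) h(ρ(gh e) n)` for
all `n`. Let `a` be a vertex: `σ (vt a) (h n) = Σ_e σ(vt a * ed e) h(..)`, where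
`vt a * ed e = ed e` if `G.s e = a` and `0` otherwise; and
`h (ρ (vt a) n) = Σ_e σ(ed e) h(ρ(gh e * vt a) n)` with `gh e * vt a = gh e` if `G.s e = a` and `0`
otherwise: equal. Ghost edge `f`: `σ (gh f) (h n) = Σ_e σ(gh f * ed e) h(ρ (gh e) n) =
σ(vt (G.r f)) h(ρ (gh f) n) = h (ρ (vt (G.r f) * gh f) n) = h (ρ (gh f) n)`. Edge `f`:
`h (ρ (ed f) n) = Σ_e σ(ed e) h(ρ(gh e * ed f) n) = σ(ed f) h(ρ(vt (G.r f)) n) =
σ(ed f * vt (G.r f)) h(n)`. Then use `CKS.mem_of_gen` for the subalgebra of all `a` with
`h (ρ a n) = σ a (h n)` for all `n`. -/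
def T_UP : Prop :=
  ∀ (k : Type u) [Field k] {V E : Type} [Fintype V] [Fintype E] (G : CKS.Graph V E)
    {A : Type u} [CommRing A] [Algebra k A] {N Q : Type u} [AddCommGroup N] [Module k N]
    [Module A N] [IsScalarTower k A N] [AddCommGroup Q] [Module k Q] [Module A Q]
    [IsScalarTower k A Q] (ρ : LPA k G →ₐ[k] Module.End A N) (σ : LPA k G →ₐ[k] Module.End A Q)
    (W : Submodule A N) (hst : ∀ e, ∀ n ∈ W, yl ρ e n ∈ W)
    (_ : ∀ n, ∃ m, ∀ w : List E, m ≤ w.length → wd (yl ρ) w n ∈ W)
    (g : W →ₗ[A] Q) (_ : ∀ v, g v = ∑ e, σ (ed e) (g (rs (yl ρ) hst e v))),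
    ∃ h : N →ₗ[A] Q, (∀ v : W, h v = g v) ∧ ∀ a n, h (ρ a n) = σ a (h n)

/-- EXT (presentation by a lattice). Let `φ : L(G) ≃ L(H)` and let `N` be a module over `L(H)`
which has a `G`-lattice `W` (stable under the operators of `φ (gh e)`, absorbing). Then `W`
generates `N` with the relations `v = Σ_e φ(ed e) φ(gh e) v`: see `Pres`.
Proof. Apply `T_UP` to `G`, the representation `ρ.comp φ` of `L(G)` on `N`, the module
`Q' = (LPA k H →ₗ[k] Q)` (an `A`-module through `Q`; use universe-compatible instances) with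
the representation `σ a f = f ∘ (right multiplication by φ a)`, that is
`σ a f = f ∘ₗ LinearMap.mulRight k (φ a)`, and `g v = (b ↦ B b v)`
(`g = B.flip`, made by hand). The hypothesis on `B` is the hypothesis on `g`. One gets
`h' : N → Q'` with `h' (ρ (φ a) n) = σ a (h' n)`; put `h n = h' n 1`. For `b = φ a` one gets
`h (ρ b v) = (h' (ρ b v)) 1 = (σ a (g v)) 1 = B (1 * b) v`. -/
def T_EXT : Prop :=
  ∀ (k : Type u) [Field k] {V E V' E' : Type} [Fintype V] [Fintype E] [Fintype V'] [Fintype E']
    (G : CKS.Graph V E) (H : CKS.Graph V' E') (φ : LPA k G ≃ₐ[k] LPA k H)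
    {A : Type u} [CommRing A] [Algebra k A] {N : Type u} [AddCommGroup N] [Module k N]
    [Module A N] [IsScalarTower k A N] (ρ : LPA k H →ₐ[k] Module.End A N)
    (W : Submodule A N) (hst : ∀ e, ∀ n ∈ W, ρ (φ (gh e)) n ∈ W)
    (_ : ∀ n, ∃ m, ∀ w : List E, m ≤ w.length → wd (fun e => ρ (φ (gh e))) w n ∈ W),
    Pres ρ W (fun e => φ (ed e)) (fun e => φ (gh e)) hst

/-- GHOST. Every element of the Leavitt path algebra becomes a combination of long ghost words after
multiplication by long ghost words from the left.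
Proof. As `ghost` in `Pool/Agent/CKS/Thm1.lean`: the set of all `a` with this property is a
subalgebra (product: choose `n'` for `b` and `n`, then `m` for `a` and `n'`: then `yw w * a` is a
combination of `yw q` with `|q| ≥ n'`, and each `yw q * b` is a combination of ghost words of length
`≥ n`), contains `vt a` (`yw (e :: l) * vt a = yw l * gh e * vt a` is `yw (e :: l)` or `0`),
`ed e` (`yw (f :: l) * ed e = yw l * gh f * ed e` is `0` or `yw l * vt (G.r e)`, and
for `l = g :: l'` this is `yw l` or `0`), `gh e` (`yw w * gh e = yw (e :: w)`), and the scalars. Use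
`CKS.mem_of_gen`. -/
def T_GHOST : Prop :=
  ∀ (k : Type u) [Field k] {V E : Type} [Fintype V] [Fintype E] (G : CKS.Graph V E)
    (a : LPA k G) (n : ℕ), ∃ m, ∀ w : List E, m ≤ w.length →
      (yw w * a : LPA k G) ∈ Submodule.span k ((yw : List E → LPA k G) '' {q | n ≤ q.length})

/-- IND. The ghost words of the paths (including the empty path) are linearly independent.
Proof. Let `I = IPath G × ℤ` and use the branching system (`CKS.Br`, for `Reg = G.IsReg`)
`st (x, n) = G.s (x 0)`, `c e (x, n) = some (e x, n - 1)` if `G.r e = G.s (x 0)`, else `none`;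
`t e (x, n) = some (tl x, n + 1)` if `x 0 = e`, else `none`. The representation `B.rep k` sends
`yw q` to the operator `δ_(x, n) ↦ δ_(y, n + |q|)` if `x = q y` (the first `|q|` edges of `x` are
`q`) and to `0` otherwise. Suppose `Σ_q λ_q yw q = 0`, and let `q0` be a path; by `NoSink` choose
an infinite path `x` with the first `|q0|` edges `q0` (for the empty path: any infinite path, it
exists because `V` is assumed to be nonempty). Apply the sum to `δ_(x, 0)` and take the coefficient at
`(tail of x, |q0|)`: only words of length `|q0|` contribute because of the second coordinate, and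
among those only `q0`: the coefficient is `λ_{q0}`. -/
def T_IND : Prop :=
  ∀ (k : Type u) [Field k] {V E : Type} [Nonempty V] (G : CKS.Graph V E) (_ : NoSink G),
    LinearIndependent k
      (fun q : {q : List E // q.IsChain (fun e f => G.r e = G.s f)} => (yw q.1 : LPA k G))

/-- INF. For `p ≠ 0` the span of the elements `y_γ p`, `|γ| ≥ m`, is infinite-dimensional.
Proof (from GHOST and IND). Let `S_m` be this span; it decreases with `m`. Suppose that for some
`m`, `S_m` contains no `n` independent elements for some `n`; then it is finite-dimensional (of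
dimension `< n`), and so the decreasing sequence `S_m ≥ S_{m+1} ≥ ..` of finite-dimensional spaces
becomes constant, `= S`, from some index on. By GHOST `S ≤ span {yw q | |q| ≥ l}` for every `l`. By
IND the intersection of these spans over all `l` is `0` (`yw q = 0` if `q` is no path; an element
of the intersection has its unique coefficients supported on words of length `≥ l` for all `l`). So
`S = 0`, that is, `yw γ * p = 0` for all `γ` with `|γ| ≥ m'`. Then `p = 0`: by downward induction on
the length `yw γ * p = 0` for all `γ`, as `c = Σ_e ed e * gh e * c` for all `c` (sum over all edges;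
from `ck_rel` at all vertices, `one_rel` and `NoSink`), and `gh e * yw γ = yw (γ ++ [e])`. If `V` is
empty then `LPA k G` is trivial (`one_rel`) and there is no `p ≠ 0`. -/
def T_INF : Prop :=
  ∀ (k : Type u) [Field k] {V E : Type} [Fintype V] [Fintype E] (G : CKS.Graph V E)
    (_ : NoSink G) (p : LPA k G) (_ : p ≠ 0) (m n : ℕ),
    ∃ b : Fin n → LPA k G, LinearIndependent k b ∧
      ∀ i, b i ∈ Submodule.span k {x | ∃ γ : List E, m ≤ γ.length ∧ x = yw γ * p}

/-- STAR. If `N` is presented by `W` and the relations `n = Σ_i ξ_i (η_i n)` then for all large `D`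
every relation `c` between the ghost words with coefficients in `W` lies, after prolongation by long
words, in `SS D`.
Proof (from GHOST and IND). If `V` is empty, the algebra is trivial, `N = 0`, and all is clear (`E`
is empty, `RR = 0`). By IND choose a linear `Λ : LPA k G → (List E →₀ k)` with
`Λ (yw q) = single q 1` for all paths `q` (`LinearMap.exists_extend` of the coordinate map of the
span). For `v ∈ W` put `Λ_v a = Σ_q (Λ a q) • single q v : List E →₀ W`, bilinear.
(1) if `z` is in the span of the `yw u` with `|u| ≥ 1` then `Λ_v z` is supported on `{u | Gd G u}`,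
`Λ_v (yw q * z) = Sh q (Λ_v z)` for all `q`, and `ev (Λ_v z) = ρ z v`. (Check on `z = yw u`;
`yw u = 0` if `u` is no path, `yw q * yw u = yw (u ++ q)`.)
(2) By GHOST there is `ℓ ≥ 1` such that for all `i` and all `q` with `|q| ≥ ℓ`, `yw q * ξ i` is in
the span of the `yw u`, `|u| ≥ 1`. For `v ∈ W` and a word `q` with `|q| ≥ ℓ` put
`rho q v = Λ_v (yw q) - Σ_i Λ_{η_i v} (yw q * ξ i)`. By (1) `ev (rho q v) = ρ(yw q) (v - Σ_i ξ_i η_i v) = 0`
and `rho (q1 ++ q2) v = Sh q2 (rho q1 v)` for `|q1| ≥ ℓ`. Let `D0` be such that `rho q v` is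
supported on words of length `≤ D0` for all `v` and all `q` with `|q| = ℓ` (finitely many `q`, and
the supports are contained in the finite sets `{q} ∪ ⋃_i supp (Λ (yw q * ξ i))`). So for `D ≥ D0`:
`rho q v ∈ KK D` for `|q| = ℓ`, and `rho q v ∈ SS D` for all `q` with `|q| ≥ ℓ`.
(3) Fix `D ≥ D0`, let `P = (List E →₀ W) ⧸ SS D` and `Q = (List E → P) ⧸ Nz` with `Nz` the submodule
of the functions vanishing on all long words. Let
`B a v = class of (w ↦ class of Λ_v (yw w * a))`. Then `B a v = Σ_i B (a * ξ i) (η_i v)`: for long `w`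
GHOST gives `yw w * a ∈ span {yw q | |q| ≥ ℓ}`, and by linearity it suffices that
`Λ_v (yw q) - Σ_i Λ_{η_i v} (yw q * ξ i) = rho q v ∈ SS D` for `|q| ≥ ℓ`. So `Pres` gives
`h : N → Q` linear with `h (ρ a v) = B a v`. If `c ∈ RR i` and `ev c = 0` then
`0 = h (ev c) = Σ_w B (yw w) (c w)`, that is for all long words `w'`:
`Σ_w Λ_{c w} (yw w' * yw w) ∈ SS D`; and `Σ_w Λ_{c w} (yw w' * yw w) = Sh w' c`. -/
def T_STAR : Prop :=
  ∀ (k : Type u) [Field k] {V E : Type} [Fintype V] [Fintype E] (G : CKS.Graph V E)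
    (_ : NoSink G) {A : Type u} [CommRing A] [Algebra k A] {N : Type u} [AddCommGroup N]
    [Module k N] [Module A N] [IsScalarTower k A N] (ρ : LPA k G →ₐ[k] Module.End A N)
    (W : Submodule A N) {ι : Type} [Fintype ι] (ξ η : ι → LPA k G)
    (hst : ∀ i, ∀ n ∈ W, ρ (η i) n ∈ W) (_ : ∀ n ∈ W, n = ∑ i, ρ (ξ i) (ρ (η i) n))
    (_ : Pres ρ W ξ η hst), ∃ D0, ∀ D, D0 ≤ D → Star ρ W D

/-- KP (free growth). Pure combinatorics of words.
Facts: `ev (Sh q c) = ρ (yw q) (ev c)` for `c ∈ RR i` (a word that is no path has `yw = 0`,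
`yw q * yw w = yw (w ++ q)`); `Sh q` maps `RR i` into `RR (i + |q|)`; `Sh (q1 ++ q2) c = Sh q2 (Sh q1 c)`
for `c ∈ RR i`; for a path `q = f :: q'` and `c ∈ RR i` let `cut c` be the part of `c` supported on
the words `u` for which `u ++ q` is a path (for nonempty paths `u` this only depends on the source
of `f`): `ev (cut c) = ρ (vt (G.s f)) (ev c)` and `Sh q (cut c) = Sh q c`.
(G) `SS (D+1) ⊓ RR (D+1+i) ≤ SJ (D+1) i` for all `i`. Every element of `SS (D+1)` is in some
`SJ (D+1) J`; by induction on `J`: `SJ (D+1) J ⊓ RR (D+1+i) ≤ SJ (D+1) i`. Clear for `J ≤ i`. Let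
`J + 1 > i` and `s ∈ SJ (D+1) (J+1) ⊓ RR (D+1+i)`, so `s = s' + Σ_{|q| = J+1} Sh q (κ q)`,
`s' ∈ SJ (D+1) J ≤ RR (D+1+J)`, `κ q ∈ KK (D+1)`. For a path `q` of length `J + 1` and a word `u` of
length `D + 1` with `u ++ q` a path the coefficient of `s` at `u ++ q` is `κ q u`, and it is `0`.
So `κ' = cut (κ q) ∈ RR D ⊓ ker ev`, and with `q = f :: q'` one has
`Sh q (κ q) = Sh q' (Sh [f] κ')`, `Sh [f] κ' ∈ RR (D+1) ⊓ ker ev = KK (D+1)`. So
`Sh q (κ q) ∈ SJ (D+1) J`, hence `s ∈ SJ (D+1) J`, and the induction hypothesis applies.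
(K) Let `c` be as in `Kp`, `c w = ev (C w)`, `C w ∈ RR (D+1)`, and let `c0 ∈ RR (D+1+j)` with
`Σ_w ρ(yw w) (c w) = ev c0`. `c' = Σ_w Sh w (C w) - c0` is in `RR (D+1+(j+1))` and `ev c' = 0`. Take
`m` from `Star` for `c'`. Given `f`, `w` with `f :: w` a path of length `j + 1`, choose (`NoSink`) a
word `w'` of length `m` with `f :: w ++ w'` a path. `Sh w' c' ∈ SS (D+1) ⊓ RR (D+1+(j+1+m))`, so by (G)
`Sh w' c' = Σ_{|q| ≤ j+1+m} Sh q (κ q)`. For a word `u` of length `D + 1` with `u ++ (f :: w) ++ w'` a
path the coefficient at this word is `C (f :: w) u` on the left (`c0` has no words of length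
`D+1+j+1`), and `κ (f :: w ++ w') u` on the right. So `cut (C (f :: w) - κ (f :: w ++ w')) ∈ RR D`,
and `ρ (vt (G.s f)) (c (f :: w)) = ev (cut (C (f :: w))) = ev (cut (C (f :: w) - κ ..)) ∈ UU D`, since
`ev (cut κ) = ρ (vt ..) (ev κ) = 0`. -/
def T_KP : Prop :=
  ∀ (k : Type u) [Field k] {V E : Type} [Fintype V] [Fintype E] (G : CKS.Graph V E)
    (_ : NoSink G) {A : Type u} [CommRing A] [Algebra k A] {N : Type u} [AddCommGroup N]
    [Module k N] [Module A N] [IsScalarTower k A N] (ρ : LPA k G →ₐ[k] Module.End A N)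
    (W : Submodule A N) (D : ℕ) (_ : Star ρ W (D + 1)), Kp ρ W D

/-- TOR (the top quotient is torsion). `W` is finitely generated and absorbing for the operators
`η_i`, and for every `p ≠ 0` the span of the `η_γ p`, `|γ| ≥ m`, is infinite-dimensional. Then every
`z ∈ UU (D + 1)` with `p_v z = z` is torsion modulo `UU D`.
Proof. Suppose `a • z ∈ UU D` only for `a = 0`. If `vt v = 0` then `z = 0`, take `a = 1` (`A`
nontrivial). Let `m` be such that `wd (..) γ z ∈ W` for `|γ| ≥ m`. `W` is generated by `n` elements,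
so any `n + 1` elements of `W` are linearly dependent over `A`. Choose `b_0 .. b_n` independent
over `k` in the span of the `wl η γ * vt v`, `|γ| ≥ m`. `ρ (wl η γ) = wd (fun i => ρ (η i)) γ`, so
`ρ (b_i) z ∈ W` (as `ρ (vt v) z = z`), and there are `a_i ∈ A`, not all `0`, with `Σ a_i ρ(b_i) z = 0`.
By GHOST let `m'` be such that `yw w * b_i ∈ span {yw q | |q| ≥ 1}` for `|w| = m'`, all `i`. As
`b_i * vt v = b_i`, `yw w * b_i = Σ_q C_{w,i}(q) yw q` with `C_{w,i} : List E →₀ k` supported on the
paths `q` with `|q| ≥ 1` starting at `v` (multiply by `vt v` from the right). Let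
`μ_w(q) = Σ_i C_{w,i}(q) • a_i ∈ A`: `0 = ρ (yw w) Σ_i a_i ρ(b_i) z = Σ_q μ_w(q) ρ(yw q) z`. Claim:
`μ_w = 0`. Otherwise let `j + 1` be the maximal length in the support; `Σ_{|q| = j+1} ρ(yw q) (μ_w(q) • z)`
is in `UU (D+1+j)` (it is minus the sum of the shorter terms, and `ρ (yw q)` maps `UU i` into
`UU (i + |q|)`), so by `Kp` `ρ (vt v) (μ_w(q) • z) = μ_w(q) • z ∈ UU D`, so `μ_w(q) = 0` for
`|q| = j + 1`: contradiction. Now choose a `k`-linear `λ : A → k` with `λ (a_i) ≠ 0` for some `i`.
`Σ_i C_{w,i}(q) λ(a_i) = 0` for all `q`, so `yw w * Σ_i λ(a_i) b_i = 0` for all `w` of length `m'`,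
so `Σ_i λ(a_i) b_i = 0` (`c = Σ_e ed e * gh e * c`, see INF), contradiction to the independence. -/
def T_TOR : Prop :=
  ∀ (k : Type u) [Field k] {V E : Type} [Fintype V] [Fintype E] (G : CKS.Graph V E)
    (_ : NoSink G) {A : Type u} [CommRing A] [Nontrivial A] [Algebra k A] {N : Type u}
    [AddCommGroup N] [Module k N] [Module A N] [IsScalarTower k A N]
    (ρ : LPA k G →ₐ[k] Module.End A N) (W : Submodule A N) (_ : W.FG) {ι : Type} [Fintype ι]
    (η : ι → LPA k G)
    (_ : ∀ n, ∃ m, ∀ w : List ι, m ≤ w.length → wd (fun i => ρ (η i)) w n ∈ W)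
    (_ : ∀ (p : LPA k G) (_ : p ≠ 0) (m n : ℕ), ∃ b : Fin n → LPA k G, LinearIndependent k b ∧
      ∀ i, b i ∈ Submodule.span k {x | ∃ γ : List ι, m ≤ γ.length ∧ x = wl η γ * p})
    (D : ℕ) (_ : Kp ρ W D) (v : V) (z : N) (_ : z ∈ UU ρ W (D + 1)) (_ : ρ (vt v) z = z),
    ∃ a : A, a ≠ 0 ∧ a • z ∈ UU ρ W D

/-- CNT (counting). If all `z ∈ UU (D+1)` with `p_v z = z` are torsion modulo `UU D` and the numbers
of paths are unbounded (or `A` is a field) then `UU (D+1) = UU D`.
Proof. `UU (D+1)` is spanned by elements `z` with `p_v z = z` for some `v` (`ρ (yw w) n` for a path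
`w` with last edge `e` is fixed by `vt (G.r e)`). Suppose that such a `z` is not in `UU D`. The ideal
`{a | a • z ∈ UU D} = (d)` is not `0`, not `A`: in particular `A` is not a field. Take a prime
`π ∣ d`, `d = π d'`, and replace `z` by `d' • z`: now `a • z ∈ UU D` iff `π ∣ a`. All `UU i` are
finitely generated (`W.FG`, finitely many words), so free, `N` being torsion-free. There is `a ≠ 0`
with `a • UU (D+1) ≤ UU D` (finitely many generators of the form above), so
`a • UU (D+1+j) ≤ UU (D+j)` (`UU (D+1+j)` is the sum of `UU (D+j)` and of the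
`ρ (yw w) (UU (D+1))`, `|w| = j`), and `UU (D+j)` embeds in `UU D` (multiplication by `a ^ j`), so the
rank `r_j` of `UU (D+j)` is at most `n` = the rank of `UU D`. Take `j` and `n + 1` paths `w` of
length `j + 1` starting at `v` (`Unb`). The elements `x_w = π • ρ (yw w) z = ρ (yw w) (π • z)` of
`M = UU (D+1+j)` are independent modulo `π M`: if `Σ_w α_w x_w = π • m`, `m ∈ M`, then
`Σ_w ρ(yw w) (α_w • z) = m ∈ UU (D+1+j)` (torsion-free), so by `Kp` `α_w • z = ρ (vt v) (α_w • z) ∈ UU D`,
so `π ∣ α_w`. But `M` is free of rank `≤ n`, so there are `α_w`, not all divisible by `π`, with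
`Σ α_w x_w ∈ π M` (a linear system over the field `A ⧸ (π)` with more unknowns than equations, or:
there is a nontrivial relation `Σ_w α_w x_w = 0` over `A`, and dividing by the gcd of the `α_w`,
possible as `M` is torsion-free, one may assume that some `α_w` is not divisible by `π`).
Contradiction. -/
def T_CNT : Prop :=
  ∀ (k : Type u) [Field k] {V E : Type} [Fintype V] [Fintype E] (G : CKS.Graph V E)
    (_ : NoSink G) {A : Type u} [CommRing A] [IsDomain A] [IsPrincipalIdealRing A] [Algebra k A]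
    (_ : Unb G ∨ IsField A) {N : Type u} [AddCommGroup N] [Module k N] [Module A N]
    [IsScalarTower k A N] (_ : ∀ (a : A) (n : N), a • n = 0 → a = 0 ∨ n = 0)
    (ρ : LPA k G →ₐ[k] Module.End A N) (W : Submodule A N) (_ : W.FG) (D : ℕ) (_ : Kp ρ W D)
    (_ : ∀ (v : V) (z : N), z ∈ UU ρ W (D + 1) → ρ (vt v) z = z →
      ∃ a : A, a ≠ 0 ∧ a • z ∈ UU ρ W D),
    UU ρ W (D + 1) = UU ρ W D

/-- LL (the lattice lemma). Let `L(G) ≅ L(H)`; a torsion-free module over a principal ideal domain
`A` with an action of these algebras which has a `G`-lattice has an `H`-lattice.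
Proof (from EXT, GHOST, IND, INF, STAR, KP, TOR, CNT). EXT gives `Pres`, STAR and KP (with
`D = D0`) give `Kp ρ W D` with `ξ e = φ (ed e)`, `η e = φ (gh e)`
(`n = Σ_e ρ(φ(ed e)) (ρ(φ(gh e)) n)`: image under `φ` of `Σ_e ed e * gh e = 1`). TOR: its
infinite-dimensionality hypothesis is the image under `φ` of INF for `G`
(`wl (fun e => φ (gh e)) γ = φ (yw γ)`). CNT gives `UU (D+1) = UU D =: U`. It is finitely generated.
`ρ (gh f) (UU D) ≤ UU (D+1)` (`ρ (gh f) (ρ (yw w) n) = ρ (yw (w ++ [f])) n`, which is `0` if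
`w ++ [f]` is no path), so `U` is stable, and all `UU i ≤ U` by induction on `i`. It is absorbing:
`N` is spanned by the `ρ a n`, `n ∈ W` (every `n ∈ N` is `Σ_{|w| = m} ρ(φ(xw w)) (ρ(φ(yw w)) n)` with
`ρ(φ(yw w)) n ∈ W`), and by GHOST `ρ (yw w * a) n` is, for long `w`, a combination of
`ρ (yw q) n`, `|q| ≥ 1`, which lie in `UU i ≤ U`. (The elements brought into `U` by all
long words form a submodule.) -/
def T_LL : Prop :=
  ∀ (k : Type u) [Field k] {V E V' E' : Type} [Fintype V] [Fintype E] [Fintype V'] [Fintype E']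
    (G : CKS.Graph V E) (H : CKS.Graph V' E') (_ : NoSink G) (_ : NoSink H)
    (φ : LPA k G ≃ₐ[k] LPA k H) {A : Type u} [CommRing A] [IsDomain A] [IsPrincipalIdealRing A]
    [Algebra k A] (_ : Unb H ∨ IsField A) {N : Type u} [AddCommGroup N] [Module k N] [Module A N]
    [IsScalarTower k A N] (_ : ∀ (a : A) (n : N), a • n = 0 → a = 0 ∨ n = 0)
    (ρ : LPA k H →ₐ[k] Module.End A N) (W : Submodule A N)
    (_ : IsLat (fun e => ρ (φ (gh e))) W), ∃ U : Submodule A N, IsLat (yl ρ) U

/-- PATHS. In a finite graph without sinks in which every cycle has an exit the number of paths of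
length `j` starting at `v` is unbounded.
Proof. Let `c_j(v)` be this number (paths of length `j`); it is nondecreasing in `j` (no sinks), and
`c_{j+1}(v) = Σ_{G.s e = v} c_j(G.r e)`. Let `B` be the set of the vertices with bounded `c_j(v)`; for
`v ∈ B` let `c(v) ≥ 1` be the maximum (the eventual value). The range of every edge from `v ∈ B` is
in `B` and `c(v) = Σ_{G.s e = v} c(G.r e)`. If `B` is not empty choose `v0 ∈ B` with `c(v0)` minimal and let
`B' = {v ∈ B | c(v) = c(v0)}`: a vertex of `B'` emits exactly one edge, and its range is in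
`B'`. Following the edges from `v0` one finds a cycle (the vertices `f^[i] v`, `i <` the minimal period
of a periodic vertex `v`, are distinct; the list of their edges is a cycle in the sense of
`IsCycle`), and it has no exit. Contradiction. (Other proofs are fine.) -/
def T_PATHS : Prop :=
  ∀ {V E : Type} [Fintype V] [Fintype E] (G : CKS.Graph V E) (_ : NoSink G) (_ : Exits G), Unb G

/-- DET. If `h : V → V'` commutes with the operators and is an isomorphism up to nilpotent pieces
(long words kill its kernel and map `V'` into its range), then the determinants agree.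
Proof. Let `T = Σ a_i ⊗ b_i` on `V ⊗ W`, `T' = Σ a'_i ⊗ b_i` on `V' ⊗ W`, `H = h ⊗ 1`; `H T = T' H`.
`T^m (x ⊗ y) = Σ_{|w| = m} (wd a w x) ⊗ (wd b w y)` (or by induction on `m`: `T^m` kills `ker h ⊗ W`, the
image of `ker h ⊗ W`, if all words of length `m` kill `ker h`). `ker H` is the image of `ker h ⊗ W` (`W`
is flat: `LinearMap.ker_rTensor..` or `Module.Flat`), so `T` is nilpotent on `ker H`; similarly `T'`
maps `V' ⊗ W` into the range of `H` after `m` steps, so `T'` is nilpotent on the quotient by the range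
of `H`. By `LinearMap.det_eq_det_mul_det` (for the submodules `ker H` and `range H`) and
`det (1 - nilpotent) = 1`: `det (1 - T) = det (1 - T on (V ⊗ W)/ker H)` and
`det (1 - T') = det (1 - T' on range H)`, and the two are conjugate by the isomorphism induced
by `H`. -/
def T_DET : Prop :=
  ∀ {k : Type u} [Field k] {ι : Type} [Fintype ι] {V V' W : Type u} [AddCommGroup V] [Module k V]
    [AddCommGroup V'] [Module k V'] [AddCommGroup W] [Module k W] [FiniteDimensional k V]
    [FiniteDimensional k V'] [FiniteDimensional k W] (a : ι → Module.End k V)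
    (a' : ι → Module.End k V') (b : ι → Module.End k W) (h : V →ₗ[k] V')
    (_ : ∀ i v, h (a i v) = a' i (h v)) (m : ℕ)
    (_ : ∀ w : List ι, m ≤ w.length → ∀ v, h v = 0 → wd a w v = 0)
    (_ : ∀ w : List ι, m ≤ w.length → ∀ v' : V', ∃ v, wd a' w v' = h v), pdet a b = pdet a' b

/-- SCH (Schanuel). Injective endomorphisms of finite free modules with isomorphic cokernels have
associated determinants.
Proof. Let `π : M → M ⧸ range f ≃ M' ⧸ range g`, `π' : M' → M' ⧸ range g`, both surjective. Lifts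
`a : M → M'`, `b : M' → M` with `π' a = π`, `π b = π'` exist (free modules are projective). Let `θ` be the
automorphism `(x, y) ↦ (x, y + a x)` composed with `(x, y) ↦ (x - b y, y)` of `M × M'`; it carries
the kernel of `(x, y) ↦ π x` (the range of `f × 1`) onto the kernel of `(x, y) ↦ π' y` (the range of
`1 × g`), up to the choice of signs. Both maps being injective, `θ ∘ (f × 1) = (1 × g) ∘ θ'` for an
automorphism `θ'` of `M × M'`. Take determinants: `det θ`, `det θ'` are units,
`det (f × 1) = det f` (`LinearMap.det_prodMap` or similar). -/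
def T_SCH : Prop :=
  ∀ {A : Type u} [CommRing A] {M M' : Type u} [AddCommGroup M] [Module A M] [AddCommGroup M']
    [Module A M'] [Module.Free A M] [Module.Finite A M] [Module.Free A M'] [Module.Finite A M']
    (f : Module.End A M) (g : Module.End A M') (_ : Function.Injective f)
    (_ : Function.Injective g)
    (_ : (M ⧸ LinearMap.range f) ≃ₗ[A] (M' ⧸ LinearMap.range g)),
    Associated (LinearMap.det f) (LinearMap.det g)

/-- BAL (the universal balanced map). `N` a left module over `A` and the algebra, `N1` a right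
module over the algebra (over `k`), `W` and `X` absorbing stable submodules (for the ghost edges
from the left, the edges from the right). Then there is a balanced bilinear map
`β : N × N1 → (W ⊗ X)/(1 - T)` with `β(w, x) = [w ⊗ x]`.
Proof. Let `C` be the quotient. (1) `T_GL` for the ring `k`, the module `N1`, the operators `xr R`,
the submodule `X`, the module `Q' = (W →ₗ[A] C)` with `X_e f = f ∘ₗ (rs (yl ρ) _ e)` and
`g x = (w ↦ [w ⊗ x])`: `g x = Σ_e X_e (g (x e))` says that the class of `w ⊗ x` is the sum of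
the classes of the `e* w ⊗ x e`, true in `C`. It gives
`g1 : N1 →ₗ[k] (W →ₗ[A] C)` with `g1 n w = Σ_e g1 (n e) (e* w)`, extending `g`. (2) `T_UP` for the
module `N` with the lattice `W`, `Q = (N1 →ₗ[k] C)` with `σ a f = f ∘ₗ (R a).unop` (an algebra
homomorphism, since `R` is one into the opposite), and the map `w ↦ (n ↦ g1 n w)`. It gives
`β : N →ₗ[A] Q` with `β (ρ a n') n = β n' (n a)` and `β w x = [w ⊗ x]`. -/
def T_BAL : Prop :=
  ∀ (k : Type u) [Field k] {V E : Type} [Fintype V] [Fintype E] (G : CKS.Graph V E)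
    (_ : NoSink G) {A : Type u} [CommRing A] [Algebra k A] {N N1 : Type u} [AddCommGroup N]
    [Module k N] [Module A N] [IsScalarTower k A N] [AddCommGroup N1] [Module k N1]
    (ρ : LPA k G →ₐ[k] Module.End A N) (R : LPA k G →ₐ[k] (Module.End k N1)ᵐᵒᵖ)
    (W : Submodule A N) (X : Submodule k N1) (hW : ∀ e, ∀ n ∈ W, yl ρ e n ∈ W)
    (_ : ∀ n, ∃ m, ∀ w : List E, m ≤ w.length → wd (yl ρ) w n ∈ W)
    (hX : ∀ e, ∀ n ∈ X, xr R e n ∈ X)
    (_ : ∀ n, ∃ m, ∀ w : List E, m ≤ w.length → wd (xr R) w n ∈ X),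
    ∃ β : N →ₗ[A] (N1 →ₗ[k]
        ((W ⊗[k] X) ⧸ LinearMap.range (1 - mT (rs (yl ρ) hW) (rs (xr R) hX)))),
      (∀ a n' n, β (ρ a n') n = β n' ((R a).unop n)) ∧
      ∀ (w : W) (x : X), β w x = Submodule.Quotient.mk (w ⊗ₜ x)

/-- UNIQ. A balanced map that vanishes on `W × X` is zero.
Proof. `β n' n = Σ_e β (e* n') (n e)` for all `n'`, `n`: `1 = Σ_e ed e * gh e` and
`β n' (n (ed e * gh e)) = β n' ((n ed e) gh e) = β (gh e n') (n ed e)`. So if
`β (wd (yl ρ) w n') (wd (xr R) w n) = 0` for all words `w` of length `m` then `β n' n = 0` (induction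
on `m`, for all `n'`, `n`); it holds for large `m`. -/
def T_UNIQ : Prop :=
  ∀ (k : Type u) [Field k] {V E : Type} [Fintype V] [Fintype E] (G : CKS.Graph V E)
    (_ : NoSink G) {A : Type u} [CommRing A] [Algebra k A] {N N1 Z : Type u} [AddCommGroup N]
    [Module k N] [Module A N] [IsScalarTower k A N] [AddCommGroup N1] [Module k N1]
    [AddCommGroup Z] [Module k Z] [Module A Z] [IsScalarTower k A Z]
    (ρ : LPA k G →ₐ[k] Module.End A N) (R : LPA k G →ₐ[k] (Module.End k N1)ᵐᵒᵖ)
    (W : Submodule A N) (X : Submodule k N1)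
    (_ : ∀ n, ∃ m, ∀ w : List E, m ≤ w.length → wd (yl ρ) w n ∈ W)
    (_ : ∀ n, ∃ m, ∀ w : List E, m ≤ w.length → wd (xr R) w n ∈ X)
    (β : N →ₗ[A] (N1 →ₗ[k] Z)) (_ : ∀ a n' n, β (ρ a n') n = β n' ((R a).unop n))
    (_ : ∀ w ∈ W, ∀ x ∈ X, β w x = 0), β = 0

/-- COK. The cokernels of `1 - T` for lattices over `G` and over `H` are isomorphic.
Proof (from BAL and UNIQ). Let `β_H` be the map of BAL for `H`, `β_G` the map of BAL for `G` (with
`ρ.comp φ`, `R.comp φ`); both are balanced for all elements of `LPA k H`. The restriction of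
`β_H` to `WG × XG` induces (`TensorProduct.AlgebraTensorModule.lift`) a map
`WG ⊗ XG → C_H` which kills the range of `1 - T` (`β_H w x = Σ_e β_H (e* w) (x e)`, see UNIQ), so a
map `Φ : C_G → C_H` with `Φ [w ⊗ x] = β_H w x`. Similarly `Ψ : C_H → C_G`. `Ψ ∘ β_H` and `β_G` are
balanced and agree on `WH × XH`, so by UNIQ they are equal, and `Ψ (Φ [w ⊗ x]) = Ψ (β_H w x) =
β_G w x = [w ⊗ x]` for `w ∈ WG`, `x ∈ XG`. The same with the roles exchanged. -/
def T_COK : Prop :=
  ∀ (k : Type u) [Field k] {V E V' E' : Type} [Fintype V] [Fintype E] [Fintype V'] [Fintype E']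
    (G : CKS.Graph V E) (H : CKS.Graph V' E') (_ : NoSink G) (_ : NoSink H)
    (φ : LPA k G ≃ₐ[k] LPA k H) {A : Type u} [CommRing A] [Algebra k A] {N N1 : Type u}
    [AddCommGroup N] [Module k N] [Module A N] [IsScalarTower k A N] [AddCommGroup N1]
    [Module k N1] (ρ : LPA k H →ₐ[k] Module.End A N) (R : LPA k H →ₐ[k] (Module.End k N1)ᵐᵒᵖ)
    (WG WH : Submodule A N) (XG XH : Submodule k N1)
    (hWG : IsLat (yl (ρ.comp (φ : LPA k G →ₐ[k] LPA k H))) WG) (hWH : IsLat (yl ρ) WH)
    (hXG : IsLat (xr (R.comp (φ : LPA k G →ₐ[k] LPA k H))) XG) (hXH : IsLat (xr R) XH),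
    Nonempty (((WG ⊗[k] XG) ⧸ LinearMap.range (1 - mT (rs _ hWG.st) (rs _ hXG.st))) ≃ₗ[A]
      ((WH ⊗[k] XH) ⧸ LinearMap.range (1 - mT (rs _ hWH.st) (rs _ hXH.st))))

/-- FAM (the family over `k[X]`). A left module `N` over `k` with a lattice `W` is the fibre at
`X = 1` of a torsion-free module `M` over `k[X]` with a lattice, on which `X` is bijective.
Proof. `M = LaurentPolynomial k ⊗[k] N` (`A = k[X]` acts on the left factor through
`Polynomial.toLaurent`, see `LaurentPolynomial.algebraPolynomial`), `ρ' (vt v) = 1 ⊗ ρ (vt v)`,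
`ρ' (ed e) = (T (-1)) ⊗ ρ (ed e)`, `ρ' (gh e) = (T 1) ⊗ ρ (gh e)` (`Fam.lift`; operators
`TensorProduct.AlgebraTensorModule.map`), `ε (p ⊗ n) = p(1) • n` with `p(1)` the sum of the
coefficients (the `k`-algebra homomorphism `LaurentPolynomial k → k` with `T n ↦ 1`, e.g.
`AddMonoidAlgebra.lift`). `W' =` the span over `k[X]` of the `1 ⊗ n`, `n ∈ W`: it is stable since
`ρ' (gh e) (1 ⊗ n) = T 1 ⊗ ρ(gh e) n = X • (1 ⊗ ρ(gh e) n)`, and absorbing: it suffices to bring
`T j ⊗ n` into `W'`, and for a word `w` of length `≥ m(n)` and `≥ |j|` one has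
`wd .. w (T j ⊗ n) = T (j + |w|) ⊗ wd .. w n ∈ W'`. `M` is free over `LaurentPolynomial k` (basis
`1 ⊗ b_i`), a domain containing `k[X]`, so it is torsion-free over `k[X]`. If `ε z = 0` then
`z ∈ (X - 1) M`: for all `z`, `z - 1 ⊗ ε z ∈ (X - 1) M` by additivity and
`T n ⊗ x - 1 ⊗ x = (T n - 1) ⊗ x` with `T 1 - 1` dividing `T n - 1` in `LaurentPolynomial k`.
(`M` may be any other construction, it only has to have the stated properties. The `k`-module
structure of `M` must be the one induced from `k[X]`.) -/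
def T_FAM : Prop :=
  ∀ (k : Type u) [Field k] {V E : Type} [Fintype V] [Fintype E] (G : CKS.Graph V E)
    {N : Type u} [AddCommGroup N] [Module k N] (ρ : LPA k G →ₐ[k] Module.End k N)
    (W : Submodule k N) (_ : IsLat (yl ρ) W),
    ∃ (M : Type u) (_ : AddCommGroup M) (_ : Module k M) (_ : Module k[X] M)
      (_ : IsScalarTower k k[X] M) (ρ' : LPA k G →ₐ[k] Module.End k[X] M) (ε : M →ₗ[k] N)
      (W' : Submodule k[X] M), (∀ (a : k[X]) (n : M), a • n = 0 → a = 0 ∨ n = 0) ∧
      (∀ n : M, ∃ n', (X : k[X]) • n' = n) ∧ (∀ n : M, ε ((X : k[X]) • n) = ε n) ∧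
      (∀ n : M, ε n = 0 → ∃ n', n = (X - 1 : k[X]) • n') ∧ Function.Surjective ε ∧
      (∀ a n, ε (ρ' a n) = ρ a (ε n)) ∧ IsLat (yl ρ') W'

/-- SPEC (specialisation). Let `M` be a torsion-free module over `k[X]` with `X` bijective,
`ε : M → N` the fibre at `X = 1`, `Y_i` operators on `M` and `Z_i` on `N` with `ε Y_i = Z_i ε`, and
`W ≤ M` a lattice; let `b_i` be operators on a finite-dimensional space `U`. The determinant
`δ ∈ k[X]` of `1 - Σ Y_i ⊗ b_i` on `W ⊗ U` has `δ(0) = 1`, and `δ(1)` is the determinant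
for the image of `W` in `N`.
Proof (from DET). `W` is free over `k[X]` (finitely generated, torsion-free), with basis
`w_1 .. w_r` (`r` finite; `r = 0` possible). Let `P_i` be the matrix of `Y_i` in this basis
(`LinearMap.toMatrix`), `Q_i` the matrix of `b_i` in a basis of `U`; the matrix of
`AlgebraTensorModule.map (Y_i) (b_i)` in the basis `Basis.tensorProduct` is the Kronecker product of
`P_i` and `Q_i` (mapped to `k[X]`). So for `c ∈ k` the value `δ(c)` is `pdet (a^c) b` with
`a^c_i = Matrix.toLin' (P_i(c))` on `Fin r → k` (`RingHom.map_det`; `TensorProduct.toMatrix_map`).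
Words: `wd a^c w` is `toLin'` of the value at `c` of the matrix of `wd Y w` on `W`.
`c = 0`: for every `j` there is `n` with `w_j = X • n`, and long words bring `n` into `W`, so
`wd Y w w_j ∈ X • W`, all coefficients are divisible by `X` and `wd a^0 w = 0` for long `w`. By DET
(with `h = 0 : (Fin r → k) → PUnit`) `pdet (a^0) b = pdet (0 on PUnit) b = 1`.
`c = 1`: `h : (Fin r → k) → W.map ε`, `h x = Σ x_j ε(w_j)`, commutes with the operators, is
surjective since `ε (p • n) = p(1) ε(n)` (`p ∈ k[X]`), and if `h x = 0` then `z = Σ x_j w_j ∈ W` has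
`ε z = 0`, `z = (X - 1) n`, and long words bring `n` into `W`, so `wd Y w z ∈ (X - 1) W`, which
says `wd a^1 w x = 0`. The bound on the length can be chosen uniformly (finite dimension). DET. -/
def T_SPEC : Prop :=
  ∀ (k : Type u) [Field k] {ι : Type} [Fintype ι] {M N U : Type u} [AddCommGroup M] [Module k M]
    [Module k[X] M] [IsScalarTower k k[X] M] [AddCommGroup N] [Module k N] [AddCommGroup U]
    [Module k U] [FiniteDimensional k U] (ε : M →ₗ[k] N) (Y : ι → Module.End k[X] M)
    (Z : ι → Module.End k N) (_ : ∀ (a : k[X]) (n : M), a • n = 0 → a = 0 ∨ n = 0)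
    (_ : ∀ n : M, ∃ n', (X : k[X]) • n' = n) (_ : ∀ n : M, ε ((X : k[X]) • n) = ε n)
    (_ : ∀ n : M, ε n = 0 → ∃ n', n = (X - 1 : k[X]) • n') (_ : ∀ i n, ε (Y i n) = Z i (ε n))
    (W : Submodule k[X] M) (hW : IsLat Y W) (b : ι → Module.End k U)
    (hst : ∀ i, ∀ n ∈ (W.restrictScalars k).map ε, Z i n ∈ (W.restrictScalars k).map ε),
    Polynomial.eval (0 : k) (mdet (rs Y hW.st) b) = 1 ∧
    Polynomial.eval (1 : k) (mdet (rs Y hW.st) b) = pdet (rs Z hst) b

/-- IDP1 (independence of the lattice in the left module). Proof. `W1 ≤ W1 ⊔ W2` and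
`W2 ≤ W1 ⊔ W2`; apply DET to the inclusions (kernel `0`, long words map `W1 ⊔ W2`, which is finitely
generated, into `W1`). -/
def T_IDP1 : Prop :=
  ∀ {k : Type u} [Field k] {ι : Type} [Fintype ι] {N U : Type u} [AddCommGroup N] [Module k N]
    [AddCommGroup U] [Module k U] [FiniteDimensional k U] (Y : ι → Module.End k N)
    (b : ι → Module.End k U) (W1 W2 : Submodule k N) (h1 : IsLat Y W1) (h2 : IsLat Y W2),
    pdet (rs Y h1.st) b = pdet (rs Y h2.st) b

/-- MAIN (the intrinsic determinant pairing).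
Proof (from LL, COK, SCH, FAM, SPEC, IDP1). Apply FAM to `G`, the representation `ρ.comp φ` and
`WG`: `M, ρ', ε, W'`. Let `ρ'' = ρ'.comp φ.symm`, a representation of `LPA k H` on `M`; `ε`
intertwines it with `ρ`. `ρ''.comp φ = ρ'`. LL (for `A = k[X]`, `Unb H`) gives an
`H`-lattice `U` of `M`. COK for `ρ''`, `R`, `W'`, `U`, `XG`, `XH`: the cokernels of `1 - T` over
`k[X]` are isomorphic. Let `δG`, `δH` be the determinants; `δG(0) = 1 = δH(0)` by SPEC, so both are
`≠ 0` and the maps are injective (`LinearMap.det ≠ 0` over a domain). SCH: `δG` and `δH` are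
associated in `k[X]`, so equal up to a constant, and the values at `0` agree: `δG = δH`. Evaluate at
`1` with SPEC: `pdet` for the image of `W'` in `N` (a `G`-lattice of `N`: image of a lattice, `ε`
surjective) and `XG` is `pdet` for the image of `U` (an `H`-lattice) and `XH`. By IDP1 these are
the `pdet` for `WG` and `WH`. (`W ⊗ X` is free over `k[X]` with `Basis.tensorProduct`.) -/
def T_MAIN : Prop :=
  ∀ (k : Type u) [Field k] {V E V' E' : Type} [Fintype V] [Fintype E] [Fintype V'] [Fintype E']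
    (G : CKS.Graph V E) (H : CKS.Graph V' E') (_ : NoSink G) (_ : NoSink H) (_ : Unb H)
    (φ : LPA k G ≃ₐ[k] LPA k H) {N N1 : Type u} [AddCommGroup N] [Module k N] [AddCommGroup N1]
    [Module k N1] (ρ : LPA k H →ₐ[k] Module.End k N) (R : LPA k H →ₐ[k] (Module.End k N1)ᵐᵒᵖ)
    (WG WH : Submodule k N) (XG XH : Submodule k N1)
    (hWG : IsLat (yl (ρ.comp (φ : LPA k G →ₐ[k] LPA k H))) WG) (hWH : IsLat (yl ρ) WH)
    (hXG : IsLat (xr (R.comp (φ : LPA k G →ₐ[k] LPA k H))) XG) (hXH : IsLat (xr R) XH),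
    pdet (rs _ hWG.st) (rs _ hXG.st) = pdet (rs _ hWH.st) (rs _ hXH.st)

/-- TRIV. The trivial module has a lattice `W` (spanned by the indicator functions `1_v` of the sets
of the paths starting at `v`) with `det (1 - Σ_e W_e ⊗ W_e) = det (1 - A_G)`.
Proof. `gh e` maps `1_v` to `1_{G.r e}` if `G.s e = v` and to `0` otherwise; the `1_v` are linearly
independent (`NoSink`: every vertex is the source of an infinite path). `W` = their span is stable,
finite-dimensional and absorbing: if `f` depends only on the first `n` edges and `|w| ≥ n` then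
`w* f` is a multiple of the indicator function of the paths starting at the range of `w` (the case
`|w| = 0`, `n = 0`: `f` is constant and is the sum of the `1_v` times a constant; so take
`m = n`; if `w` is no path then `w* f = 0`). In the basis `1_v ⊗ 1_u` of
`W ⊗ W` the operator `T = Σ_e W_e ⊗ W_e` is `1_v ⊗ 1_u ↦ Σ_{G.s e = v = u} 1_{G.r e} ⊗ 1_{G.r e}`,
so `0` for `u ≠ v`: the matrix of `1 - T` is block triangular with the blocks `1 - A_G` (transposed)
on the diagonal elements and the identity (`Matrix.det_fromBlocks_zero..`, or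
`Matrix.det_of_block_triangular`, or: apply DET with `V = V → k`-span of the diagonal and
`b` the identity on `k`; e.g. `T` maps everything into the diagonal part). -/
def T_TRIV : Prop :=
  ∀ (k : Type u) [Field k] {V E : Type} [Fintype V] [DecidableEq V] [Fintype E]
    (G : CKS.Graph V E) (_ : NoSink G), ∃ W : Submodule k (lc k G),
      ∃ h : IsLat (yl (trep k G)) W,
      pdet (rs _ h.st) (rs _ h.st) = Matrix.det (1 - adj k G)

end Pool.Agent.IDP
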