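import Pool.Agent.IDP.Defs

/-!
# The trivial module: locally constant functions on the space of infinite paths

The Leavitt path algebra of a finite graph acts on these functions: the vertex `v` by restriction to
the paths starting at `v`, the edge `e` by `(e f)(e x) = f x` (and `0` on paths not starting with
`e`), the ghost edge `e` by `(e* f)(x) = f (e x)`.
-/

set_option autoImplicit false

universe u

namespace Pool.Agent.IDP

open CKS

section Triv

variable (k : Type u) [Field k] {V E : Type} (G : CKS.Graph V E)

open Classical in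
/-- restriction to the paths starting at a vertex -/
noncomputable def pO (v : V) : Module.End k (IPath G → k) where
  toFun f := fun x => if G.s (x.1 0) = v then f x else 0
  map_add' f g := by
    funext x
    by_cases h : G.s (x.1 0) = v <;> simp [h]
  map_smul' c f := by
    funext x
    by_cases h : G.s (x.1 0) = v <;> simp [h]

open Classical in
/-- the operator of an edge -/
noncomputable def eO (e : E) : Module.End k (IPath G → k) where
  toFun f := fun x => if x.1 0 = e then f (tl x) else 0
  map_add' f g := by
    funext x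
    by_cases h : x.1 0 = e <;> simp [h]
  map_smul' c f := by
    funext x
    by_cases h : x.1 0 = e <;> simp [h]

open Classical in
/-- the operator of a ghost edge -/
noncomputable def gO (e : E) : Module.End k (IPath G → k) where
  toFun f := fun x => if h : G.r e = G.s (x.1 0) then f (pre e x h) else 0
  map_add' f g := by
    funext x
    by_cases h : G.r e = G.s (x.1 0) <;> simp [h]
  map_smul' c f := by
    funext x
    by_cases h : G.r e = G.s (x.1 0) <;> simp [h]

theorem pO_lc (v : V) : ∀ f ∈ lc k G, pO k G v f ∈ lc k G := by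
  rintro f ⟨n, hn⟩
  refine ⟨n + 1, fun x y h => ?_⟩
  have h0 : x.1 0 = y.1 0 := h 0 (Nat.succ_pos n)
  have h1 : f x = f y := hn x y fun i hi => h i (Nat.lt_succ_of_lt hi)
  simp only [pO, LinearMap.coe_mk, AddHom.coe_mk]
  by_cases hx : G.s (x.1 0) = v
  · rw [if_pos hx, if_pos (by rw [← h0]; exact hx), h1]
  · rw [if_neg hx, if_neg (by rw [← h0]; exact hx)]

theorem eO_lc (e : E) : ∀ f ∈ lc k G, eO k G e f ∈ lc k G := by
  rintro f ⟨n, hn⟩
  refine ⟨n + 1, fun x y h => ?_⟩
  have h0 : x.1 0 = y.1 0 := h 0 (Nat.succ_pos n)
  have h1 : f (tl x) = f (tl y) := hn (tl x) (tl y) fun i hi => h (i + 1) (Nat.succ_lt_succ hi)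
  simp only [eO, LinearMap.coe_mk, AddHom.coe_mk]
  by_cases hx : x.1 0 = e
  · rw [if_pos hx, if_pos (by rw [← h0]; exact hx), h1]
  · rw [if_neg hx, if_neg (by rw [← h0]; exact hx)]

theorem gO_lc (e : E) : ∀ f ∈ lc k G, gO k G e f ∈ lc k G := by
  rintro f ⟨n, hn⟩
  refine ⟨n + 1, fun x y h => ?_⟩
  have h0 : x.1 0 = y.1 0 := h 0 (Nat.succ_pos n)
  simp only [gO, LinearMap.coe_mk, AddHom.coe_mk]
  by_cases hx : G.r e = G.s (x.1 0)
  · have hy : G.r e = G.s (y.1 0) := by rw [← h0]; exact hx
    rw [dif_pos hx, dif_pos hy]
    refine hn _ _ fun i hi => ?_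
    rcases i with _ | i
    · rfl
    · exact h i (lt_of_lt_of_le (Nat.lt_of_succ_lt hi) (Nat.le_succ n))
  · have hy : ¬ G.r e = G.s (y.1 0) := by rw [← h0]; exact hx
    rw [dif_neg hx, dif_neg hy]

theorem tl_pre {G : CKS.Graph V E} (e : E) (x : IPath G) (h : G.r e = G.s (x.1 0)) :
    tl (pre e x h) = x := rfl

theorem pre_tl {G : CKS.Graph V E} (e : E) (x : IPath G) (h : G.r e = G.s ((tl x).1 0))
    (h0 : x.1 0 = e) : pre e (tl x) h = x := by
  apply Subtype.ext
  funext i
  rcases i with _ | i
  · exact h0.symm
  · rfl

/-- the family of operators on the trivial module -/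
noncomputable def tfam : Fam k G G.IsReg (Module.End k (lc k G)) where
  p v := (pO k G v).restrict (pO_lc k G v)
  x e := (eO k G e).restrict (eO_lc k G e)
  y e := (gO k G e).restrict (gO_lc k G e)
  idem a := by
    refine LinearMap.ext fun f => Subtype.ext (funext fun x => ?_)
    simp only [Module.End.mul_apply, LinearMap.coe_restrict_apply, pO, LinearMap.coe_mk,
      AddHom.coe_mk]
    by_cases h : G.s (x.1 0) = a <;> simp [h]
  orth a b hab := by
    refine LinearMap.ext fun f => Subtype.ext (funext fun x => ?_)
    simp only [Module.End.mul_apply, LinearMap.coe_restrict_apply, pO, LinearMap.coe_mk,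
      AddHom.coe_mk, LinearMap.zero_apply, ZeroMemClass.coe_zero, Pi.zero_apply]
    by_cases h : G.s (x.1 0) = a
    · have h' : ¬ G.s (x.1 0) = b := fun h' => hab (h.symm.trans h')
      simp [h']
    · simp [h]
  se e := by
    refine LinearMap.ext fun f => Subtype.ext (funext fun x => ?_)
    simp only [Module.End.mul_apply, LinearMap.coe_restrict_apply, pO, eO, LinearMap.coe_mk,
      AddHom.coe_mk]
    by_cases h : x.1 0 = e
    · simp [h]
    · simp [h]
  er e := by
    refine LinearMap.ext fun f => Subtype.ext (funext fun x => ?_)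
    simp only [Module.End.mul_apply, LinearMap.coe_restrict_apply, pO, eO, LinearMap.coe_mk,
      AddHom.coe_mk]
    by_cases h : x.1 0 = e
    · have h' : G.s ((tl x).1 0) = G.r e := by
        rw [← h]; exact (x.2 0).symm
      simp [h, h']
    · simp [h]
  rg e := by
    refine LinearMap.ext fun f => Subtype.ext (funext fun x => ?_)
    simp only [Module.End.mul_apply, LinearMap.coe_restrict_apply, pO, gO, LinearMap.coe_mk,
      AddHom.coe_mk]
    by_cases h : G.r e = G.s (x.1 0)
    · simp [h]
    · have h' : ¬ G.s (x.1 0) = G.r e := fun h' => h h'.symm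
      simp [h, h']
  gs e := by
    refine LinearMap.ext fun f => Subtype.ext (funext fun x => ?_)
    simp only [Module.End.mul_apply, LinearMap.coe_restrict_apply, pO, gO, LinearMap.coe_mk,
      AddHom.coe_mk]
    by_cases h : G.r e = G.s (x.1 0)
    · simp only [dif_pos h]
      rw [if_pos]
      rfl
    · simp [h]
  ge e := by
    refine LinearMap.ext fun f => Subtype.ext (funext fun x => ?_)
    simp only [Module.End.mul_apply, LinearMap.coe_restrict_apply, pO, gO, eO, LinearMap.coe_mk,
      AddHom.coe_mk]
    by_cases h : G.r e = G.s (x.1 0)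
    · rw [dif_pos h, if_pos h.symm, if_pos (by rfl), tl_pre]
    · rw [dif_neg h, if_neg fun h' => h h'.symm]
  gf e f hef := by
    refine LinearMap.ext fun g => Subtype.ext (funext fun x => ?_)
    simp only [Module.End.mul_apply, LinearMap.coe_restrict_apply, gO, eO, LinearMap.coe_mk,
      AddHom.coe_mk, LinearMap.zero_apply, ZeroMemClass.coe_zero, Pi.zero_apply]
    by_cases h : G.r e = G.s (x.1 0)
    · rw [dif_pos h, if_neg]
      exact hef
    · rw [dif_neg h]
  ck a _ S hS := by
    classical
    refine LinearMap.ext fun f => Subtype.ext (funext fun x => ?_)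
    have h0 : ∀ e : E, ((((eO k G e).restrict (eO_lc k G e) * (gO k G e).restrict (gO_lc k G e)) f :
        lc k G) : IPath G → k) x = if x.1 0 = e then f.1 x else 0 := by
      intro e
      simp only [Module.End.mul_apply, LinearMap.coe_restrict_apply, gO, eO, LinearMap.coe_mk,
        AddHom.coe_mk]
      by_cases h : x.1 0 = e
      · have h' : G.r e = G.s ((tl x).1 0) := by
          rw [← h]; exact x.2 0
        rw [if_pos h, if_pos h, dif_pos h', pre_tl e x h' h]
      · rw [if_neg h, if_neg h]
    rw [LinearMap.sum_apply, AddSubmonoidClass.coe_finsetSum, Finset.sum_apply,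
      Finset.sum_congr rfl fun e _ => h0 e, Finset.sum_ite_eq S (x.1 0)]
    simp only [LinearMap.coe_restrict_apply, pO, LinearMap.coe_mk, AddHom.coe_mk, hS]
  one S hS := by
    classical
    refine LinearMap.ext fun f => Subtype.ext (funext fun x => ?_)
    rw [LinearMap.sum_apply, AddSubmonoidClass.coe_finsetSum, Finset.sum_apply]
    simp only [LinearMap.coe_restrict_apply, pO, LinearMap.coe_mk, AddHom.coe_mk]
    rw [Finset.sum_ite_eq S (G.s (x.1 0)), if_pos (hS _)]
    rfl

/-- The trivial module: the representation of the Leavitt path algebra on the locally constant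
functions on the space of infinite paths. -/
noncomputable def trep : LPA k G →ₐ[k] Module.End k (lc k G) := (tfam k G).lift

/-- The trivial right module. -/
noncomputable def trepR : LPA k G →ₐ[k] (Module.End k (lc k G))ᵐᵒᵖ :=
  (AlgHom.op (trep k G)).comp (starOp k G G.IsReg)

theorem trep_gh (e : E) (f : lc k G) (x : IPath G) (h : G.r e = G.s (x.1 0)) :
    (trep k G (gh e) f).1 x = f.1 (pre e x h) := by
  simp only [trep, lift_gh, tfam, LinearMap.coe_restrict_apply, gO, LinearMap.coe_mk,
    AddHom.coe_mk]
  rw [dif_pos h]

theorem trepR_unop (a : LPA k G) : (trepR k G a).unop = trep k G (sta k G G.IsReg a) := rfl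

theorem trepR_ed (e : E) : (trepR k G (ed e)).unop = trep k G (gh e) := by
  rw [trepR_unop, sta_ed]

end Triv

end Pool.Agent.IDP
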